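import Pool.Agent.Helper99.MS.Mz

/-!
# Consequences of small sums in short intervals
-/

namespace Pool.Agent.Helper99.MS

open Finset Set Filter Topology

/-- all sums of `c` over the intervals `(x, x+h]` with `h * Ψ x ≤ x` beyond `X` are at most `(1-δ)√x` -/
def HS (c : ℕ → ℝ) (Ψ : ℕ → ℝ) (δ : ℝ) (X : ℕ) : Prop := ∀ x h : ℕ, X ≤ x → 1 ≤ h →
  (h : ℝ) * Ψ x ≤ x → |∑ n ∈ Finset.Ioc x (x + h), c n| ≤ (1 - δ) * √(x : ℝ)

theorem llog_ge {x : ℕ} (hx : 27 ≤ x) : 1 ≤ Real.log (Real.log x) ∧ 3 ≤ Real.log x := by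
  have hxR : (27:ℝ) ≤ x := by exact_mod_cast hx
  have he := Real.exp_one_lt_d9
  have h3 : 3 ≤ Real.log x := by
    rw [Real.le_log_iff_exp_le (by linarith)]
    have : Real.exp 3 = Real.exp 1 ^ 3 := by rw [← Real.exp_nat_mul]; norm_num
    rw [this]
    have h4 : Real.exp 1 ^ 3 ≤ 3 ^ 3 := pow_le_pow_left₀ (Real.exp_pos 1).le (by linarith) 3
    linarith
  refine ⟨?_, h3⟩
  rw [Real.le_log_iff_exp_le (by linarith)]
  linarith

theorem sum_Icc_sub (c : ℕ → ℝ) {x y : ℕ} (h : x ≤ y) :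
    ∑ n ∈ Finset.Icc 1 y, c n - ∑ n ∈ Finset.Icc 1 x, c n = ∑ n ∈ Finset.Ioc x y, c n := by
  have h1 : Finset.Icc 1 y = Finset.Icc 1 x ∪ Finset.Ioc x y := by
    ext n
    simp only [Finset.mem_Icc, Finset.mem_union, Finset.mem_Ioc]
    omega
  have h2 : Disjoint (Finset.Icc 1 x) (Finset.Ioc x y) := by
    rw [Finset.disjoint_left]
    intro n hn hn'
    rw [Finset.mem_Icc] at hn
    rw [Finset.mem_Ioc] at hn'
    omega
  rw [h1, Finset.sum_union h2]
  ring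

theorem abs_sum_Icc_le {c : ℕ → ℝ} (hc : ∀ n, |c n| ≤ 1) (x : ℕ) : |∑ n ∈ Finset.Icc 1 x, c n| ≤ x := by
  calc |∑ n ∈ Finset.Icc 1 x, c n| ≤ ∑ n ∈ Finset.Icc 1 x, |c n| := Finset.abs_sum_le_sum_abs _ _
    _ ≤ ∑ n ∈ Finset.Icc 1 x, (1:ℝ) := Finset.sum_le_sum (fun n _ => hc n)
    _ = x := by simp

theorem grow_step {c : ℕ → ℝ} (hc : ∀ n, |c n| ≤ 1) {ψ : ℝ} (hψ : 1 ≤ ψ) {X N : ℕ}
    (h : ∀ x h : ℕ, X ≤ x → x ≤ N → 1 ≤ h → (h : ℝ) ≤ (x : ℝ) / ψ →
      |∑ n ∈ Finset.Ioc x (x + h), c n| ≤ √(x : ℝ)) :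
    ∀ x : ℕ, x ≤ N → |∑ n ∈ Finset.Icc 1 x, c n| ≤ 2 * X + 2 * (ψ + 1) + 6 * (ψ + 1) * √(x : ℝ) := by
  intro x
  induction x using Nat.strong_induction_on with
  | _ x ih =>
    intro hxN
    have hx0 : (0:ℝ) ≤ x := Nat.cast_nonneg x
    by_cases hx1 : (x : ℝ) < 2 * X
    · refine (abs_sum_Icc_le hc x).trans ?_
      have : 0 ≤ 2 * (ψ + 1) + 6 * (ψ + 1) * √(x : ℝ) := by positivity
      linarith
    by_cases hx2 : (x : ℝ) < 2 * (ψ + 1)
    · refine (abs_sum_Icc_le hc x).trans ?_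
      have h1 : 0 ≤ 6 * (ψ + 1) * √(x : ℝ) := by positivity
      have h2 : (0:ℝ) ≤ X := Nat.cast_nonneg X
      linarith
    push Not at hx1 hx2
    set y : ℕ := ⌈(x : ℝ) * ψ / (ψ + 1)⌉₊ with hy
    have hy1 : (x : ℝ) * ψ / (ψ + 1) ≤ y := Nat.le_ceil _
    have hy2 : (y : ℝ) < (x : ℝ) * ψ / (ψ + 1) + 1 := Nat.ceil_lt_add_one (by positivity)
    have e1 : (x : ℝ) * ψ / (ψ + 1) = x - x / (ψ + 1) := by field_simp; ring
    have h3 : 2 ≤ (x : ℝ) / (ψ + 1) := by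
      rw [le_div_iff₀ (by linarith)]; linarith
    have hyx : y < x := by
      have : (y : ℝ) < x := by rw [e1] at hy2; linarith
      exact_mod_cast this
    have hXy : X ≤ y := by
      have h4 : (x : ℝ) / 2 ≤ (x : ℝ) * ψ / (ψ + 1) := by
        rw [div_le_div_iff₀ (by norm_num) (by linarith)]
        nlinarith
      have : (X : ℝ) ≤ y := by linarith
      exact_mod_cast this
    have hcast : ((x - y : ℕ) : ℝ) = x - y := by
      rw [Nat.cast_sub hyx.le]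
    have hstep := h y (x - y) hXy (by omega) (by omega) (by
      rw [hcast, le_div_iff₀ (by linarith)]
      have h5 : (x : ℝ) * ψ ≤ y * (ψ + 1) := by
        rwa [div_le_iff₀ (by linarith)] at hy1
      nlinarith)
    rw [show y + (x - y) = x by omega] at hstep
    have hih := ih y hyx (by omega)
    have hsub := sum_Icc_sub c hyx.le
    have htri : |∑ n ∈ Finset.Icc 1 x, c n| ≤ |∑ n ∈ Finset.Icc 1 y, c n| + √(y : ℝ) := by
      have e2 : ∑ n ∈ Finset.Icc 1 x, c n = ∑ n ∈ Finset.Icc 1 y, c n + ∑ n ∈ Finset.Ioc y x, c n := by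
        linarith
      rw [e2]
      exact (abs_add_le _ _).trans (by linarith)
    set A : ℝ := 6 * (ψ + 1) with hA
    have hA12 : 12 ≤ A := by rw [hA]; linarith
    have hkey : (A + 1) * √(y : ℝ) ≤ A * √(x : ℝ) := by
      have h6 : (y : ℝ) ≤ x * (1 - 3 / A) := by
        have h7 : x * (1 - 3 / A) = x - x / (ψ + 1) + x / (2 * (ψ + 1)) := by
          rw [hA]; field_simp; ring
        have h8 : 1 ≤ (x : ℝ) / (2 * (ψ + 1)) := by
          rw [le_div_iff₀ (by linarith)]; linarith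
        rw [h7]
        rw [e1] at hy2
        linarith
      have h9 : (A + 1) ^ 2 * y ≤ A ^ 2 * x := by
        calc (A + 1) ^ 2 * y ≤ (A + 1) ^ 2 * (x * (1 - 3 / A)) :=
              mul_le_mul_of_nonneg_left h6 (by positivity)
          _ = ((A + 1) ^ 2 * (1 - 3 / A)) * x := by ring
          _ ≤ A ^ 2 * x := by
              apply mul_le_mul_of_nonneg_right _ hx0
              have e3 : (A + 1) ^ 2 * (1 - 3 / A) = A ^ 2 - A - 5 - 3 / A := by
                field_simp; ring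
              rw [e3]
              have : 0 ≤ 3 / A := by positivity
              linarith
      have h10 : (A + 1) * √(y : ℝ) = √((A + 1) ^ 2 * y) := by
        rw [Real.sqrt_mul (by positivity), Real.sqrt_sq (by positivity)]
      have h11 : A * √(x : ℝ) = √(A ^ 2 * x) := by
        rw [Real.sqrt_mul (by positivity), Real.sqrt_sq (by positivity)]
      rw [h10, h11]
      exact Real.sqrt_le_sqrt h9
    calc |∑ n ∈ Finset.Icc 1 x, c n| ≤ |∑ n ∈ Finset.Icc 1 y, c n| + √(y : ℝ) := htri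
      _ ≤ (2 * X + 2 * (ψ + 1) + A * √(y : ℝ)) + √(y : ℝ) := by linarith
      _ = 2 * X + 2 * (ψ + 1) + (A + 1) * √(y : ℝ) := by ring
      _ ≤ _ := by linarith

theorem pow_le_self {z a : ℝ} (hz : 1 ≤ z) (ha : a ≤ 1) : z ^ a ≤ z := by
  have := Real.rpow_le_rpow_of_exponent_le hz ha
  rwa [Real.rpow_one] at this

/-- growth bound from small sums in short intervals -/
theorem HS.growth {c : ℕ → ℝ} (hc : ∀ n, |c n| ≤ 1) {Ψ : ℕ → ℝ} {δ : ℝ} (hδ : 0 ≤ δ)
    {X : ℕ} (hX : 27 ≤ X) (hΨ : ∀ n : ℕ, X ≤ n → Ψ n ≤ Real.log (Real.log n)) (h : HS c Ψ δ X) :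
    GB (ff c) (2 * X + 16) := by
  intro u
  have hX0 : (0:ℝ) ≤ X := Nat.cast_nonneg X
  rcases lt_or_ge u 0 with hu | hu
  · rw [ff_neg hu, abs_zero]
    have := ell_nonneg u
    positivity
  set ψ := ell u with hψ
  have hψ1 : 1 ≤ ψ := one_le_ell u
  have hexp : 1 ≤ Real.exp u := Real.one_le_exp hu
  set N : ℕ := ⌊Real.exp u⌋₊ with hN
  have hNle : (N : ℝ) ≤ Real.exp u := Nat.floor_le (Real.exp_pos u).le
  have hst := grow_step hc hψ1 (X := X) (N := N) (by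
    intro x hh hXx hxN hh1 hhx
    have hx27 : 27 ≤ x := hX.trans hXx
    obtain ⟨hl1, hl3⟩ := llog_ge hx27
    have hxR : (27:ℝ) ≤ x := by exact_mod_cast hx27
    have h1 : Real.log x ≤ u := by
      rw [Real.log_le_iff_le_exp (by linarith)]
      have : (x : ℝ) ≤ N := by exact_mod_cast hxN
      linarith
    have h2 : Real.log (Real.log x) ≤ ψ := by
      have h3 : Real.log (Real.log x) ≤ Real.log (1 + |u|) := by
        apply Real.log_le_log (by linarith)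
        rw [abs_of_nonneg hu]
        linarith
      rw [hψ]
      unfold ell
      linarith
    have h3 : Ψ x ≤ ψ := (hΨ x hXx).trans h2
    have h5 := h x hh hXx hh1 (by
      rw [le_div_iff₀ (by linarith)] at hhx
      exact (mul_le_mul_of_nonneg_left h3 (Nat.cast_nonneg hh)).trans hhx)
    refine h5.trans ?_
    have : 0 ≤ √(x : ℝ) := Real.sqrt_nonneg _
    nlinarith) N le_rfl
  unfold ff Asum
  rw [abs_mul, abs_of_pos (Real.exp_pos _), ← hN]
  have hsq : √(N : ℝ) ≤ Real.exp (u / 2) := by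
    have : Real.exp (u / 2) = √(Real.exp u) := by
      rw [show Real.exp u = Real.exp (u / 2) ^ 2 by rw [← Real.exp_nat_mul]; congr 1; push_cast; ring]
      exact (Real.sqrt_sq (Real.exp_pos _).le).symm
    rw [this]
    exact Real.sqrt_le_sqrt hNle
  have he1 : Real.exp (-(u / 2)) ≤ 1 := Real.exp_le_one_iff.2 (by linarith)
  have he2 : Real.exp (u / 2) * Real.exp (-(u / 2)) = 1 := by rw [← Real.exp_add]; simp
  have he3 := Real.exp_pos (-(u / 2))
  calc |∑ n ∈ Finset.Icc 1 N, c n| * Real.exp (-(u / 2))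
      ≤ (2 * X + 2 * (ψ + 1) + 6 * (ψ + 1) * √(N : ℝ)) * Real.exp (-(u / 2)) :=
        mul_le_mul_of_nonneg_right hst he3.le
    _ ≤ (2 * X + 2 * (ψ + 1) + 6 * (ψ + 1) * Real.exp (u / 2)) * Real.exp (-(u / 2)) := by
        gcongr
    _ = (2 * X + 2 * (ψ + 1)) * Real.exp (-(u / 2)) + 6 * (ψ + 1) * (Real.exp (u / 2) * Real.exp (-(u / 2))) := by
        ring
    _ ≤ (2 * X + 2 * (ψ + 1)) * 1 + 6 * (ψ + 1) * 1 := by
        rw [he2]
        gcongr
    _ ≤ (2 * X + 16) * ψ := by nlinarith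

/-- the increments of the summatory function -/
theorem HS.incr {c : ℕ → ℝ} {Ψ : ℕ → ℝ} {δ : ℝ} (hδ : δ ≤ 1)
    {X : ℕ} (h : HS c Ψ δ X) {ψ V η : ℝ} (hψ1 : 1 ≤ ψ)
    (hψ : ∀ n : ℕ, X ≤ n → Real.exp (V - 1) - 1 ≤ n → (n : ℝ) ≤ Real.exp V → Ψ n ≤ ψ)
    (hV1 : 2 * (ψ + 1) ≤ V) (hV2 : (X : ℝ) + 1 ≤ V) (hη : 0 ≤ η) (hη1 : 16 * η * ψ ≤ 1) :
    ∀ s ∈ Set.Icc (-η) 0, ∀ t ∈ Set.Icc 0 η,
      Asum c (Real.exp (V - s)) - Asum c (Real.exp (V - t)) ≤ (1 - δ) * Real.exp (V / 2) := by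
  intro s hs t ht
  have hη2 : 16 * η ≤ 1 := by nlinarith
  set xm := Real.exp (V - t) with hxm
  set xp := Real.exp (V - s) with hxp
  have hle : xm ≤ xp := Real.exp_le_exp.2 (by linarith [hs.2, ht.1])
  have hxmV : xm ≤ Real.exp V := Real.exp_le_exp.2 (by linarith [ht.1])
  have hxmV' : Real.exp (V - 1) ≤ xm := Real.exp_le_exp.2 (by linarith [ht.2])
  have hxm1 : V ≤ xm := by
    have h1 := Real.add_one_le_exp (V - t)
    linarith [ht.2]
  have hxp1 : xp ≤ xm + 4 * η * xm := by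
    have h1 : xp = xm * Real.exp (t - s) := by rw [hxp, hxm, ← Real.exp_add]; congr 1; ring
    have h2 : Real.exp (t - s) ≤ Real.exp (2 * η) := Real.exp_le_exp.2 (by linarith [hs.1, ht.2])
    have h3 : Real.exp (2 * η) ≤ 1 + 4 * η := by
      have h4 := Real.abs_exp_sub_one_sub_id_le (x := 2 * η) (by rw [abs_of_nonneg (by linarith)]; linarith)
      have h5 := (abs_le.1 h4).2
      nlinarith
    rw [h1]
    nlinarith [Real.exp_pos (V - t)]
  have hxm0 : 0 < xm := Real.exp_pos _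
  set nm : ℕ := ⌊xm⌋₊ with hnm
  set np : ℕ := ⌊xp⌋₊ with hnp
  have hnn : nm ≤ np := Nat.floor_le_floor hle
  have hnm1 : (nm : ℝ) ≤ xm := Nat.floor_le hxm0.le
  have hnm2 : xm - 1 < nm := by
    have := Nat.lt_floor_add_one xm
    linarith
  have hnp1 : (np : ℝ) ≤ xp := Nat.floor_le (Real.exp_pos _).le
  have hdiff : Asum c xp - Asum c xm = ∑ n ∈ Finset.Ioc nm np, c n := by
    unfold Asum
    exact sum_Icc_sub c hnn
  rw [hdiff]
  have h1δ : 0 ≤ 1 - δ := by linarith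
  rcases Nat.eq_or_lt_of_le hnn with heq | hlt
  · rw [heq, Finset.Ioc_self, Finset.sum_empty]
    exact mul_nonneg h1δ (Real.exp_pos _).le
  have hXn : X ≤ nm := by
    have : (X : ℝ) ≤ nm := by linarith
    exact_mod_cast this
  have hΨn := hψ nm hXn (by linarith) (by linarith)
  have hcast : ((np - nm : ℕ) : ℝ) = np - nm := by rw [Nat.cast_sub hnn]
  have hcond : ((np - nm : ℕ) : ℝ) * Ψ nm ≤ (nm : ℝ) := by
    have h0 : (0:ℝ) ≤ np - nm := by
      have : (nm : ℝ) ≤ np := by exact_mod_cast hnn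
      linarith
    rw [hcast]
    have h3 : (np : ℝ) - nm ≤ 4 * η * xm + 1 := by linarith
    have h4 : ((np : ℝ) - nm) * ψ ≤ (4 * η * xm + 1) * ψ :=
      mul_le_mul_of_nonneg_right h3 (by linarith)
    have h4' : ((np : ℝ) - nm) * Ψ nm ≤ ((np : ℝ) - nm) * ψ := mul_le_mul_of_nonneg_left hΨn h0
    have h5 : (4 * η * xm + 1) * ψ = (16 * η * ψ) * (xm / 4) + ψ := by ring
    have h6 : (16 * η * ψ) * (xm / 4) ≤ 1 * (xm / 4) := mul_le_mul_of_nonneg_right hη1 (by linarith)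
    linarith
  have hfin := h nm (np - nm) hXn (by omega) hcond
  rw [show nm + (np - nm) = np by omega] at hfin
  have hsq : √(nm : ℝ) ≤ Real.exp (V / 2) := by
    have : Real.exp (V / 2) = √(Real.exp V) := by
      rw [show Real.exp V = Real.exp (V / 2) ^ 2 by rw [← Real.exp_nat_mul]; congr 1; push_cast; ring]
      exact (Real.sqrt_sq (Real.exp_pos _).le).symm
    rw [this]
    exact Real.sqrt_le_sqrt (hnm1.trans hxmV)
  calc ∑ n ∈ Finset.Ioc nm np, c n ≤ |∑ n ∈ Finset.Ioc nm np, c n| := le_abs_self _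
    _ ≤ (1 - δ) * √(nm : ℝ) := hfin
    _ ≤ _ := mul_le_mul_of_nonneg_left hsq h1δ

end Pool.Agent.Helper99.MS
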