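import Mathlib

/-!
# Recurrence of exponential polynomials without any separation of the frequencies
-/

namespace Pool.Agent.Helper99.MS

open Finset MeasureTheory Set Filter Topology

/-- volume pigeonhole in a finite-dimensional space -/
theorem vol_pigeon {V : Type*} [NormedAddCommGroup V] [NormedSpace ℝ V] [FiniteDimensional ℝ V]
    [MeasurableSpace V] [BorelSpace V] (J : ℕ) (p : ℕ → V) {S ε : ℝ} (hS : 0 ≤ S) (hε : 0 < ε)
    (hp : ∀ j ≤ J, ‖p j‖ ≤ S) (hc : (1 + 2 * S / ε) ^ (Module.finrank ℝ V) < J + 1) :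
    ∃ i j : ℕ, i < j ∧ j ≤ J ∧ ‖p i - p j‖ < ε := by
  by_contra hcon
  push Not at hcon
  set n := Module.finrank ℝ V with hn
  let μ : Measure V := Measure.addHaar
  have hdisj : (↑(Finset.range (J + 1)) : Set ℕ).PairwiseDisjoint (fun j => Metric.ball (p j) (ε / 2)) := by
    intro i hi j hj hij
    have hi' : i ≤ J := by
      have := Finset.mem_range.1 (Finset.mem_coe.1 hi); omega
    have hj' : j ≤ J := by
      have := Finset.mem_range.1 (Finset.mem_coe.1 hj); omega
    apply Metric.ball_disjoint_ball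
    rw [add_halves]
    rcases lt_or_gt_of_ne hij with h | h
    · rw [dist_eq_norm]; exact hcon i j h hj'
    · rw [dist_comm, dist_eq_norm]; exact hcon j i h hi'
  have hsub : (⋃ j ∈ Finset.range (J + 1), Metric.ball (p j) (ε / 2)) ⊆ Metric.ball (0 : V) (S + ε / 2) := by
    intro x hx
    simp only [Set.mem_iUnion] at hx
    obtain ⟨j, hj, hxj⟩ := hx
    have hj' : j ≤ J := by
      have := Finset.mem_range.1 hj; omega
    rw [Metric.mem_ball, dist_eq_norm] at hxj ⊢
    rw [sub_zero]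
    calc ‖x‖ = ‖(x - p j) + p j‖ := by rw [sub_add_cancel]
      _ ≤ ‖x - p j‖ + ‖p j‖ := norm_add_le _ _
      _ < _ := by linarith [hp j hj']
  have hmeas := measure_mono (μ := μ) hsub
  rw [measure_biUnion_finset hdisj (fun j _ => measurableSet_ball)] at hmeas
  have hb : ∀ j ∈ Finset.range (J + 1), μ (Metric.ball (p j) (ε / 2)) =
      ENNReal.ofReal ((ε / 2) ^ n) * μ (Metric.ball 0 1) := fun j _ =>
    Measure.addHaar_ball_of_pos μ (p j) (by positivity)
  rw [Finset.sum_congr rfl hb, Finset.sum_const, Finset.card_range,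
    Measure.addHaar_ball_of_pos μ (0 : V) (show 0 < S + ε / 2 by positivity)] at hmeas
  have hpos : μ (Metric.ball (0 : V) 1) ≠ 0 := (Metric.measure_ball_pos μ 0 one_pos).ne'
  have hfin : μ (Metric.ball (0 : V) 1) ≠ ⊤ := measure_ball_lt_top.ne
  rw [nsmul_eq_mul, ← mul_assoc] at hmeas
  rw [ENNReal.mul_le_mul_iff_left hpos hfin] at hmeas
  have h1 : ((J + 1 : ℕ) : ENNReal) * ENNReal.ofReal ((ε / 2) ^ n) =
      ENNReal.ofReal (((J + 1 : ℕ) : ℝ) * (ε / 2) ^ n) := by
    rw [ENNReal.ofReal_mul (by positivity), ENNReal.ofReal_natCast]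
  rw [h1, ← hn, ENNReal.ofReal_le_ofReal_iff (by positivity)] at hmeas
  have h2 : (S + ε / 2) ^ n = (1 + 2 * S / ε) ^ n * (ε / 2) ^ n := by
    rw [← mul_pow]
    congr 1
    field_simp
    ring
  rw [h2] at hmeas
  have h3 : ((J + 1 : ℕ) : ℝ) ≤ (1 + 2 * S / ε) ^ n := le_of_mul_le_mul_right hmeas (by positivity)
  push_cast at h3
  linarith

/-- Recurrence: an exponential polynomial with `N` frequencies that is bounded by `S` on
`[-2R,2R]` returns close to its value at the origin at some multiple `kτ₀ ≤ R`. -/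
theorem pigeon (Γ : Finset ℝ) (b : ℝ → ℂ) (P : ℝ → ℂ)
    (hPdef : ∀ v, P v = ∑ γ ∈ Γ, b γ * Complex.exp (γ * v * Complex.I))
    {R S ε τ₀ : ℝ} (J : ℕ) (hS : 0 ≤ S) (hε : 0 < ε) (hτ : 0 ≤ τ₀)
    (hJ : J * τ₀ ≤ R) (hP : ∀ v, |v| ≤ 2 * R → ‖P v‖ ≤ S)
    (hc : (1 + 2 * S / ε) ^ (2 * Γ.card) < J + 1) :
    ∃ k : ℕ, 1 ≤ k ∧ k ≤ J ∧ ‖P (k * τ₀) - P 0‖ < ε := by
  classical
  have hR : 0 ≤ R := le_trans (by positivity) hJ
  let X := Set.Icc (-R) R
  let e : ℝ → C(X, ℂ) := fun γ => ⟨fun v => Complex.exp (γ * (v : ℝ) * Complex.I), by fun_prop⟩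
  let V : Submodule ℂ C(X, ℂ) := Submodule.span ℂ (↑(Γ.image e) : Set C(X, ℂ))
  have hfd : FiniteDimensional ℂ V := FiniteDimensional.span_finset ℂ _
  have hfr : Module.finrank ℂ V ≤ Γ.card := by
    refine (finrank_span_finset_le_card (R := ℂ) (Γ.image e)).trans ?_
    exact Finset.card_image_le
  have : FiniteDimensional ℝ V := FiniteDimensional.complexToReal V
  have hfr2 : Module.finrank ℝ V ≤ 2 * Γ.card := by
    have hfree : Module.Free ℂ V := Module.Free.of_divisionRing ℂ V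
    have h2 := Module.finrank_mul_finrank ℝ ℂ V
    rw [Complex.finrank_real_complex] at h2
    omega
  let _ : MeasurableSpace V := borel V
  have : BorelSpace V := ⟨rfl⟩
  let q : ℕ → C(X, ℂ) := fun j => ∑ γ ∈ Γ, (b γ * Complex.exp (γ * ((j * τ₀ : ℝ) : ℂ) * Complex.I)) • e γ
  have hqmem : ∀ j, q j ∈ V := by
    intro j
    apply Submodule.sum_mem
    intro γ hγ
    apply Submodule.smul_mem
    apply Submodule.subset_span
    exact Finset.mem_coe.2 (Finset.mem_image_of_mem e hγ)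
  have hqval : ∀ (j : ℕ) (v : X), q j v = P ((v : ℝ) + j * τ₀) := by
    intro j v
    rw [hPdef]
    simp only [q, ContinuousMap.coe_sum, Finset.sum_apply, ContinuousMap.coe_smul, Pi.smul_apply,
      smul_eq_mul]
    apply Finset.sum_congr rfl
    intro γ _
    simp only [e, ContinuousMap.coe_mk]
    rw [mul_assoc, ← Complex.exp_add]
    congr 2
    push_cast
    ring
  have hjR : ∀ j ≤ J, (j : ℝ) * τ₀ ≤ R := by
    intro j hj
    refine le_trans ?_ hJ
    apply mul_le_mul_of_nonneg_right _ hτ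
    exact_mod_cast hj
  have hqn : ∀ j ≤ J, ‖(⟨q j, hqmem j⟩ : V)‖ ≤ S := by
    intro j hj
    rw [Submodule.coe_norm]
    simp only
    rw [ContinuousMap.norm_le _ hS]
    intro v
    rw [hqval]
    apply hP
    have h1 := v.2.1
    have h2 := v.2.2
    have h3 := hjR j hj
    have h4 : 0 ≤ (j : ℝ) * τ₀ := by positivity
    rw [abs_le]
    constructor <;> linarith
  obtain ⟨i, j, hij, hjJ, hlt⟩ := vol_pigeon (V := V) J (fun j => ⟨q j, hqmem j⟩) hS hε hqn (by
    refine lt_of_le_of_lt ?_ hc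
    apply pow_le_pow_right₀ _ hfr2
    have : 0 ≤ 2 * S / ε := by positivity
    linarith)
  have hlt' : ‖q i - q j‖ < ε := by
    have : ‖((⟨q i, hqmem i⟩ : V) - ⟨q j, hqmem j⟩ : V)‖ = ‖q i - q j‖ := by
      rw [Submodule.coe_norm]
      rfl
    rw [← this]
    exact hlt
  refine ⟨j - i, by omega, by omega, ?_⟩
  have hi0 : -((i : ℝ) * τ₀) ∈ X := by
    have h3 := hjR i (by omega)
    have h4 : 0 ≤ (i : ℝ) * τ₀ := by positivity
    exact ⟨by linarith, by linarith⟩
  have h5 := ContinuousMap.norm_coe_le_norm (q i - q j) ⟨_, hi0⟩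
  rw [ContinuousMap.sub_apply, hqval, hqval] at h5
  simp only at h5
  have h6 : -((i : ℝ) * τ₀) + i * τ₀ = 0 := by ring
  have h7 : -((i : ℝ) * τ₀) + j * τ₀ = ((j - i : ℕ) : ℝ) * τ₀ := by
    rw [Nat.cast_sub hij.le]; ring
  rw [h6, h7] at h5
  rw [norm_sub_rev]
  exact lt_of_le_of_lt h5 hlt'

end Pool.Agent.Helper99.MS
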