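import Pool.Agent.Helper99.MS.Est2
import Pool.Agent.Helper99.MS.Grow
import Pool.Agent.Helper99.MS.Pigeon

/-!
# The contradiction, with explicit parameters
-/

namespace Pool.Agent.Helper99.MS

open Finset MeasureTheory Set Filter Topology

noncomputable def CS : ℝ := ∫ v : ℝ, ell v * (1 + v ^ 2)⁻¹

theorem CS_nonneg : 0 ≤ CS := by
  unfold CS
  apply integral_nonneg
  intro v
  have := ell_nonneg v
  positivity

theorem ell_KL_tot {L : ℝ} (hL : 1 ≤ L) : ∫ v, ell v * KL L v ≤ 16 * L * CS := by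
  have hL0 : 0 < L := by linarith
  unfold CS
  rw [← integral_const_mul]
  apply integral_mono (ell_KL_int hL0) (ell_sq_int.const_mul _)
  intro v
  have h1 := KL_le hL0 v
  have h2 : 1 / L ≤ L := by
    rw [div_le_iff₀ hL0]; nlinarith
  have h3 : (0:ℝ) < (1 + v ^ 2)⁻¹ := by positivity
  have hl := ell_nonneg v
  simp only
  calc ell v * KL L v ≤ ell v * (8 * (L + 1 / L) * (1 + v ^ 2)⁻¹) := mul_le_mul_of_nonneg_left h1 hl
    _ ≤ ell v * (8 * (L + L) * (1 + v ^ 2)⁻¹) := by gcongr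
    _ = _ := by ring

theorem ell_le_Y {Y V : ℝ} (hY : 0 ≤ Y) (hV : |V| ≤ 2 * Real.exp Y) : ell V ≤ Y + 3 := by
  unfold ell
  have h1 : 1 ≤ Real.exp Y := Real.one_le_exp hY
  have h2 : 1 + |V| ≤ 3 * Real.exp Y := by linarith
  have h0 : 0 < 1 + |V| := by have := abs_nonneg V; linarith
  have h3 := Real.log_le_log h0 h2
  rw [Real.log_mul (by norm_num) (Real.exp_pos Y).ne', Real.log_exp] at h3
  have h4 : Real.log 3 ≤ 2 := by
    have := Real.log_le_sub_one_of_pos (show (0:ℝ) < 3 by norm_num)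
    linarith
  linarith

noncomputable def cC2 (B m : ℝ) : ℝ := B * (16 + 44 * m ^ (3/8 : ℝ) * CI)

noncomputable def e1 (B m θ : ℝ) : ℝ := θ + m * θ ^ 2 + Real.exp (-(m / 16)) +
  16 * B * Real.exp (-((m - 4) / 16)) + 228 * B * CE / √m

noncomputable def e2 (B m Y η : ℝ) : ℝ := 18 * B * (Y + 3) * Real.exp (-((m - 4) * η ^ 2 / 4)) +
  228 * B * CE / √m

theorem contra {Ψ : ℕ → ℝ} {δ : ℝ} (hδ : δ ≤ 1) {X : ℕ}
    (h : HS mr Ψ δ X) {B : ℝ} (hB : GB (ff mr) B) {k : ℕ} (hk : 2 ≤ k) {m : ℝ} (hm : m = ((4 * k : ℕ) : ℝ))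
    {L θ Y η τ ε ψ : ℝ} {J : ℕ} (hL : 1 ≤ L) (hθ0 : 0 < θ) (hθ : θ ≤ 1/10)
    (hθm : m * θ ^ 2 + Real.exp (-(m / 16)) ≤ 1) (hY : 1 ≤ Y) (hη : 0 ≤ η) (hψ1 : 1 ≤ ψ) (hη1 : 16 * η * ψ ≤ 1)
    (hψ : ∀ n : ℕ, X ≤ n → Real.exp (τ / 2 - 1) - 1 ≤ n → (n : ℝ) ≤ Real.exp (2 * Real.exp Y) → Ψ n ≤ ψ)
    (hτY : 2 * (ψ + 1) ≤ τ / 2) (hτX : (X : ℝ) + 1 ≤ τ / 2)
    (hJτ : J * τ ≤ Real.exp Y) (hε : 0 < ε)
    (hc : (1 + 2 * (cC2 B m * (Y + 3) * (16 * L * CS)) / ε) ^ (2 * (ZL L).card) < J + 1)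
    (hfin : 2 * Real.pi * (e1 B m θ + e2 B m Y η) + (B * (32 + 228 * CE) + 1) * (16 / (L * θ)) +
      cC2 B m * (96 / L) + ε + cC2 B m * (Y + 3) * (96 / (L * √(τ / 2))) ≤ 2 * Real.pi * δ) : False := by
  have hB0 := hB.nonneg
  have hCI := CI_nonneg
  have hCE := CE_nonneg
  have hCS := CS_nonneg
  have hL0 : 0 < L := by linarith
  have hkR : (2:ℝ) ≤ k := by exact_mod_cast hk
  have hm8 : (8:ℝ) ≤ m := by rw [hm]; push_cast; linarith
  have hm0 : 0 < m := by linarith
  have hτ0 : 0 < τ := by linarith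
  have hρ1 : 1 ≤ τ / 2 := by linarith
  have hC2 : 0 ≤ cC2 B m := by unfold cC2; positivity
  have hgc := gg_cont hB (by omega : 1 ≤ k)
  have hgb : ∀ v, ‖gg (4 * k) v‖ ≤ cC2 B m * ell v := by
    intro v
    have := gg_bd hB hk v
    unfold cC2
    rw [hm]
    exact this
  have hsm : 0 < √m := Real.sqrt_pos.2 hm0
  have hsm1 : 1 ≤ √m := Real.one_le_sqrt.2 (by linarith)
  set q : ℝ := 228 * B * CE / √m with hq
  have hq0 : 0 ≤ q := by positivity
  have hqle : q ≤ 228 * B * CE := div_le_self (by positivity) hsm1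
  have hg2 : ∀ v, -1 ≤ v → ‖cv (ff mr) (be (4 * k)) (-v)‖ ≤ q := by
    intro v hv
    have := g2_bd hB (by omega : 1 ≤ k) hv
    rw [hq, hm]
    exact this
  have hre : ∀ v, (gg (4 * k) v).re = g1 m v - (cv (ff mr) (be (4 * k)) (-v)).re := by
    intro v
    unfold gg
    rw [cv_al, Complex.sub_re, Complex.ofReal_re, ← hm]
  -- lower bound at zero
  have hlow := low_zero (g := gg (4 * k)) (C₁ := B * (32 + 228 * CE)) (C₂ := cC2 B m) (ε₁ := e1 B m θ)
    (L := L) (θ := θ) hgc hgb hC2 (by positivity) (by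
      intro v hv
      unfold gg
      refine (norm_sub_le _ _).trans ?_
      have h1 : ‖cv (ff mr) (alC (4 * k)) v‖ ≤ 32 * B := by
        have hi1 : Integrable (fun t => ell t * ‖alC (4 * k) t‖) := by
          have : (fun t => ell t * ‖alC (4 * k) t‖) = fun t => ell t * |al m t| := by
            ext t
            unfold alC
            rw [Complex.norm_real, Real.norm_eq_abs, ← hm]
          rw [this]
          exact ell_al_int hm8
        have h2 := cv_bd hB hi1 v
        have h3 : ∫ t, ell t * ‖alC (4 * k) t‖ ≤ 16 := by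
          have : (fun t => ell t * ‖alC (4 * k) t‖) = fun t => ell t * |al m t| := by
            ext t
            unfold alC
            rw [Complex.norm_real, Real.norm_eq_abs, ← hm]
          rw [this]
          exact ell_al_tot hm8
        have h4 : ell v ≤ 2 := by
          have := ell_le_linear v
          linarith
        refine h2.trans ?_
        calc B * ell v * ∫ t, ell t * ‖alC (4 * k) t‖ ≤ (B * 2) * 16 := by
              apply mul_le_mul _ h3 _ (by positivity)
              · exact mul_le_mul_of_nonneg_left h4 hB0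
              · apply integral_nonneg
                intro t
                exact mul_nonneg (ell_nonneg t) (norm_nonneg _)
          _ = 32 * B := by ring
      have h5 := hg2 v (by have := (abs_le.1 hv).1; linarith)
      calc _ ≤ 32 * B + q := add_le_add h1 h5
        _ ≤ 32 * B + 228 * B * CE := by linarith
        _ = _ := by ring) hθ0 (by unfold e1; positivity) (by
      intro v hv
      rw [hre]
      have h1 := g1_low hB hm8 hθ hθm hv
      have h2 := hg2 v (by have := (abs_le.1 hv).1; linarith)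
      have h3 := (abs_le.1 ((Complex.abs_re_le_norm _).trans h2)).2
      have h4 : e1 B m θ = θ + m * θ ^ 2 + Real.exp (-(m / 16)) + 16 * B * Real.exp (-((m - 4) / 16)) + q := by
        unfold e1; rw [hq]
      linarith) hL0
  -- the trigonometric polynomial
  obtain ⟨b, hb⟩ := gg_repr hB hk hL0
  set P : ℝ → ℂ := fun u => ∫ v, gg (4 * k) (v + u) * (KL L v : ℂ) with hP
  have hPsup : ∀ u, |u| ≤ 2 * Real.exp Y → ‖P u‖ ≤ cC2 B m * (Y + 3) * (16 * L * CS) := by
    intro u hu
    have h1 := sup_P hgb hC2 hL0 u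
    refine h1.trans ?_
    have h2 := ell_le_Y (by linarith) hu
    apply mul_le_mul (mul_le_mul_of_nonneg_left h2 hC2) (ell_KL_tot hL) _ (by positivity)
    apply integral_nonneg
    intro v
    exact mul_nonneg (ell_nonneg v) (KL_nonneg hL0 v)
  obtain ⟨n, hn1, hnJ, hclose⟩ := pigeon (ZL L) b P hb J (R := Real.exp Y)
    (S := cC2 B m * (Y + 3) * (16 * L * CS)) (ε := ε) (τ₀ := τ) (by positivity) hε hτ0.le hJτ hPsup hc
  -- upper bound at the far point
  have hnR : (n : ℝ) * τ ≤ Real.exp Y := by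
    refine le_trans ?_ hJτ
    apply mul_le_mul_of_nonneg_right _ hτ0.le
    exact_mod_cast hnJ
  have hn1' : (1:ℝ) ≤ n := by exact_mod_cast hn1
  have hnτ : τ ≤ n * τ := by nlinarith
  set c : ℝ := (1 - δ) + e2 B m Y η with hcdef
  have he2 : 0 ≤ e2 B m Y η := by unfold e2; positivity
  have hc0 : 0 ≤ c := by rw [hcdef]; linarith
  have hup := up_far (g := gg (4 * k)) (C₂ := cC2 B m) (L := L) hgc hgb hC2 (u := n * τ) (ρ := τ / 2) (c := c)
    hρ1 hc0 (by
      intro v hv
      have hv' := abs_le.1 hv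
      set V := v + n * τ with hV
      have hV1 : τ / 2 ≤ V := by rw [hV]; linarith [hv'.1]
      have hV2 : V ≤ 2 * Real.exp Y := by rw [hV]; linarith [hv'.2]
      have hV0 : 0 ≤ V := by linarith
      rw [hre]
      have h1 := hg2 V (by linarith)
      have h2 := (abs_le.1 ((Complex.abs_re_le_norm _).trans h1)).1
      have hη2 : η ≤ 1 := by nlinarith
      have h5 := g1_up hB hm8 (v := V) (D := (1 - δ) * Real.exp (V / 2)) hη hη2
        (h.incr hδ (ψ := ψ) hψ1 (by
          intro n hn1 hn2 hn3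
          apply hψ n hn1
          · have : Real.exp (τ / 2 - 1) ≤ Real.exp (V - 1) := Real.exp_le_exp.2 (by linarith)
            linarith
          · exact hn3.trans (Real.exp_le_exp.2 hV2)) (by linarith) (by linarith) hη hη1)
      have h6 : Real.exp (-(V / 2)) * ((1 - δ) * Real.exp (V / 2)) = 1 - δ := by
        have : Real.exp (-(V / 2)) * Real.exp (V / 2) = 1 := by rw [← Real.exp_add]; simp
        calc _ = (1 - δ) * (Real.exp (-(V / 2)) * Real.exp (V / 2)) := by ring
          _ = _ := by rw [this, mul_one]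
      rw [h6] at h5
      have h7 := ell_le_Y (Y := Y) (V := V) (by linarith) (by rw [abs_of_nonneg hV0]; exact hV2)
      have h8 : 18 * B * ell V * Real.exp (-((m - 4) * η ^ 2 / 4)) ≤
          18 * B * (Y + 3) * Real.exp (-((m - 4) * η ^ 2 / 4)) := by gcongr
      have h9 : e2 B m Y η = 18 * B * (Y + 3) * Real.exp (-((m - 4) * η ^ 2 / 4)) + q := by
        unfold e2; rw [hq]
      rw [hcdef, h9]
      linarith) hL0
  have hell : ell (n * τ) ≤ Y + 3 := by
    apply ell_le_Y (by linarith)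
    rw [abs_of_nonneg (by positivity)]
    have := Real.exp_pos Y
    linarith
  have hup2 : cC2 B m * ell (n * τ) * (96 / (L * √(τ / 2))) ≤ cC2 B m * (Y + 3) * (96 / (L * √(τ / 2))) := by
    have : 0 ≤ 96 / (L * √(τ / 2)) := by positivity
    gcongr
  have hdiff : |(P (n * τ)).re - (P 0).re| < ε := by
    have := (Complex.abs_re_le_norm (P (n * τ) - P 0)).trans_lt hclose
    rwa [Complex.sub_re] at this
  have h10 := (abs_lt.1 hdiff).1
  have h11 : (P 0).re = (∫ v, gg (4 * k) (v + 0) * (KL L v : ℂ)).re := rfl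
  have h12 : (P (n * τ)).re = (∫ v, gg (4 * k) (v + n * τ) * (KL L v : ℂ)).re := rfl
  have h13 : 2 * Real.pi * c = 2 * Real.pi * (1 - δ) + 2 * Real.pi * e2 B m Y η := by rw [hcdef]; ring
  have h14 : 2 * Real.pi * (1 - e1 B m θ) = 2 * Real.pi - 2 * Real.pi * e1 B m θ := by ring
  have h15 : 2 * Real.pi * (1 - δ) = 2 * Real.pi - 2 * Real.pi * δ := by ring
  have h16 : 2 * Real.pi * (e1 B m θ + e2 B m Y η) = 2 * Real.pi * e1 B m θ + 2 * Real.pi * e2 B m Y η := by
    ring
  linarith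

end Pool.Agent.Helper99.MS
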