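import Pool.Agent.Helper99.MS.Lap

/-!
# Convolutions of a slowly growing function with a decaying kernel
-/

namespace Pool.Agent.Helper99.MS

open Finset MeasureTheory Set Filter Topology

noncomputable def cv (F : ℝ → ℝ) (K : ℝ → ℂ) (v : ℝ) : ℂ := ∫ u : ℝ, (F u : ℂ) * K (v - u)

def KD (K : ℝ → ℂ) (D : ℝ) : Prop := Continuous K ∧ ∀ t, ‖K t‖ ≤ D * Real.exp (-(1/2) * |t|)

theorem KD.nonneg {K : ℝ → ℂ} {D : ℝ} (h : KD K D) : 0 ≤ D := by
  have := h.2 0
  simp at this
  exact (norm_nonneg _).trans this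

noncomputable def CE : ℝ := ∫ v : ℝ, ell v * Real.exp (-(1/2) * |v|)

theorem CE_nonneg : 0 ≤ CE := by
  unfold CE
  apply integral_nonneg
  intro v
  exact mul_nonneg (ell_nonneg v) (Real.exp_pos _).le

section
variable {F : ℝ → ℝ} {B : ℝ} {K : ℝ → ℂ} {D : ℝ}

theorem cv_bound (h : GB F B) (hK : KD K D) {r v : ℝ} (hr : |v| ≤ r) (u : ℝ) :
    ‖(F u : ℂ) * K (v - u)‖ ≤ (B * D * Real.exp (r / 2)) * (ell u * Real.exp (-(1/2) * |u|)) := by
  rw [norm_mul, Complex.norm_real, Real.norm_eq_abs]
  have hB := h.nonneg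
  have hD := hK.nonneg
  have h1 : Real.exp (-(1/2) * |v - u|) ≤ Real.exp (r / 2) * Real.exp (-(1/2) * |u|) := by
    rw [← Real.exp_add]
    apply Real.exp_le_exp.2
    have : |u| ≤ |v - u| + |v| := by
      have := abs_sub_abs_le_abs_sub u v
      rw [abs_sub_comm u v] at this
      linarith
    linarith
  calc |F u| * ‖K (v - u)‖ ≤ (B * ell u) * (D * Real.exp (-(1/2) * |v - u|)) := by
        apply mul_le_mul (h u) (hK.2 _) (norm_nonneg _)
        exact mul_nonneg hB (ell_nonneg u)
    _ ≤ (B * ell u) * (D * (Real.exp (r / 2) * Real.exp (-(1/2) * |u|))) := by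
        apply mul_le_mul_of_nonneg_left _ (mul_nonneg hB (ell_nonneg u))
        exact mul_le_mul_of_nonneg_left h1 hD
    _ = _ := by ring

theorem cv_meas (hm : Measurable F) (hK : KD K D) (v : ℝ) :
    AEStronglyMeasurable (fun u => (F u : ℂ) * K (v - u)) volume := by
  apply AEStronglyMeasurable.mul
  · exact (Complex.measurable_ofReal.comp hm).aestronglyMeasurable
  · exact (hK.1.comp (by fun_prop : Continuous (fun u : ℝ => v - u))).aestronglyMeasurable

theorem cv_int (hm : Measurable F) (h : GB F B) (hK : KD K D) (v : ℝ) :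
    Integrable (fun u => (F u : ℂ) * K (v - u)) := by
  refine Integrable.mono' ((ell_exp_int (show (0:ℝ) < 1/2 by norm_num)).const_mul
    (B * D * Real.exp (|v| / 2))) (cv_meas hm hK v) ?_
  apply Filter.Eventually.of_forall
  intro u
  exact cv_bound h hK le_rfl u

theorem cv_cont (hm : Measurable F) (h : GB F B) (hK : KD K D) : Continuous (cv F K) := by
  rw [continuous_iff_continuousAt]
  intro v₀
  unfold cv
  apply continuousAt_of_dominated (bound := fun u => (B * D * Real.exp ((|v₀| + 1) / 2)) *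
    (ell u * Real.exp (-(1/2) * |u|)))
  · apply Filter.Eventually.of_forall
    intro v
    exact cv_meas hm hK v
  · have : ∀ᶠ v in 𝓝 v₀, |v| < |v₀| + 1 := by
      apply ContinuousAt.eventually_lt continuous_abs.continuousAt continuousAt_const
      simp
    filter_upwards [this] with v hv
    apply Filter.Eventually.of_forall
    intro u
    exact cv_bound h hK hv.le u
  · exact (ell_exp_int (show (0:ℝ) < 1/2 by norm_num)).const_mul _
  · apply Filter.Eventually.of_forall
    intro u
    apply ContinuousAt.mul continuousAt_const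
    exact (hK.1.comp (by fun_prop : Continuous (fun v : ℝ => v - u))).continuousAt

theorem cv_comm (v : ℝ) : cv F K v = ∫ t : ℝ, (F (v - t) : ℂ) * K t := by
  unfold cv
  rw [← integral_sub_left_eq_self _ _ v]
  congr 1
  ext t
  rw [sub_sub_cancel]

/-- growth of the convolution -/
theorem cv_bd (h : GB F B) (hKi : Integrable (fun t => ell t * ‖K t‖)) (v : ℝ) :
    ‖cv F K v‖ ≤ B * ell v * ∫ t, ell t * ‖K t‖ := by
  rw [cv_comm, ← integral_const_mul]
  refine norm_integral_le_of_norm_le (hKi.const_mul _) ?_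
  apply Filter.Eventually.of_forall
  intro t
  rw [norm_mul, Complex.norm_real, Real.norm_eq_abs]
  have h1 : ell (v - t) ≤ ell v * ell t := by
    have := ell_add v (-t)
    rw [ell_neg] at this
    exact this
  calc |F (v - t)| * ‖K t‖ ≤ (B * ell (v - t)) * ‖K t‖ :=
        mul_le_mul_of_nonneg_right (h _) (norm_nonneg _)
    _ ≤ (B * (ell v * ell t)) * ‖K t‖ := by
        apply mul_le_mul_of_nonneg_right _ (norm_nonneg _)
        exact mul_le_mul_of_nonneg_left h1 h.nonneg
    _ = _ := by ring

/-- decay on the left -/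
theorem cv_neg (h : GB F B) (h0 : ∀ u < 0, F u = 0) (hK : KD K D) {v : ℝ} (hv : v ≤ 0) :
    ‖cv F K v‖ ≤ (B * D * CE) * Real.exp (v / 2) := by
  unfold cv CE
  rw [show (B * D * ∫ v : ℝ, ell v * Real.exp (-(1/2) * |v|)) * Real.exp (v / 2) =
    (B * D * Real.exp (v / 2)) * ∫ v : ℝ, ell v * Real.exp (-(1/2) * |v|) by ring, ← integral_const_mul]
  refine norm_integral_le_of_norm_le ((ell_exp_int (show (0:ℝ) < 1/2 by norm_num)).const_mul _) ?_
  apply Filter.Eventually.of_forall
  intro u
  have hB := h.nonneg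
  have hD := hK.nonneg
  rcases lt_or_ge u 0 with hu | hu
  · rw [h0 u hu]
    simp only [Complex.ofReal_zero, zero_mul, norm_zero]
    have := ell_nonneg u
    positivity
  · rw [norm_mul, Complex.norm_real, Real.norm_eq_abs]
    have h1 : Real.exp (-(1/2) * |v - u|) = Real.exp (v / 2) * Real.exp (-(1/2) * |u|) := by
      rw [← Real.exp_add, abs_of_nonpos (by linarith : v - u ≤ 0), abs_of_nonneg hu]
      congr 1
      ring
    calc |F u| * ‖K (v - u)‖ ≤ (B * ell u) * (D * Real.exp (-(1/2) * |v - u|)) := by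
          apply mul_le_mul (h u) (hK.2 _) (norm_nonneg _)
          exact mul_nonneg hB (ell_nonneg u)
      _ = _ := by rw [h1]; ring

theorem KD_tr_int (hK : KD K D) {s : ℂ} (hs : |s.re| < 1/2) :
    Integrable (fun t : ℝ => K t * Complex.exp (-(s * t))) := by
  have hc : 0 < 1/2 - |s.re| := by linarith
  refine Integrable.mono' ((ell_exp_int hc).const_mul D) ?_ ?_
  · exact (hK.1.mul (by fun_prop)).aestronglyMeasurable
  · apply Filter.Eventually.of_forall
    intro t
    rw [norm_mul, Complex.norm_exp]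
    have e : (-(s * (t:ℂ))).re = -(s.re * t) := by simp
    rw [e]
    have h1 : -(s.re * t) ≤ |s.re| * |t| := by
      rw [← abs_mul]
      exact neg_le_abs _
    have hD := hK.nonneg
    calc ‖K t‖ * Real.exp (-(s.re * t)) ≤ (D * Real.exp (-(1/2) * |t|)) * Real.exp (|s.re| * |t|) := by
          apply mul_le_mul (hK.2 t) (Real.exp_le_exp.2 h1) (Real.exp_pos _).le (by positivity)
      _ = D * (1 * Real.exp (-(1/2 - |s.re|) * |t|)) := by
          rw [mul_assoc, ← Real.exp_add, one_mul]
          congr 2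
          ring
      _ ≤ _ := by
          apply mul_le_mul_of_nonneg_left _ hD
          exact mul_le_mul_of_nonneg_right (one_le_ell t) (Real.exp_pos _).le

/-- transform of the convolution -/
theorem cv_tr (hm : Measurable F) (h : GB F B) (h0 : ∀ u < 0, F u = 0) (hK : KD K D)
    {s : ℂ} (hs : 0 < s.re) (hs' : s.re < 1/2) :
    Integrable (fun v : ℝ => cv F K v * Complex.exp (-(s * v))) ∧
    ∫ v : ℝ, cv F K v * Complex.exp (-(s * v)) =
      Lp (fun u => (F u : ℂ)) s * ∫ t : ℝ, K t * Complex.exp (-(s * t)) := by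
  have hF' := lap_int hm h h0 hs
  have hK' := KD_tr_int hK (s := s) (by rw [abs_of_pos hs]; exact hs')
  have e : ∀ v : ℝ, cv F K v * Complex.exp (-(s * v)) =
      MeasureTheory.convolution (fun u : ℝ => (F u : ℂ) * Complex.exp (-(s * u)))
        (fun t : ℝ => K t * Complex.exp (-(s * t))) (ContinuousLinearMap.mul ℂ ℂ) volume v := by
    intro v
    rw [MeasureTheory.convolution_def]
    unfold cv
    rw [← integral_mul_const]
    congr 1
    ext u
    simp only [ContinuousLinearMap.mul_apply']
    rw [show -(s * (v:ℂ)) = -(s * u) + -(s * ((v - u : ℝ) : ℂ)) by push_cast; ring, Complex.exp_add]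
    ring
  constructor
  · refine (hF'.integrable_convolution (ContinuousLinearMap.mul ℂ ℂ) hK').congr ?_
    apply Filter.Eventually.of_forall
    intro v
    exact (e v).symm
  · simp only [e]
    rw [integral_convolution (ContinuousLinearMap.mul ℂ ℂ) hF' hK']
    simp only [ContinuousLinearMap.mul_apply']
    rfl

noncomputable def Jk (F : ℝ → ℝ) (K : ℝ → ℂ) (s : ℂ) : ℂ :=
  ∫ v in Set.Iic (0:ℝ), cv F K v * Complex.exp (-(s * v))

theorem Jk_bound (h : GB F B) (h0 : ∀ u < 0, F u = 0) (hK : KD K D) {s : ℂ} {r : ℝ} (hr : s.re ≤ r)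
    {v : ℝ} (hv : v ≤ 0) : ‖cv F K v * Complex.exp (-(s * v))‖ ≤ (B * D * CE) * Real.exp ((1/2 - r) * v) := by
  rw [norm_mul, Complex.norm_exp]
  have e : (-(s * (v:ℂ))).re = -(s.re * v) := by simp
  rw [e]
  have h1 : -(s.re * v) ≤ -(r * v) := by nlinarith
  have h2 := cv_neg h h0 hK hv
  calc ‖cv F K v‖ * Real.exp (-(s.re * v)) ≤ ((B * D * CE) * Real.exp (v / 2)) * Real.exp (-(r * v)) := by
        apply mul_le_mul h2 (Real.exp_le_exp.2 h1) (Real.exp_pos _).le
        exact (norm_nonneg _).trans h2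
    _ = _ := by
        rw [mul_assoc, ← Real.exp_add]
        congr 2
        ring

theorem Jk_int (hm : Measurable F) (h : GB F B) (h0 : ∀ u < 0, F u = 0) (hK : KD K D) {s : ℂ}
    (hs : s.re < 1/2) :
    IntegrableOn (fun v : ℝ => cv F K v * Complex.exp (-(s * v))) (Set.Iic 0) := by
  refine Integrable.mono' ((integrableOn_exp_mul_Iic (show 0 < 1/2 - s.re by linarith) 0).const_mul (B * D * CE))
    ?_ ?_
  · exact ((cv_cont hm h hK).mul (by fun_prop)).aestronglyMeasurable
  · rw [ae_restrict_iff' measurableSet_Iic]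
    apply Filter.Eventually.of_forall
    intro v hv
    exact Jk_bound h h0 hK le_rfl hv

theorem Jk_cont (hm : Measurable F) (h : GB F B) (h0 : ∀ u < 0, F u = 0) (hK : KD K D) {s : ℂ}
    (hs : s.re < 1/2) : ContinuousAt (Jk F K) s := by
  unfold Jk
  set r : ℝ := (s.re + 1/2) / 2 with hr
  apply continuousAt_of_dominated (bound := fun v => (B * D * CE) * Real.exp ((1/2 - r) * v))
  · apply Filter.Eventually.of_forall
    intro s'
    exact ((cv_cont hm h hK).mul (by fun_prop)).aestronglyMeasurable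
  · have : ∀ᶠ s' : ℂ in 𝓝 s, s'.re < r := by
      apply ContinuousAt.eventually_lt Complex.continuous_re.continuousAt continuousAt_const
      rw [hr]; linarith
    filter_upwards [this] with s' hs'
    rw [ae_restrict_iff' measurableSet_Iic]
    apply Filter.Eventually.of_forall
    intro v hv
    exact Jk_bound h h0 hK hs'.le hv
  · exact (integrableOn_exp_mul_Iic (show 0 < 1/2 - r by rw [hr]; linarith) 0).const_mul (B * D * CE)
  · apply Filter.Eventually.of_forall
    intro v
    fun_prop

end

end Pool.Agent.Helper99.MS
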