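import Pool.Agent.Helper99.MS.Lap
import Pool.Agent.Helper13.MobO

/-!
# Consequences of a slow growth bound for the Mertens function
-/

namespace Pool.Agent.Helper99.MS

open Finset MeasureTheory Set Filter Topology
open Pool.Agent.Helper13.Mob (Z1 Z1_diff Z1_eq zeta_ana simple_pole)

/-- real valued Möbius function -/
noncomputable def mr (n : ℕ) : ℝ := ((ArithmeticFunction.moebius n : ℤ) : ℝ)

theorem abs_mr (n : ℕ) : |mr n| ≤ 1 := by
  unfold mr
  rw [← Int.cast_abs]
  exact_mod_cast ArithmeticFunction.abs_moebius_le_one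

/-- the Laplace transform of the normalised Mertens function -/
noncomputable def Fh : ℂ → ℂ := Lp (fun u => (ff mr u : ℂ))

theorem ff_zero (u : ℝ) (hu : u < 0) : ff mr u = 0 := ff_neg hu

theorem Fh_diff {B : ℝ} (h : GB (ff mr) B) {s : ℂ} (hs : 0 < s.re) : DifferentiableAt ℂ Fh s :=
  lap_diff (ff_meas mr) h ff_zero hs

theorem Fh_gt {w : ℂ} (hw : 1 < w.re) : w * riemannZeta w * Fh (w - 1/2) = 1 := by
  have h1 := lap_LSeries abs_mr hw
  have h2 := LSeries_one_mul_Lseries_moebius hw
  rw [LSeries_one_eq_riemannZeta hw] at h2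
  have h3 : LSeries (fun n => (mr n : ℂ)) w = LSeries (fun n => ((ArithmeticFunction.moebius n : ℤ) : ℂ)) w := by
    congr 1
  calc w * riemannZeta w * Fh (w - 1/2) = riemannZeta w * (w * Lp (fun u => (ff mr u : ℂ)) (w - 1/2)) := by
        unfold Fh
        ring
    _ = 1 := by rw [h1, h3, h2]

theorem Fh_half {B : ℝ} (h : GB (ff mr) B) {w : ℂ} (hw : 1/2 < w.re) (hw1 : w ≠ 1) :
    w * riemannZeta w * Fh (w - 1/2) = 1 := by
  set U : Set ℂ := {z | 1/2 < z.re} with hU
  have hUo : IsOpen U := isOpen_lt continuous_const Complex.continuous_re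
  have hUc : IsPreconnected U := (convex_halfSpace_re_gt (1/2)).isPreconnected
  have hf : AnalyticOnNhd ℂ (fun z => z * Z1 z * Fh (z - 1/2)) U := by
    apply DifferentiableOn.analyticOnNhd _ hUo
    intro z hz
    have hz' : 0 < (z - 1/2).re := by
      have : 1/2 < z.re := hz
      simp only [Complex.sub_re, Complex.div_ofNat_re, Complex.one_re]
      linarith
    apply DifferentiableAt.differentiableWithinAt
    apply (differentiableAt_id.mul (Z1_diff z)).mul
    exact (Fh_diff h hz').comp z (by fun_prop)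
  have hg : AnalyticOnNhd ℂ (fun z : ℂ => z - 1) U := by
    apply DifferentiableOn.analyticOnNhd _ hUo
    intro z hz
    fun_prop
  have h2 : (2:ℂ) ∈ U := by
    show (1/2:ℝ) < (2:ℂ).re
    norm_num
  have hev : (fun z => z * Z1 z * Fh (z - 1/2)) =ᶠ[𝓝 2] (fun z => z - 1) := by
    have : {z : ℂ | 1 < z.re} ∈ 𝓝 (2:ℂ) := by
      apply (isOpen_lt continuous_const Complex.continuous_re).mem_nhds
      show (1:ℝ) < (2:ℂ).re
      norm_num
    filter_upwards [this] with z hz
    have hz' : 1 < z.re := hz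
    have hz1 : z ≠ 1 := by
      intro h
      rw [h] at hz'
      simp at hz'
    have := Fh_gt hz'
    rw [Z1_eq hz1]
    calc _ = (z - 1) * (z * riemannZeta z * Fh (z - 1/2)) := by ring
      _ = _ := by rw [this, mul_one]
  have := hf.eqOn_of_preconnected_of_eventuallyEq hg hUc h2 hev hw
  simp only at this
  rw [Z1_eq hw1] at this
  have hne : w - 1 ≠ 0 := sub_ne_zero.2 hw1
  apply mul_left_cancel₀ hne
  rw [mul_one]
  calc _ = w * ((w - 1) * riemannZeta w) * Fh (w - 1/2) := by ring
    _ = _ := this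

theorem GB.ne_right {B : ℝ} (h : GB (ff mr) B) {w : ℂ} (hw : 1/2 < w.re) (hw1 : w ≠ 1) :
    riemannZeta w ≠ 0 := by
  intro hz
  have := Fh_half h hw hw1
  rw [hz] at this
  simp at this

theorem GB.ne_left {B : ℝ} (h : GB (ff mr) B) {w : ℂ} (hw : w.re < 1/2) (hw0 : 0 < w.re) :
    riemannZeta w ≠ 0 := by
  intro hz
  have hw1 : w ≠ 1 := by
    intro h; rw [h] at hw; norm_num at hw
  have hwn : ∀ n : ℕ, w ≠ -n := by
    intro n hn
    rw [hn] at hw0
    simp only [Complex.neg_re, Complex.natCast_re] at hw0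
    have hm0 : (0:ℝ) ≤ n := Nat.cast_nonneg n
    linarith
  have e := riemannZeta_one_sub hwn hw1
  rw [hz, mul_zero] at e
  refine h.ne_right (w := 1 - w) ?_ ?_ e
  · simp only [Complex.sub_re, Complex.one_re]
    linarith
  · intro h1
    have : w = 0 := by
      have := congrArg (fun z => 1 - z) h1
      simpa using this
    rw [this] at hw0
    simp at hw0

/-- growth of the Laplace transform near the imaginary axis -/
theorem Fh_bound {B : ℝ} (h : GB (ff mr) B) {s : ℂ} (hs : 0 < s.re) :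
    ‖Fh s‖ ≤ B * ((1 / √s.re + √s.re) / s.re + √s.re / s.re ^ 2) := by
  set σ := s.re with hσ
  set η := √σ with hη
  have hη0 : 0 < η := Real.sqrt_pos.2 hs
  have hB := h.nonneg
  have hI : ∀ u : ℝ, 0 < u → ell u ≤ (1 / η + η) + η * u := by
    intro u hu
    have h1 := ell_le_sqrt u
    rw [abs_of_pos hu] at h1
    have h2 : 2 * √(1 + u) ≤ 1 / η + η * (1 + u) := by
      have h3 : 0 ≤ (1 / η) * (1 - η * √(1 + u)) ^ 2 := by positivity
      have h4 : √(1 + u) ^ 2 = 1 + u := Real.sq_sqrt (by linarith)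
      have h5 : (1 / η) * (1 - η * √(1 + u)) ^ 2 = 1 / η - 2 * √(1 + u) + η * √(1 + u) ^ 2 := by
        field_simp
        ring
      rw [h5, h4] at h3
      linarith
    linarith
  have i1 : IntegrableOn (fun u : ℝ => Real.exp (-(σ * u))) (Set.Ioi 0) := by
    have := integrableOn_exp_mul_Ioi (a := -σ) (by linarith) 0
    simpa using this
  have v1 : ∫ u in Set.Ioi (0:ℝ), Real.exp (-(σ * u)) = 1 / σ := by
    have := integral_exp_mul_Ioi (a := -σ) (by linarith) 0
    simp only [neg_mul, mul_zero, Real.exp_zero] at this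
    rw [this]
    field_simp
  have v2 : ∫ u in Set.Ioi (0:ℝ), u * Real.exp (-(σ * u)) = 1 / σ ^ 2 := by
    have := Real.integral_rpow_mul_exp_neg_mul_Ioi (a := 2) (r := σ) (by norm_num) hs
    have e : ∫ u in Set.Ioi (0:ℝ), u * Real.exp (-(σ * u)) =
        ∫ (t : ℝ) in Set.Ioi 0, t ^ ((2:ℝ) - 1) * Real.exp (-(σ * t)) := by
      apply setIntegral_congr_fun measurableSet_Ioi
      intro u hu
      simp only
      rw [show (2:ℝ) - 1 = 1 by norm_num, Real.rpow_one]
    rw [e, this, Real.Gamma_two, mul_one]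
    rw [show (2:ℝ) = ((2:ℕ):ℝ) by norm_num, Real.rpow_natCast]
    simp
  have i2 : IntegrableOn (fun u : ℝ => u * Real.exp (-(σ * u))) (Set.Ioi 0) := by
    by_contra hc
    have h0 := integral_undef hc
    rw [v2] at h0
    have : 0 < 1 / σ ^ 2 := by positivity
    linarith
  have hi3 : IntegrableOn (fun u : ℝ => B * (((1 / η + η) * Real.exp (-(σ * u))) +
      η * (u * Real.exp (-(σ * u))))) (Set.Ioi 0) :=
    ((i1.const_mul _).add (i2.const_mul _)).const_mul B
  unfold Fh Lp
  rw [← setIntegral_eq_integral_of_forall_compl_eq_zero (s := Set.Ici (0:ℝ)), integral_Ici_eq_integral_Ioi]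
  · calc ‖∫ u in Set.Ioi (0:ℝ), (ff mr u : ℂ) * Complex.exp (-(s * u))‖
        ≤ ∫ u in Set.Ioi (0:ℝ), B * (((1 / η + η) * Real.exp (-(σ * u))) +
            η * (u * Real.exp (-(σ * u)))) := by
          apply norm_integral_le_of_norm_le hi3
          rw [ae_restrict_iff' measurableSet_Ioi]
          apply Filter.Eventually.of_forall
          intro u hu
          have hu' : (0:ℝ) < u := hu
          have h1 := lap_bd h ff_zero s u
          refine h1.trans ?_
          rw [abs_of_pos hu', ← hσ]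
          have h2 := hI u hu'
          have h3 : Real.exp (-σ * u) = Real.exp (-(σ * u)) := by ring_nf
          rw [h3]
          apply mul_le_mul_of_nonneg_left _ hB
          calc ell u * Real.exp (-(σ * u)) ≤ ((1 / η + η) + η * u) * Real.exp (-(σ * u)) :=
                mul_le_mul_of_nonneg_right h2 (Real.exp_pos _).le
            _ = _ := by ring
      _ = _ := by
          rw [integral_const_mul, integral_add (i1.const_mul _) (i2.const_mul _), integral_const_mul,
            integral_const_mul, v1, v2]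
          ring
  · intro u hu
    have h2 : u < 0 := lt_of_not_ge hu
    simp only [ff_neg h2]
    simp

theorem GB.simple {B : ℝ} (h : GB (ff mr) B) {w₀ : ℂ} (hw : w₀.re = 1/2)
    (hz : riemannZeta w₀ = 0) : deriv riemannZeta w₀ ≠ 0 := by
  intro hd
  have hw1 : w₀ ≠ 1 := by
    intro h1; rw [h1] at hw; norm_num at hw
  have hB := h.nonneg
  set F := dslope riemannZeta w₀ with hF
  have hFd : DifferentiableAt ℂ F w₀ := by
    have h1 : ∀ᶠ w in 𝓝 w₀, AnalyticAt ℂ riemannZeta w := (zeta_ana hw1).eventually_analyticAt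
    obtain ⟨ε, hε, hball⟩ := Metric.eventually_nhds_iff_ball.1 h1
    have h2 : DifferentiableOn ℂ riemannZeta (Metric.ball w₀ ε) := fun z hz =>
      (hball z hz).differentiableAt.differentiableWithinAt
    have h3 : DifferentiableOn ℂ F (Metric.ball w₀ ε) :=
      (Complex.differentiableOn_dslope (Metric.ball_mem_nhds _ hε)).2 h2
    exact h3.differentiableAt (Metric.ball_mem_nhds _ hε)
  have hF0 : F w₀ = 0 := by rw [hF, dslope_same, hd]
  have hslope := hFd.hasDerivAt.tendsto_slope
  have hpath : Tendsto (fun σ : ℝ => w₀ + σ) (𝓝[>] 0) (𝓝[≠] w₀) := by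
    rw [tendsto_nhdsWithin_iff]
    constructor
    · have : Tendsto (fun σ : ℝ => w₀ + (σ : ℂ)) (𝓝 0) (𝓝 (w₀ + ((0:ℝ):ℂ))) := by
        apply Continuous.tendsto
        fun_prop
      rw [Complex.ofReal_zero, add_zero] at this
      exact this.mono_left nhdsWithin_le_nhds
    · filter_upwards [self_mem_nhdsWithin] with σ hσ
      have hσ' : (0:ℝ) < σ := hσ
      simp only [Set.mem_compl_iff, Set.mem_singleton_iff]
      intro h1
      have : (σ : ℂ) = 0 := by
        have := congrArg (fun z => z - w₀) h1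
        simpa using this
      rw [Complex.ofReal_eq_zero] at this
      linarith
  have h1 := (hslope.comp hpath).norm
  have h2 : Tendsto (fun σ : ℝ => ‖w₀ + σ‖) (𝓝[>] 0) (𝓝 ‖w₀‖) := by
    have : Tendsto (fun σ : ℝ => ‖w₀ + (σ : ℂ)‖) (𝓝 0) (𝓝 ‖w₀ + ((0:ℝ):ℂ)‖) := by
      apply Continuous.tendsto
      fun_prop
    rw [Complex.ofReal_zero, add_zero] at this
    exact this.mono_left nhdsWithin_le_nhds
  have h3 : Tendsto (fun σ : ℝ => B * ((√σ + √σ * σ) + √σ)) (𝓝[>] 0) (𝓝 (B * ((√0 + √0 * 0) + √0))) := by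
    apply Tendsto.mono_left _ nhdsWithin_le_nhds
    apply Continuous.tendsto
    fun_prop
  have hub := (h2.mul h1).mul h3
  simp only [Real.sqrt_zero, add_zero, mul_zero] at hub
  have hone : ∀ᶠ σ : ℝ in 𝓝[>] 0, (1:ℝ) ≤ ‖w₀ + σ‖ * (norm ∘ (slope F w₀ ∘ fun σ : ℝ => w₀ + σ)) σ *
      (B * ((√σ + √σ * σ) + √σ)) := by
    filter_upwards [Ioo_mem_nhdsGT (show (0:ℝ) < 1/2 by norm_num)] with σ hσ
    have hσ0 : 0 < σ := hσ.1
    have hre : (w₀ + σ).re = 1/2 + σ := by simp [hw]
    have hgt : 1/2 < (w₀ + σ).re := by rw [hre]; linarith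
    have hlt : (w₀ + σ).re < 1 := by rw [hre]; linarith [hσ.2]
    have hne1 : w₀ + σ ≠ 1 := by
      intro h2
      rw [h2] at hlt
      simp at hlt
    have hne0 : w₀ + (σ:ℂ) ≠ w₀ := by
      intro h2
      have : (σ : ℂ) = 0 := by
        have := congrArg (fun z => z - w₀) h2
        simpa using this
      rw [Complex.ofReal_eq_zero] at this
      linarith
    have h4 := Fh_half h hgt hne1
    have h5 : riemannZeta (w₀ + σ) = (σ : ℂ) * ((σ : ℂ) * slope F w₀ (w₀ + σ)) := by
      rw [slope_def_field, hF0, sub_zero, add_sub_cancel_left, hF, dslope_of_ne _ hne0, slope_def_field, hz,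
        sub_zero, add_sub_cancel_left]
      have : (σ : ℂ) ≠ 0 := by exact_mod_cast hσ0.ne'
      field_simp
    have h6 : 0 < (w₀ + σ - 1/2).re := by
      simp only [Complex.sub_re, Complex.div_ofNat_re, Complex.one_re]
      linarith
    have h7 := Fh_bound h h6
    have h8 : (w₀ + σ - 1/2).re = σ := by
      simp [hw]
    rw [h8] at h7
    have h9 : ‖(w₀ + σ) * riemannZeta (w₀ + σ) * Fh (w₀ + σ - 1/2)‖ = 1 := by rw [h4]; simp
    rw [norm_mul, norm_mul, h5, norm_mul, norm_mul, Complex.norm_real, Real.norm_of_nonneg hσ0.le] at h9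
    rw [← h9]
    simp only [Function.comp_apply]
    have hs2 : √σ * √σ = σ := Real.mul_self_sqrt hσ0.le
    have hsp : 0 < √σ := Real.sqrt_pos.2 hσ0
    calc ‖w₀ + σ‖ * (σ * (σ * ‖slope F w₀ (w₀ + σ)‖)) * ‖Fh (w₀ + σ - 1/2)‖
        ≤ ‖w₀ + σ‖ * (σ * (σ * ‖slope F w₀ (w₀ + σ)‖)) *
          (B * ((1 / √σ + √σ) / σ + √σ / σ ^ 2)) := mul_le_mul_of_nonneg_left h7 (by positivity)
      _ = ‖w₀ + σ‖ * ‖slope F w₀ (w₀ + σ)‖ * (B * ((σ / √σ + √σ * σ) + √σ)) := by
          field_simp
      _ = _ := by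
          rw [show σ / √σ = √σ by rw [div_eq_iff hsp.ne']; exact hs2.symm]
  have := ge_of_tendsto hub hone
  linarith

end Pool.Agent.Helper99.MS
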