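import Pool.Agent.Helper99.MS.Carl

/-!
# Fejér means of slowly growing functions with discrete spectrum
(adapted from helper13's bounded version)
-/

namespace Pool.Agent.Helper99.MS

open Finset MeasureTheory Set Filter Topology
open Pool.Agent.Helper13.Mob

/-- Fejér kernel at scale `L`, total mass `2π` -/
noncomputable def KL (L v : ℝ) : ℝ := L * fej (L * v)

theorem KL_nonneg {L : ℝ} (hL : 0 < L) (v : ℝ) : 0 ≤ KL L v := mul_nonneg hL.le (fej_nonneg _)

theorem KL_int {L : ℝ} (hL : 0 < L) : Integrable (KL L) :=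
  (fej_int.comp_mul_left' hL.ne').const_mul L

theorem KL_tot {L : ℝ} (hL : 0 < L) : ∫ v, KL L v = 2 * Real.pi := by
  simp only [KL]
  rw [integral_const_mul, Measure.integral_comp_mul_left, fej_integral, abs_of_pos (by positivity),
    smul_eq_mul]
  field_simp

theorem KL_meas {L : ℝ} : AEStronglyMeasurable (KL L) volume := by
  unfold KL
  apply AEStronglyMeasurable.const_mul
  exact (fej_meas.comp (measurable_const_mul L)).aestronglyMeasurable

theorem KL_le {L : ℝ} (hL : 0 < L) (v : ℝ) : KL L v ≤ 8 * (L + 1 / L) * (1 + v ^ 2)⁻¹ := by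
  unfold KL
  have h1 := fej_le (L * v)
  have h2 : (1 + (L * v) ^ 2)⁻¹ ≤ (1 + 1 / L ^ 2) * (1 + v ^ 2)⁻¹ := by
    rw [← div_eq_mul_inv, le_div_iff₀ (by positivity), inv_mul_le_iff₀ (by positivity)]
    have : 0 < L ^ 2 := by positivity
    have e : (1 + (L * v) ^ 2) * (1 + 1 / L ^ 2) = 1 + v ^ 2 + (L ^ 2 * v ^ 2 + 1 / L ^ 2) := by
      field_simp
      ring
    rw [e]
    have : 0 ≤ L ^ 2 * v ^ 2 + 1 / L ^ 2 := by positivity
    linarith
  calc L * fej (L * v) ≤ L * (8 * ((1 + 1 / L ^ 2) * (1 + v ^ 2)⁻¹)) :=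
        mul_le_mul_of_nonneg_left (h1.trans (mul_le_mul_of_nonneg_left h2 (by norm_num))) hL.le
    _ = _ := by
        field_simp

/-- pointwise bound away from the origin -/
theorem KL_le2 {L : ℝ} (hL : 0 < L) {v : ℝ} (hv : v ≠ 0) : KL L v ≤ 8 / (L * v ^ 2) := by
  unfold KL
  have h1 := fej_le (L * v)
  have h2 : (1 + (L * v) ^ 2)⁻¹ ≤ ((L * v) ^ 2)⁻¹ := by
    apply inv_anti₀
    · positivity
    · linarith
  calc L * fej (L * v) ≤ L * (8 * ((L * v) ^ 2)⁻¹) :=
        mul_le_mul_of_nonneg_left (h1.trans (mul_le_mul_of_nonneg_left h2 (by norm_num))) hL.le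
    _ = _ := by
        field_simp

theorem ell_KL_int {L : ℝ} (hL : 0 < L) : Integrable (fun v => ell v * KL L v) := by
  refine Integrable.mono' (ell_sq_int.const_mul (8 * (L + 1 / L))) ?_ ?_
  · exact ell_cont.aestronglyMeasurable.mul KL_meas
  · apply Filter.Eventually.of_forall
    intro v
    rw [Real.norm_of_nonneg (mul_nonneg (ell_nonneg v) (KL_nonneg hL v))]
    calc ell v * KL L v ≤ ell v * (8 * (L + 1 / L) * (1 + v ^ 2)⁻¹) :=
          mul_le_mul_of_nonneg_left (KL_le hL v) (ell_nonneg v)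
      _ = _ := by ring

theorem gKL_int {g : ℝ → ℂ} (hg : Continuous g) {C : ℝ} (hC0 : 0 ≤ C) (hC : ∀ v, ‖g v‖ ≤ C * ell v)
    {L : ℝ} (hL : 0 < L) (u : ℝ) : Integrable (fun v => g (v + u) * (KL L v : ℂ)) := by
  refine Integrable.mono' ((ell_KL_int hL).const_mul (C * ell u)) ?_ ?_
  · apply AEStronglyMeasurable.mul
    · exact (hg.comp (continuous_add_const u)).aestronglyMeasurable
    · exact Complex.continuous_ofReal.comp_aestronglyMeasurable KL_meas
  · apply Filter.Eventually.of_forall
    intro v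
    rw [norm_mul, Complex.norm_real, Real.norm_of_nonneg (KL_nonneg hL v)]
    rw [← mul_assoc]
    apply mul_le_mul_of_nonneg_right _ (KL_nonneg hL v)
    calc ‖g (v + u)‖ ≤ C * ell (v + u) := hC _
      _ ≤ C * (ell v * ell u) := mul_le_mul_of_nonneg_left (ell_add v u) hC0
      _ = _ := by ring

/-- The Fejér mean of level `L` is an exponential polynomial with frequencies in `Γ`. -/
theorem trig_repr {g : ℝ → ℂ} (hg : Continuous g) {C : ℝ} (hC0 : 0 ≤ C)
    (hC : ∀ v, ‖g v‖ ≤ C * ell v) {G : ℂ → ℂ}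
    {r : ℝ} (hr : 0 < r)
    (hp : ∀ s : ℂ, 0 < s.re → s.re < r →
      ∫ v in Set.Ioi (0:ℝ), g v * Complex.exp (-(s * v)) = G s)
    (hm : ∀ s : ℂ, -r < s.re → s.re < 0 →
      ∫ v in Set.Iic (0:ℝ), g v * Complex.exp (-(s * v)) = -G s)
    {L : ℝ} (hL : 0 < L) (Γ : Finset ℝ) (c : ℝ → ℂ)
    (hΓ : ∀ t ∈ Set.Icc (-L) L,
      ∃ ℓ, Tendsto (fun s => G s - ∑ γ ∈ Γ, c γ / (s - γ * Complex.I))
        (𝓝[{s : ℂ | s.re ≠ 0}] (t * Complex.I)) (𝓝 ℓ)) :
    ∃ b : ℝ → ℂ, ∀ u, ∫ v, g (v + u) * (KL L v : ℂ) =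
      ∑ γ ∈ Γ, b γ * Complex.exp (γ * u * Complex.I) := by
  refine ⟨fun γ => c γ * ∫ v : ℝ, Complex.exp (γ * v * Complex.I) * (KL L v : ℂ), ?_⟩
  intro u
  -- g₁
  set g₁ : ℝ → ℂ := fun v => g v - ∑ γ ∈ Γ, c γ * Complex.exp (γ * v * Complex.I) with hg₁
  have hg₁c : Continuous g₁ := by
    apply hg.sub
    apply continuous_finsetSum
    intro γ _
    fun_prop
  have hn1 : ∀ (γ v : ℝ), ‖Complex.exp (γ * v * Complex.I)‖ = 1 := by
    intro γ v
    rw [Complex.norm_exp]
    simp
  have hSc : 0 ≤ ∑ γ ∈ Γ, ‖c γ‖ := Finset.sum_nonneg (fun _ _ => norm_nonneg _)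
  have hg₁b : ∀ v, ‖g₁ v‖ ≤ (C + ∑ γ ∈ Γ, ‖c γ‖) * ell v := by
    intro v
    refine (norm_sub_le _ _).trans ?_
    rw [add_mul]
    apply add_le_add (hC v)
    refine (norm_sum_le _ _).trans ?_
    calc ∑ γ ∈ Γ, ‖c γ * Complex.exp (γ * v * Complex.I)‖ = (∑ γ ∈ Γ, ‖c γ‖) * 1 := by
          rw [mul_one]
          apply Finset.sum_congr rfl
          intro γ _
          rw [norm_mul, hn1, mul_one]
      _ ≤ _ := mul_le_mul_of_nonneg_left (one_le_ell v) hSc
  have hexp_p : ∀ (γ : ℝ) (s : ℂ), 0 < s.re → IntegrableOn (fun v : ℝ => Complex.exp (γ * v * Complex.I) *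
      Complex.exp (-(s * v))) (Set.Ioi 0) ∧ ∫ v in Set.Ioi (0:ℝ), Complex.exp (γ * v * Complex.I) *
      Complex.exp (-(s * v)) = 1 / (s - γ * Complex.I) := by
    intro γ s hs
    have e : (fun v : ℝ => Complex.exp (γ * v * Complex.I) * Complex.exp (-(s * v))) =
        fun v : ℝ => Complex.exp ((γ * Complex.I - s) * v) := by
      ext v
      rw [← Complex.exp_add]
      congr 1
      ring
    have hre : (γ * Complex.I - s).re < 0 := by simpa using hs
    rw [e]
    refine ⟨integrableOn_exp_mul_complex_Ioi hre 0, ?_⟩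
    rw [integral_exp_mul_complex_Ioi hre]
    simp only [Complex.ofReal_zero, mul_zero, Complex.exp_zero]
    rw [← neg_sub s (γ * Complex.I), neg_div_neg_eq]
  have hexp_m : ∀ (γ : ℝ) (s : ℂ), s.re < 0 → IntegrableOn (fun v : ℝ => Complex.exp (γ * v * Complex.I) *
      Complex.exp (-(s * v))) (Set.Iic 0) ∧ ∫ v in Set.Iic (0:ℝ), Complex.exp (γ * v * Complex.I) *
      Complex.exp (-(s * v)) = -(1 / (s - γ * Complex.I)) := by
    intro γ s hs
    have e : (fun v : ℝ => Complex.exp (γ * v * Complex.I) * Complex.exp (-(s * v))) =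
        fun v : ℝ => Complex.exp ((γ * Complex.I - s) * v) := by
      ext v
      rw [← Complex.exp_add]
      congr 1
      ring
    have hre : 0 < (γ * Complex.I - s).re := by simpa using hs
    rw [e]
    refine ⟨integrableOn_exp_mul_complex_Iic hre 0, ?_⟩
    rw [integral_exp_mul_complex_Iic hre]
    simp only [Complex.ofReal_zero, mul_zero, Complex.exp_zero]
    rw [← neg_sub s (γ * Complex.I), div_neg]
  have hgi_p : ∀ s : ℂ, 0 < s.re → IntegrableOn (fun v : ℝ => g v * Complex.exp (-(s * v))) (Set.Ioi 0) := by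
    intro s hs
    refine Integrable.mono' ((ell_exp_int hs).integrableOn.const_mul C) ?_ ?_
    · apply Continuous.aestronglyMeasurable
      fun_prop
    · rw [ae_restrict_iff' measurableSet_Ioi]
      apply Filter.Eventually.of_forall
      intro v hv
      have hv' : (0:ℝ) < v := hv
      rw [norm_mul, Complex.norm_exp, abs_of_pos hv', ← mul_assoc]
      have : (-(s * (v:ℂ))).re = -s.re * v := by simp
      rw [this]
      exact mul_le_mul_of_nonneg_right (hC v) (Real.exp_pos _).le
  have hgi_m : ∀ s : ℂ, s.re < 0 → IntegrableOn (fun v : ℝ => g v * Complex.exp (-(s * v))) (Set.Iic 0) := by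
    intro s hs
    have hs' : 0 < -s.re := by linarith
    refine Integrable.mono' ((ell_exp_int hs').integrableOn.const_mul C) ?_ ?_
    · apply Continuous.aestronglyMeasurable
      fun_prop
    · rw [ae_restrict_iff' measurableSet_Iic]
      apply Filter.Eventually.of_forall
      intro v hv
      have hv' : v ≤ 0 := hv
      rw [norm_mul, Complex.norm_exp, abs_of_nonpos hv', ← mul_assoc]
      have : (-(s * (v:ℂ))).re = - -s.re * -v := by simp
      rw [this]
      exact mul_le_mul_of_nonneg_right (hC v) (Real.exp_pos _).le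
  have hexpand : ∀ (s : ℂ) (v : ℝ), g₁ v * Complex.exp (-(s * v)) = g v * Complex.exp (-(s * v)) -
      ∑ γ ∈ Γ, c γ * (Complex.exp (γ * v * Complex.I) * Complex.exp (-(s * v))) := by
    intro s v
    rw [hg₁]
    simp only
    rw [sub_mul, Finset.sum_mul]
    congr 1
    apply Finset.sum_congr rfl
    intro γ _
    ring
  have hp1 : ∀ s : ℂ, 0 < s.re → s.re < r →
      ∫ v in Set.Ioi (0:ℝ), g₁ v * Complex.exp (-(s * v)) = G s - ∑ γ ∈ Γ, c γ / (s - γ * Complex.I) := by
    intro s hs hs'
    simp only [hexpand]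
    rw [integral_sub (hgi_p s hs), hp s hs hs', integral_finsetSum]
    · congr 1
      apply Finset.sum_congr rfl
      intro γ _
      rw [integral_const_mul, (hexp_p γ s hs).2]
      ring
    · intro γ _
      exact (hexp_p γ s hs).1.const_mul _
    · apply integrable_finsetSum
      intro γ _
      exact (hexp_p γ s hs).1.const_mul _
  have hm1 : ∀ s : ℂ, -r < s.re → s.re < 0 →
      ∫ v in Set.Iic (0:ℝ), g₁ v * Complex.exp (-(s * v)) =
        -(G s - ∑ γ ∈ Γ, c γ / (s - γ * Complex.I)) := by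
    intro s hs hs'
    simp only [hexpand]
    rw [integral_sub (hgi_m s hs'), hm s hs hs', integral_finsetSum]
    · have : ∑ γ ∈ Γ, ∫ v in Set.Iic (0:ℝ), c γ * (Complex.exp (γ * v * Complex.I) * Complex.exp (-(s * v)))
          = -∑ γ ∈ Γ, c γ / (s - γ * Complex.I) := by
        rw [← Finset.sum_neg_distrib]
        apply Finset.sum_congr rfl
        intro γ _
        rw [integral_const_mul, (hexp_m γ s hs').2]
        ring
      rw [this]
      ring
    · intro γ _
      exact (hexp_m γ s hs').1.const_mul _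
    · apply integrable_finsetSum
      intro γ _
      exact (hexp_m γ s hs').1.const_mul _
  -- apply Carleman to the translated kernel
  have hKu : AEStronglyMeasurable (fun v => (KL L (v - u) : ℂ)) volume :=
    ((KL_int hL).comp_sub_right u).ofReal.aestronglyMeasurable
  have hcar := carleman2 hg₁c (by positivity) hg₁b hr hp1 hm1 hΓ
    (κ := fun t => (tri (t / L) : ℂ) * Complex.exp (t * u * Complex.I))
    (K := fun v => (KL L (v - u) : ℂ)) ?_ ?_ ?_ hKu ?_
  · -- conclude
    have hshift : ∀ F : ℝ → ℂ, ∫ v, F v * (KL L (v - u) : ℂ) = ∫ v, F (v + u) * (KL L v : ℂ) := by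
      intro F
      rw [← integral_add_right_eq_self (fun v => F v * (KL L (v - u) : ℂ)) u]
      congr 1
      ext v
      rw [add_sub_cancel_right]
    rw [hshift] at hcar
    have hpt : ∀ v : ℝ, g₁ (v + u) * (KL L v : ℂ) = g (v + u) * (KL L v : ℂ) -
        ∑ γ ∈ Γ, (c γ * Complex.exp (γ * u * Complex.I)) * (Complex.exp (γ * v * Complex.I) * (KL L v : ℂ)) := by
      intro v
      rw [hg₁]
      simp only
      rw [sub_mul, Finset.sum_mul]
      congr 1
      apply Finset.sum_congr rfl
      intro γ _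
      have : Complex.exp (γ * ((v + u : ℝ) : ℂ) * Complex.I) =
          Complex.exp (γ * u * Complex.I) * Complex.exp (γ * v * Complex.I) := by
        rw [← Complex.exp_add]
        congr 1
        push_cast
        ring
      rw [this]
      ring
    have hEK : ∀ γ : ℝ, Integrable (fun v : ℝ => Complex.exp (γ * v * Complex.I) * (KL L v : ℂ)) := by
      intro γ
      apply Integrable.bdd_mul (c := 1) (KL_int hL).ofReal
      · apply Continuous.aestronglyMeasurable
        fun_prop
      · exact Filter.Eventually.of_forall (fun v => (hn1 γ v).le)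
    simp only [hpt] at hcar
    rw [integral_sub (gKL_int hg hC0 hC hL u), integral_finsetSum] at hcar
    · rw [sub_eq_zero] at hcar
      rw [hcar]
      apply Finset.sum_congr rfl
      intro γ _
      rw [integral_const_mul]
      ring
    · intro γ _
      exact (hEK γ).const_mul _
    · apply integrable_finsetSum
      intro γ _
      exact (hEK γ).const_mul _
  · -- integrability of κ
    apply Integrable.mul_bdd (c := 1)
    · exact (tri_int.comp_div hL.ne').ofReal
    · apply Continuous.aestronglyMeasurable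
      fun_prop
    · exact Filter.Eventually.of_forall (fun t => (hn1 t u).le)
  · -- support
    intro t ht
    have : tri (t / L) = 0 := by
      apply tri_eq_zero
      rw [abs_div, abs_of_pos hL, le_div_iff₀ hL, one_mul]
      by_contra h
      push Not at h
      exact ht ⟨(abs_lt.1 h).1.le, (abs_lt.1 h).2.le⟩
    simp only [this]
    simp
  · -- representation
    intro v
    have e1 : (KL L (v - u) : ℂ) = (L : ℂ) * (fej (L * (v - u)) : ℂ) := by
      simp only [KL]
      push_cast
      ring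
    rw [e1, fej_eq]
    have e2 : ∫ t : ℝ, (tri (t / L) : ℂ) * Complex.exp (t * u * Complex.I) *
        Complex.exp (-(t * v * Complex.I)) =
        ∫ t : ℝ, (fun y : ℝ => (tri y : ℂ) * Complex.exp (-(y * ((L * (v - u) : ℝ) : ℂ) * Complex.I))) (t / L) := by
      congr 1
      ext t
      simp only
      rw [mul_assoc, ← Complex.exp_add]
      congr 2
      push_cast
      have : (L : ℂ) ≠ 0 := by exact_mod_cast hL.ne'
      field_simp
      ring
    rw [e2, Measure.integral_comp_div (fun y : ℝ => (tri y : ℂ) *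
      Complex.exp (-(y * ((L * (v - u) : ℝ) : ℂ) * Complex.I))) L, abs_of_pos hL, Complex.real_smul]
  · -- weighted integrability of the kernel
    have h1 := ((ell_KL_int hL).comp_sub_right u).const_mul (ell u)
    refine Integrable.mono' h1 ?_ ?_
    · exact ell_cont.aestronglyMeasurable.mul hKu.norm
    · apply Filter.Eventually.of_forall
      intro v
      rw [Complex.norm_real, Real.norm_of_nonneg (mul_nonneg (ell_nonneg v) (norm_nonneg _)),
        Real.norm_of_nonneg (KL_nonneg hL _), ← mul_assoc]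
      apply mul_le_mul_of_nonneg_right _ (KL_nonneg hL _)
      have := ell_add u (v - u)
      rwa [show u + (v - u) = v by ring] at this

end Pool.Agent.Helper99.MS
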