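import Pool.Agent.Helper57.Zeta.Rvm

/-!
# Number of zeros on a segment of the critical line
-/

namespace Pool.Agent.Helper99.MS

open Finset Set Filter Topology
open Pool.Agent.Helper57.PC Pool.Agent.Helper57.Zeta

theorem ZL_fin (L : ℝ) : {t : ℝ | t ∈ Set.Icc (-L) L ∧ riemannZeta ((t : ℂ) * Complex.I + 1/2) = 0}.Finite := by
  apply Set.Finite.of_finite_image (f := fun t : ℝ => ((t : ℂ) * Complex.I + 1/2))
  · apply (zsym_finite L).subset
    rintro _ ⟨t, ⟨ht, hz⟩, rfl⟩
    refine ⟨?_, ?_⟩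
    · rw [xi_eq_zero_iff]
      refine ⟨by simp, by simp; norm_num, hz⟩
    · simp
      exact abs_le.2 ht
  · intro t _ t' _ h
    have := congrArg Complex.im h
    simpa using this

noncomputable def ZL (L : ℝ) : Finset ℝ := (ZL_fin L).toFinset

theorem mem_ZL {L t : ℝ} : t ∈ ZL L ↔ (-L ≤ t ∧ t ≤ L) ∧ riemannZeta ((t : ℂ) * Complex.I + 1/2) = 0 := by
  unfold ZL
  rw [Set.Finite.mem_toFinset]
  rfl

theorem ZL_card_le (L : ℝ) : ((ZL L).card : ℝ) ≤ 2 * NT L := by
  classical
  refine le_trans ?_ (sum_zsym_le L)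
  have h1 : (ZL L).card ≤ ((zsym_finite L).toFinset).card := by
    apply Finset.card_le_card_of_injOn (fun t : ℝ => ((t : ℂ) * Complex.I + 1/2))
    · intro t ht
      have ht' := mem_ZL.1 ht
      simp only [Finset.mem_coe, Set.Finite.mem_toFinset]
      refine ⟨?_, ?_⟩
      · rw [xi_eq_zero_iff]
        refine ⟨by simp, by simp; norm_num, ht'.2⟩
      · simp
        exact abs_le.2 ht'.1
    · intro t _ t' _ h
      have := congrArg Complex.im h
      simpa using this
  calc ((ZL L).card : ℝ) ≤ (((zsym_finite L).toFinset).card : ℝ) := by exact_mod_cast h1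
    _ = ∑ u ∈ (zsym_finite L).toFinset, (1:ℝ) := by simp
    _ ≤ _ := by
      apply Finset.sum_le_sum
      intro u hu
      rw [Set.Finite.mem_toFinset] at hu
      have := Nat.one_le_iff_ne_zero.2 ((order_pos_iff differentiable_xi xi_two_ne u).2 hu.1)
      exact_mod_cast this

theorem ZL_card : ∃ L₀ : ℝ, 1 ≤ L₀ ∧ ∀ L : ℝ, L₀ ≤ L → ((ZL L).card : ℝ) ≤ L * Real.log L := by
  obtain ⟨T₀, hT⟩ := NT_upper 1 one_pos
  refine ⟨max T₀ 1, le_max_right _ _, ?_⟩
  intro L hL
  have h1 := hT L ((le_max_left _ _).trans hL)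
  have hL1 : 1 ≤ L := (le_max_right _ _).trans hL
  have h2 := ZL_card_le L
  have hlog := Real.log_nonneg hL1
  have hpi := Real.pi_gt_three
  have h3 : 2 * ((1 + 1) * (L * Real.log L / (2 * Real.pi))) ≤ L * Real.log L := by
    rw [show 2 * ((1 + 1) * (L * Real.log L / (2 * Real.pi))) = (L * Real.log L) * (2 / Real.pi) by
      field_simp; ring]
    apply mul_le_of_le_one_right (by positivity)
    rw [div_le_one (by linarith)]
    linarith
  linarith

end Pool.Agent.Helper99.MS
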