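import Pool.Agent.Helper99.MS.Tr
import Pool.Agent.Helper99.MS.Conv
import Pool.Agent.Helper99.MS.Zc
import Pool.Agent.Helper99.MS.Mz
import Pool.Agent.Helper99.MS.Trig

/-!
# The smoothed function is almost periodic with spectrum in the zeros
-/

namespace Pool.Agent.Helper99.MS

open Finset MeasureTheory Set Filter Topology
open Pool.Agent.Helper13.Mob (simple_pole zeta_ana)

noncomputable def alC (m : ℕ) (t : ℝ) : ℂ := (al m t : ℂ)

theorem alC_KD {m : ℕ} (hm : 4 ≤ m) : KD (alC m) (m * Real.exp 4) := by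
  constructor
  · exact Complex.continuous_ofReal.comp (al_cont m)
  · intro t
    unfold alC
    rw [Complex.norm_real, Real.norm_eq_abs]
    have hm' : (4:ℝ) ≤ m := by exact_mod_cast hm
    refine (al_bd hm' t).trans ?_
    rw [← mul_assoc]
    apply mul_le_mul_of_nonneg_left _ (by positivity)
    apply Real.exp_le_exp.2
    have := abs_nonneg t
    linarith

theorem be_KD {k : ℕ} (hk : 1 ≤ k) : KD (be (4 * k)) (44 * ((4 * k : ℕ) : ℝ) ^ 2) :=
  ⟨be_cont (by omega), be_bd_dec hk⟩

noncomputable def gg (m : ℕ) (v : ℝ) : ℂ := cv (ff mr) (alC m) v - cv (ff mr) (be m) (-v)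

theorem khat_ana {m : ℕ} (hm : 1 ≤ m) {w : ℂ} (hw : w.re < m) : AnalyticAt ℂ (khat m) w := by
  have hmC : (m : ℂ) ≠ 0 := by
    have : m ≠ 0 := by omega
    exact_mod_cast this
  apply DifferentiableOn.analyticAt (s := {z : ℂ | z.re < m}) _
    ((isOpen_lt Complex.continuous_re continuous_const).mem_nhds hw)
  intro z hz
  have hz' : z.re < m := hz
  apply DifferentiableAt.differentiableWithinAt
  unfold khat
  apply DifferentiableAt.mul
  · apply DifferentiableAt.const_mul
    apply DifferentiableAt.const_cpow (by fun_prop)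
    left
    simpa using hmC
  · apply DifferentiableAt.comp (g := Complex.Gamma) (f := fun z : ℂ => (m : ℂ) - z)
    · apply Complex.differentiableAt_Gamma
      intro n hn
      have := congrArg Complex.re hn
      simp only [Complex.sub_re, Complex.natCast_re, Complex.neg_re] at this
      have hm0 : (0:ℝ) ≤ n := Nat.cast_nonneg n
      linarith
    · fun_prop

noncomputable def GG (m : ℕ) (s : ℂ) : ℂ := khat m (s + 1/2) / riemannZeta (s + 1/2) -
  (Jk (ff mr) (alC m) s + Jk (ff mr) (be m) (-s))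

section
variable {B : ℝ} {k : ℕ}

theorem gg_cont (h : GB (ff mr) B) (hk : 1 ≤ k) : Continuous (gg (4 * k)) := by
  unfold gg
  exact (cv_cont (ff_meas mr) h (alC_KD (by omega))).sub
    ((cv_cont (ff_meas mr) h (be_KD hk)).comp continuous_neg)

theorem gg_pos (h : GB (ff mr) B) (hk : 1 ≤ k) {s : ℂ} (hs : 0 < s.re) (hs' : s.re < 1/4) :
    ∫ v in Set.Ioi (0:ℝ), gg (4 * k) v * Complex.exp (-(s * v)) = GG (4 * k) s := by
  have hka : KD (alC (4 * k)) _ := alC_KD (by omega)
  have hkb := be_KD hk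
  have hm := ff_meas mr
  have h0 := ff_zero
  have hre : (s + 1/2).re = s.re + 1/2 := by simp
  have hw1 : s + 1/2 ≠ 1 := by
    intro h
    rw [h] at hre
    simp at hre
    linarith
  obtain ⟨i1, t1⟩ := cv_tr hm h h0 hka hs (by linarith)
  have j1 := Jk_int hm h h0 hka (s := s) (by linarith)
  have j2 := Jk_int hm h h0 hkb (s := -s) (by rw [Complex.neg_re]; linarith)
  have e2 : ∫ v in Set.Ioi (0:ℝ), cv (ff mr) (be (4 * k)) (-v) * Complex.exp (-(s * v)) =
      Jk (ff mr) (be (4 * k)) (-s) := by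
    have := integral_comp_neg_Ioi (0:ℝ) (fun v : ℝ => cv (ff mr) (be (4 * k)) v * Complex.exp (-(-s * v)))
    rw [neg_zero] at this
    unfold Jk
    rw [← this]
    congr 1
    ext v
    congr 2
    push_cast
    ring
  have i2 : IntegrableOn (fun v : ℝ => cv (ff mr) (be (4 * k)) (-v) * Complex.exp (-(s * v))) (Set.Ioi 0) := by
    have := (integrableOn_Iic_iff_integrableOn_Iio (μ := volume)).1 j2
    have h3 := this.comp_neg
    rw [Set.neg_Iio, neg_zero] at h3
    refine h3.congr_fun ?_ measurableSet_Ioi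
    intro v _
    simp only
    congr 2
    push_cast
    ring
  have e1 : ∫ v in Set.Ioi (0:ℝ), cv (ff mr) (alC (4 * k)) v * Complex.exp (-(s * v)) =
      Fh s * ((s + 1/2) * khat (4 * k) (s + 1/2)) - Jk (ff mr) (alC (4 * k)) s := by
    have h4 := intervalIntegral.integral_Iic_add_Ioi (b := (0:ℝ)) (μ := volume)
      (f := fun v : ℝ => cv (ff mr) (alC (4 * k)) v * Complex.exp (-(s * v))) i1.integrableOn i1.integrableOn
    rw [t1] at h4
    have h5 : ∫ t : ℝ, alC (4 * k) t * Complex.exp (-(s * t)) = (s + 1/2) * khat (4 * k) (s + 1/2) :=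
      al_tr (by omega) (by linarith)
    rw [h5] at h4
    unfold Jk Fh
    rw [← h4]
    ring
  have hz := h.ne_right (w := s + 1/2) (by rw [hre]; linarith) hw1
  have hF := Fh_half h (w := s + 1/2) (by rw [hre]; linarith) hw1
  rw [add_sub_cancel_right] at hF
  have e3 : Fh s * ((s + 1/2) * khat (4 * k) (s + 1/2)) = khat (4 * k) (s + 1/2) / riemannZeta (s + 1/2) := by
    rw [eq_div_iff hz]
    calc _ = khat (4 * k) (s + 1/2) * ((s + 1/2) * riemannZeta (s + 1/2) * Fh s) := by ring
      _ = _ := by rw [hF, mul_one]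
  unfold gg
  simp only [sub_mul]
  rw [integral_sub i1.integrableOn i2, e1, e2, e3]
  unfold GG
  ring

theorem gg_neg (h : GB (ff mr) B) (hk : 1 ≤ k) {s : ℂ} (hs : -(1/4) < s.re) (hs' : s.re < 0) :
    ∫ v in Set.Iic (0:ℝ), gg (4 * k) v * Complex.exp (-(s * v)) = -GG (4 * k) s := by
  have hka : KD (alC (4 * k)) _ := alC_KD (by omega)
  have hkb := be_KD hk
  have hm := ff_meas mr
  have h0 := ff_zero
  have hre : (s + 1/2).re = s.re + 1/2 := by simp
  have hre2 : (1 - (s + 1/2)).re = 1/2 - s.re := by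
    rw [Complex.sub_re, hre, Complex.one_re]; ring
  have hw0 : 1 - (s + 1/2) ≠ 1 := by
    intro h
    rw [h] at hre2
    simp at hre2
    linarith
  obtain ⟨i1, t1⟩ := cv_tr hm h h0 hkb (s := -s) (by rw [Complex.neg_re]; linarith)
    (by rw [Complex.neg_re]; linarith)
  have j1 := Jk_int hm h h0 hka (s := s) (by linarith)
  have j2 := Jk_int hm h h0 hkb (s := -s) (by rw [Complex.neg_re]; linarith)
  have h5 : ∫ t : ℝ, be (4 * k) t * Complex.exp (-(-s * t)) = ∫ t : ℝ, be (4 * k) t * Complex.exp (s * t) := by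
    congr 1
    ext t
    congr 2
    ring
  have i3 : Integrable (fun v : ℝ => cv (ff mr) (be (4 * k)) (-v) * Complex.exp (-(s * v))) := by
    refine i1.comp_neg.congr ?_
    apply Filter.Eventually.of_forall
    intro v
    simp only
    congr 2
    push_cast
    ring
  have e2 : ∫ v in Set.Iic (0:ℝ), cv (ff mr) (be (4 * k)) (-v) * Complex.exp (-(s * v)) =
      Fh (-s) * (∫ t : ℝ, be (4 * k) t * Complex.exp (s * t)) - Jk (ff mr) (be (4 * k)) (-s) := by
    have h6 := integral_comp_neg_Iic (0:ℝ) (fun v : ℝ => cv (ff mr) (be (4 * k)) v * Complex.exp (-(-s * v)))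
    rw [neg_zero] at h6
    have h4 := intervalIntegral.integral_Iic_add_Ioi (b := (0:ℝ)) (μ := volume)
      (f := fun v : ℝ => cv (ff mr) (be (4 * k)) v * Complex.exp (-(-s * v))) i1.integrableOn i1.integrableOn
    rw [t1, h5, ← h6] at h4
    have h7 : ∫ v in Set.Iic (0:ℝ), cv (ff mr) (be (4 * k)) (-v) * Complex.exp (-(-s * ((-v : ℝ) : ℂ))) =
        ∫ v in Set.Iic (0:ℝ), cv (ff mr) (be (4 * k)) (-v) * Complex.exp (-(s * v)) := by
      congr 1
      ext v
      congr 2
      push_cast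
      ring
    rw [h7] at h4
    unfold Jk Fh
    rw [← h4]
    ring
  have hz : riemannZeta (s + 1/2) ≠ 0 := h.ne_left (by rw [hre]; linarith) (by rw [hre]; linarith)
  have hws : s + 1/2 ≠ 0 := by
    intro h
    rw [h] at hre
    simp at hre
    linarith
  have hF := Fh_half h (w := 1 - (s + 1/2)) (by rw [hre2]; linarith) hw0
  rw [show 1 - (s + 1/2) - 1/2 = -s by ring] at hF
  have hfe := fe_kern (m := 4 * k) (by omega) (s := s) (by linarith) (by linarith)
  have e3 : Fh (-s) * (∫ t : ℝ, be (4 * k) t * Complex.exp (s * t)) =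
      khat (4 * k) (s + 1/2) / riemannZeta (s + 1/2) := by
    rw [eq_div_iff hz]
    apply mul_left_cancel₀ hws
    calc (s + 1/2) * (Fh (-s) * (∫ t : ℝ, be (4 * k) t * Complex.exp (s * t)) * riemannZeta (s + 1/2))
        = Fh (-s) * ((∫ t : ℝ, be (4 * k) t * Complex.exp (s * t)) * ((s + 1/2) * riemannZeta (s + 1/2))) := by
          ring
      _ = Fh (-s) * ((s + 1/2) * khat (4 * k) (s + 1/2) * ((1 - (s + 1/2)) * riemannZeta (1 - (s + 1/2)))) := by
          rw [hfe]
      _ = (s + 1/2) * khat (4 * k) (s + 1/2) *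
          ((1 - (s + 1/2)) * riemannZeta (1 - (s + 1/2)) * Fh (-s)) := by ring
      _ = _ := by rw [hF, mul_one]
  unfold gg
  simp only [sub_mul]
  rw [integral_sub j1 i3.integrableOn, e2, e3]
  unfold GG Jk
  ring

theorem GG_spec (h : GB (ff mr) B) (hk : 1 ≤ k) (L : ℝ) :
    ∃ c : ℝ → ℂ, ∀ t ∈ Set.Icc (-L) L,
      ∃ ℓ, Tendsto (fun s => GG (4 * k) s - ∑ γ ∈ ZL L, c γ / (s - γ * Complex.I))
        (𝓝[{s : ℂ | s.re ≠ 0}] (t * Complex.I)) (𝓝 ℓ) := by
  have hm := ff_meas mr
  have h0 := ff_zero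
  have hka : KD (alC (4 * k)) _ := alC_KD (by omega)
  have hkb := be_KD hk
  have hkR : (1:ℝ) ≤ k := by exact_mod_cast hk
  set J : ℂ → ℂ := fun s => Jk (ff mr) (alC (4 * k)) s + Jk (ff mr) (be (4 * k)) (-s) with hJdef
  have hJ : ∀ t : ℝ, ContinuousAt J (t * Complex.I) := by
    intro t
    apply ContinuousAt.add
    · apply Jk_cont hm h h0 hka
      simp
    · apply ContinuousAt.comp (g := Jk (ff mr) (be (4 * k))) (f := fun s : ℂ => -s)
      · apply Jk_cont hm h h0 hkb
        simp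
      · fun_prop
  refine ⟨fun γ => khat (4 * k) ((γ : ℂ) * Complex.I + 1/2) /
      deriv riemannZeta ((γ : ℂ) * Complex.I + 1/2), ?_⟩
  intro t ht
  set c : ℝ → ℂ := fun γ => khat (4 * k) ((γ : ℂ) * Complex.I + 1/2) /
      deriv riemannZeta ((γ : ℂ) * Complex.I + 1/2) with hc
  have hre : ((t : ℂ) * Complex.I + 1/2).re = 1/2 := by simp
  have hkan : AnalyticAt ℂ (khat (4 * k)) ((t : ℂ) * Complex.I + 1/2) := by
    apply khat_ana (by omega)
    rw [hre]
    push_cast
    linarith
  have hne1 : (t : ℂ) * Complex.I + 1/2 ≠ 1 := by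
    intro h
    rw [h] at hre
    norm_num at hre
  have hother : ∀ γ : ℝ, γ ≠ t → ContinuousAt (fun s : ℂ => c γ / (s - γ * Complex.I)) (t * Complex.I) := by
    intro γ hγ
    apply ContinuousAt.div continuousAt_const (by fun_prop)
    rw [← sub_mul]
    apply mul_ne_zero _ Complex.I_ne_zero
    rw [sub_ne_zero]
    exact_mod_cast hγ.symm
  by_cases hz : riemannZeta ((t : ℂ) * Complex.I + 1/2) = 0
  · have hmem : t ∈ ZL L := mem_ZL.2 ⟨ht, hz⟩
    have hsim := h.simple hre hz
    obtain ⟨ℓ, hℓ⟩ := simple_pole (zeta_ana hne1) hkan hz hsim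
    have hshift : Tendsto (fun s : ℂ => s + 1/2) (𝓝[{s : ℂ | s.re ≠ 0}] (t * Complex.I))
        (𝓝[≠] ((t : ℂ) * Complex.I + 1/2)) := by
      rw [tendsto_nhdsWithin_iff]
      constructor
      · have : Tendsto (fun s : ℂ => s + 1/2) (𝓝 (t * Complex.I)) (𝓝 (t * Complex.I + 1/2)) := by
          apply Continuous.tendsto
          fun_prop
        exact this.mono_left nhdsWithin_le_nhds
      · filter_upwards [self_mem_nhdsWithin] with s hs
        simp only [Set.mem_compl_iff, Set.mem_singleton_iff]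
        intro h
        have h' : s = t * Complex.I := add_right_cancel h
        apply hs
        rw [h']
        simp
    have hmain := hℓ.comp hshift
    have hrest : Tendsto (fun s : ℂ => ∑ γ ∈ (ZL L).erase t, c γ / (s - γ * Complex.I))
        (𝓝[{s : ℂ | s.re ≠ 0}] (t * Complex.I))
        (𝓝 (∑ γ ∈ (ZL L).erase t, c γ / (t * Complex.I - γ * Complex.I))) := by
      apply tendsto_finsetSum
      intro γ hγ
      exact (hother γ (Finset.ne_of_mem_erase hγ)).tendsto.mono_left nhdsWithin_le_nhds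
    have hJt := (hJ t).tendsto.mono_left (nhdsWithin_le_nhds (s := {s : ℂ | s.re ≠ 0}))
    refine ⟨ℓ - J (t * Complex.I) - ∑ γ ∈ (ZL L).erase t,
      c γ / (t * Complex.I - γ * Complex.I), ?_⟩
    have htot := (hmain.sub hJt).sub hrest
    apply htot.congr
    intro s
    rw [← Finset.add_sum_erase _ _ hmem]
    simp only [Function.comp_apply, GG, hc, hJdef]
    rw [show s + 1/2 - ((t : ℂ) * Complex.I + 1/2) = s - t * Complex.I by ring]
    ring
  · have hnot : t ∉ ZL L := by
      intro h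
      exact hz (mem_ZL.1 h).2
    have hcont : ContinuousAt (fun s => GG (4 * k) s - ∑ γ ∈ ZL L, c γ / (s - γ * Complex.I))
        (t * Complex.I) := by
      apply ContinuousAt.sub
      · apply ContinuousAt.sub _ (hJ t)
        apply ContinuousAt.div
        · apply ContinuousAt.comp (g := khat (4 * k)) (f := fun s : ℂ => s + 1/2)
          · exact hkan.continuousAt
          · fun_prop
        · apply ContinuousAt.comp (g := riemannZeta) (f := fun s : ℂ => s + 1/2)
          · exact (zeta_ana hne1).continuousAt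
          · fun_prop
        · exact hz
      · apply tendsto_finsetSum
        intro γ hγ
        apply (hother γ ?_).tendsto
        intro h
        rw [h] at hγ
        exact hnot hγ
    exact ⟨_, hcont.tendsto.mono_left nhdsWithin_le_nhds⟩

/-- a growth bound for `gg` -/
theorem gg_bd (h : GB (ff mr) B) (hk : 2 ≤ k) (v : ℝ) :
    ‖gg (4 * k) v‖ ≤ (B * (16 + 44 * ((4 * k : ℕ) : ℝ) ^ (3/8 : ℝ) * CI)) * ell v := by
  have hB := h.nonneg
  have hk2 : (2:ℝ) ≤ k := by exact_mod_cast hk
  have hm8 : (8:ℝ) ≤ ((4 * k : ℕ) : ℝ) := by push_cast; linarith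
  have ei : ∀ t : ℝ, ell t * ‖alC (4 * k) t‖ = ell t * |al ((4 * k : ℕ) : ℝ) t| := by
    intro t
    unfold alC
    rw [Complex.norm_real, Real.norm_eq_abs]
  have hi1 : Integrable (fun t => ell t * ‖alC (4 * k) t‖) := by
    simp only [ei]
    exact ell_al_int hm8
  have h1 := cv_bd h hi1 v
  simp only [ei] at h1
  have h2 := cv_bd h (ell_be_int (by omega : 1 ≤ k)) (-v)
  rw [ell_neg] at h2
  have h3 := ell_al_tot hm8
  have h4 := ell_be_tot (by omega : 1 ≤ k)
  have hv := ell_nonneg v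
  have hBv : 0 ≤ B * ell v := mul_nonneg hB hv
  unfold gg
  calc _ ≤ ‖cv (ff mr) (alC (4 * k)) v‖ + ‖cv (ff mr) (be (4 * k)) (-v)‖ := norm_sub_le _ _
    _ ≤ B * ell v * 16 + B * ell v * (44 * ((4 * k : ℕ) : ℝ) ^ (3/8 : ℝ) * CI) :=
      add_le_add (h1.trans (mul_le_mul_of_nonneg_left h3 hBv)) (h2.trans (mul_le_mul_of_nonneg_left h4 hBv))
    _ = _ := by ring

/-- the trigonometric polynomial -/
theorem gg_repr (h : GB (ff mr) B) (hk : 2 ≤ k) {L : ℝ} (hL : 0 < L) :
    ∃ b : ℝ → ℂ, ∀ u, ∫ v, gg (4 * k) (v + u) * (KL L v : ℂ) =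
      ∑ γ ∈ ZL L, b γ * Complex.exp (γ * u * Complex.I) := by
  obtain ⟨c, hc⟩ := GG_spec h (by omega : 1 ≤ k) L
  have hB := h.nonneg
  have hCI := CI_nonneg
  exact trig_repr (gg_cont h (by omega)) (C := B * (16 + 44 * ((4 * k : ℕ) : ℝ) ^ (3/8 : ℝ) * CI))
    (by positivity) (gg_bd h hk) (r := 1/4) (by norm_num) (fun s hs hs' => gg_pos h (by omega) hs hs')
    (fun s hs hs' => gg_neg h (by omega) hs hs') hL (ZL L) c hc

end

end Pool.Agent.Helper99.MS
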