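import Pool.Agent.Helper99.MS.Param

/-!
# Large sums of the Moebius function in short intervals
-/

namespace Pool.Agent.Helper99.MS

open Finset MeasureTheory Set Filter Topology

theorem psi_le {X : ℕ} (hX : 27 ≤ X) (hX3 : Real.exp (Real.exp (Real.exp 1)) ≤ X) {n : ℕ} (hn : X ≤ n) :
    0 < Real.log (Real.log n) ∧ 1 ≤ Real.log (Real.log (Real.log n)) ∧
      Psi n ≤ Real.log (Real.log n) := by
  obtain ⟨hl1, hl3⟩ := llog_ge (hX.trans hn)
  have hnX : (X : ℝ) ≤ n := by exact_mod_cast hn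
  have hn0 : (0:ℝ) < n := lt_of_lt_of_le (Real.exp_pos _) (hX3.trans hnX)
  have h1 : Real.exp (Real.exp 1) ≤ Real.log n := by
    rw [Real.le_log_iff_exp_le hn0]; linarith
  have h2 : Real.exp 1 ≤ Real.log (Real.log n) := by
    rw [Real.le_log_iff_exp_le (by linarith)]; exact h1
  have h3 : 1 ≤ Real.log (Real.log (Real.log n)) := by
    rw [Real.le_log_iff_exp_le (by linarith)]; exact h2
  refine ⟨by linarith, h3, ?_⟩
  unfold Psi
  exact div_le_self (by linarith) (one_le_pow₀ h3)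

theorem no_HS {δ : ℝ} (hδ : 0 < δ) (hδ1 : δ ≤ 1) {X : ℕ} (hX : 27 ≤ X)
    (hX3 : Real.exp (Real.exp (Real.exp 1)) ≤ X) (h : HS mr Psi δ X) : False := by
  have hB := h.growth abs_mr hδ.le hX (fun n hn => (psi_le hX hX3 hn).2.2)
  set B : ℝ := 2 * X + 16 with hBdef
  have hB0 : 0 ≤ B := hB.nonneg
  have hCE := CE_nonneg
  -- limits
  have T1 := ((t_e1 B).add (t_e2 hB0)).const_mul (2 * Real.pi)
  have T2 := t_c1 (B * (32 + 228 * CE) + 1)
  have T3 := t_c2 hB0
  have T5 := t_c5 hB0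
  have T := ((T1.add T2).add T3).add T5
  simp only [add_zero, mul_zero] at T
  have hpi := Real.pi_gt_three
  have hlim : ∀ᶠ m : ℝ in atTop, 2 * Real.pi * (e1 B m (pθ m) + e2 B m (pY m) (pη m)) +
      (B * (32 + 228 * CE) + 1) * (16 / (pL m * pθ m)) + cC2 B m * (96 / pL m) +
      cC2 B m * (pY m + 3) * (96 / (pL m * √(Real.exp (pY m / 2) / 2))) ≤ (2 * Real.pi - 1) * δ := by
    apply T.eventually (ge_mem_nhds _)
    have : 0 < 2 * Real.pi - 1 := by linarith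
    positivity
  have hE1 := (t_e1 B).eventually (ge_mem_nhds (show (0:ℝ) < 1/10 by norm_num))
  have hpig := t_pig hB0 hδ
  have hall := (((hlim.and hE1).and hpig).and basic).and (eventually_ge_atTop (2 * (X : ℝ) + 16))
  obtain ⟨m₀, hm₀⟩ := eventually_atTop.1 hall
  obtain ⟨k, hk⟩ := exists_nat_ge (max m₀ 2)
  have hk1 : m₀ ≤ k := (le_max_left _ _).trans hk
  have hk2 : (2:ℝ) ≤ k := (le_max_right _ _).trans hk
  have hk2' : 2 ≤ k := by exact_mod_cast hk2
  have hmk : m₀ ≤ ((4 * k : ℕ) : ℝ) := by push_cast; linarith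
  obtain ⟨⟨⟨⟨c1, c3⟩, c4⟩, hb⟩, c5⟩ := hm₀ _ hmk
  set m : ℝ := ((4 * k : ℕ) : ℝ) with hm
  have hb' := hb
  obtain ⟨b1, b2, b3, b4, b5, b6⟩ := hb
  have hm1 : (1:ℝ) ≤ m := by linarith
  have hm0 : 0 < m := by linarith
  have hlm : 0 < lm m := by linarith
  have hs0 : 0 < √m := by linarith
  have hθ0 : 0 < pθ m := by unfold pθ; positivity
  have hη0 : 0 ≤ pη m := by unfold pη; positivity
  have hL1 : 1 ≤ pL m := by
    unfold pL
    have : 1 ≤ lm m ^ 2 := one_le_pow₀ (by linarith)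
    nlinarith
  have hY1 : 1 ≤ pY m := by
    unfold pY
    have : 1 ≤ lm m ^ 19 := one_le_pow₀ (by linarith)
    nlinarith
  have hE := exp_big b1 b2 b6
  have hm4 : 16 * m ≤ m ^ 4 := by
    have h3 : (16:ℝ) ≤ m ^ 3 := by
      have h8 : (8:ℝ) ^ 3 ≤ m ^ 3 := pow_le_pow_left₀ (by norm_num) b1 3
      linarith
    calc 16 * m ≤ m ^ 3 * m := mul_le_mul_of_nonneg_right h3 hm0.le
      _ = m ^ 4 := by ring
  have hd1 : e1 B m (pθ m) = pθ m + m * (pθ m) ^ 2 + Real.exp (-(m / 16)) +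
      16 * B * Real.exp (-((m - 4) / 16)) + 228 * B * CE / √m := rfl
  have hd2 : 0 ≤ 16 * B * Real.exp (-((m - 4) / 16)) := by positivity
  have hd3 : 0 ≤ 228 * B * CE / √m := by positivity
  have hd4 : 0 ≤ m * (pθ m) ^ 2 := by positivity
  have hd5 := Real.exp_pos (-(m / 16))
  have hψ1 : 1 ≤ pψ m := by
    unfold pψ
    rw [le_div_iff₀ (by positivity)]
    linarith
  have hψm : pψ m ≤ m := by
    unfold pψ
    have h1 : 1 ≤ 64 * lm m ^ 4 := by
      have : 1 ≤ lm m ^ 4 := one_le_pow₀ (by linarith)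
      linarith
    have h2 : √m ≤ m := by
      have hs : √m * √m = m := Real.mul_self_sqrt hm0.le
      nlinarith
    exact (div_le_self hs0.le h1).trans h2
  refine contra (J := ⌊Real.exp (pY m / 2)⌋₊) (L := pL m) (θ := pθ m) (Y := pY m)
    (η := pη m) (τ := Real.exp (pY m / 2)) (ε := δ) (ψ := pψ m) hδ1 h hB hk2' hm
    hL1 hθ0 (by linarith) (by linarith) hY1 hη0 hψ1 ?_ (fun n _ hn1 hn2 => psi_bd hb' hn1 hn2)
    (by linarith) (by linarith) ?_ hδ c4 (by linarith)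
  · unfold pη pψ
    apply le_of_eq
    field_simp
    norm_num
  · have h1 : (⌊Real.exp (pY m / 2)⌋₊ : ℝ) ≤ Real.exp (pY m / 2) := Nat.floor_le (Real.exp_pos _).le
    calc (⌊Real.exp (pY m / 2)⌋₊ : ℝ) * Real.exp (pY m / 2) ≤ Real.exp (pY m / 2) * Real.exp (pY m / 2) :=
          mul_le_mul_of_nonneg_right h1 (Real.exp_pos _).le
      _ = Real.exp (pY m) := by rw [← Real.exp_add]; congr 1; ring

/-- The theorem. -/
theorem short_intervals (δ : ℝ) (hδ : 0 < δ) (X : ℕ) :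
    ∃ x h : ℕ, X ≤ x ∧ 1 ≤ h ∧
      (h : ℝ) ≤ (x : ℝ) * Real.log (Real.log (Real.log x)) ^ 3 / Real.log (Real.log x) ∧
      (1 - δ) * √(x : ℝ) < |∑ n ∈ Finset.Ioc x (x + h), ((ArithmeticFunction.moebius n : ℤ) : ℝ)| := by
  set δ' : ℝ := min δ 1 with hδ'
  have h3 : 0 < δ' := lt_min hδ one_pos
  have h4 : δ' ≤ 1 := min_le_right _ _
  obtain ⟨M, hM⟩ := exists_nat_ge (Real.exp (Real.exp (Real.exp 1)))
  set X' : ℕ := max X (max 27 M) with hX'
  have hX1 : X ≤ X' := le_max_left _ _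
  have hX2 : 27 ≤ X' := (le_max_left _ _).trans (le_max_right _ _)
  have hX3 : M ≤ X' := (le_max_right _ _).trans (le_max_right _ _)
  have hX4 : Real.exp (Real.exp (Real.exp 1)) ≤ X' := hM.trans (by exact_mod_cast hX3)
  have h5 : ¬ HS mr Psi δ' X' := fun h => no_HS h3 h4 hX2 hX4 h
  unfold HS at h5
  push Not at h5
  obtain ⟨x, h, hx, hh, hle, hlt⟩ := h5
  obtain ⟨hp1, hp2, _⟩ := psi_le hX2 hX4 hx
  refine ⟨x, h, hX1.trans hx, hh, ?_, ?_⟩
  · unfold Psi at hle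
    rw [le_div_iff₀ hp1]
    have h6 : 0 < Real.log (Real.log (Real.log x)) ^ 3 := by positivity
    have h7 := mul_le_mul_of_nonneg_right hle h6.le
    calc (h : ℝ) * Real.log (Real.log x) =
        (h : ℝ) * (Real.log (Real.log x) / Real.log (Real.log (Real.log x)) ^ 3) *
          Real.log (Real.log (Real.log x)) ^ 3 := by field_simp
      _ ≤ _ := h7
  · refine lt_of_le_of_lt ?_ hlt
    apply mul_le_mul_of_nonneg_right _ (Real.sqrt_nonneg _)
    have : δ' ≤ δ := min_le_left _ _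
    linarith

end Pool.Agent.Helper99.MS
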