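import Pool.Agent.Helper99.MS.Ell

/-!
# Laplace transforms of normalised summatory functions
-/

namespace Pool.Agent.Helper99.MS

open Finset MeasureTheory Set Filter Topology

/-- summatory function -/
noncomputable def Asum (c : ℕ → ℝ) (x : ℝ) : ℝ := ∑ n ∈ Finset.Icc 1 ⌊x⌋₊, c n

/-- normalised summatory function in the logarithmic variable -/
noncomputable def ff (c : ℕ → ℝ) (u : ℝ) : ℝ := Asum c (Real.exp u) * Real.exp (-(u / 2))

theorem Asum_zero {c : ℕ → ℝ} {x : ℝ} (hx : x < 1) : Asum c x = 0 := by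
  unfold Asum
  rw [Nat.floor_eq_zero.2 hx]
  simp

theorem ff_neg {c : ℕ → ℝ} {u : ℝ} (hu : u < 0) : ff c u = 0 := by
  unfold ff
  rw [Asum_zero (Real.exp_lt_one_iff.2 hu), zero_mul]

theorem Asum_meas (c : ℕ → ℝ) : Measurable (Asum c) := by
  have : Asum c = (fun N : ℕ => ∑ n ∈ Finset.Icc 1 N, c n) ∘ (fun x : ℝ => ⌊x⌋₊) := rfl
  rw [this]
  exact (measurable_from_nat).comp Nat.measurable_floor

theorem ff_meas (c : ℕ → ℝ) : Measurable (ff c) := by
  unfold ff
  exact ((Asum_meas c).comp Real.measurable_exp).mul (by fun_prop)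

/-- growth bound -/
def GB (F : ℝ → ℝ) (B : ℝ) : Prop := ∀ u, |F u| ≤ B * ell u

theorem GB.nonneg {F : ℝ → ℝ} {B : ℝ} (h : GB F B) : 0 ≤ B := by
  have h1 := h 0
  have h2 : ell 0 = 1 := by simp [ell]
  rw [h2, mul_one] at h1
  exact (abs_nonneg _).trans h1

/-- two-sided Laplace transform -/
noncomputable def Lp (F : ℝ → ℂ) (s : ℂ) : ℂ := ∫ u : ℝ, F u * Complex.exp (-(s * u))

theorem lap_bd {F : ℝ → ℝ} {B : ℝ} (h : GB F B) (h0 : ∀ u < 0, F u = 0) (s : ℂ) (u : ℝ) :
    ‖(F u : ℂ) * Complex.exp (-(s * u))‖ ≤ B * (ell u * Real.exp (-s.re * |u|)) := by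
  rcases lt_or_ge u 0 with hu | hu
  · rw [h0 u hu]
    simp only [Complex.ofReal_zero, zero_mul, norm_zero]
    have := h.nonneg
    have := ell_nonneg u
    positivity
  · rw [norm_mul, Complex.norm_exp, Complex.norm_real, Real.norm_eq_abs, abs_of_nonneg hu, ← mul_assoc]
    have : (-(s * (u:ℂ))).re = -s.re * u := by simp
    rw [this]
    exact mul_le_mul_of_nonneg_right (h u) (Real.exp_pos _).le

theorem lap_int {F : ℝ → ℝ} (hm : Measurable F) {B : ℝ} (h : GB F B) (h0 : ∀ u < 0, F u = 0)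
    {s : ℂ} (hs : 0 < s.re) : Integrable (fun u : ℝ => (F u : ℂ) * Complex.exp (-(s * u))) := by
  refine Integrable.mono' ((ell_exp_int hs).const_mul B) ?_ ?_
  · apply AEStronglyMeasurable.mul
    · exact (Complex.measurable_ofReal.comp hm).aestronglyMeasurable
    · apply Continuous.aestronglyMeasurable
      fun_prop
  · exact Filter.Eventually.of_forall (lap_bd h h0 s)

theorem lap_diff {F : ℝ → ℝ} (hm : Measurable F) {B : ℝ} (h : GB F B) (h0 : ∀ u < 0, F u = 0)
    {s : ℂ} (hs : 0 < s.re) : DifferentiableAt ℂ (Lp (fun u => (F u : ℂ))) s := by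
  set σ := s.re / 2 with hσ
  have hσ0 : 0 < σ := by positivity
  have hmC : Measurable (fun u => (F u : ℂ)) := Complex.measurable_ofReal.comp hm
  have hb : Integrable (fun u : ℝ => B * (2 / σ) * (ell u * Real.exp (-(σ / 2) * |u|))) :=
    (ell_exp_int (by positivity)).const_mul _
  have key := hasDerivAt_integral_of_dominated_loc_of_deriv_le (μ := volume) (𝕜 := ℂ)
    (F := fun (z : ℂ) (u : ℝ) => (F u : ℂ) * Complex.exp (-(z * u)))
    (F' := fun (z : ℂ) (u : ℝ) => (F u : ℂ) * (Complex.exp (-(z * u)) * (-(u:ℂ))))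
    (x₀ := s) (s := Metric.ball s σ) (bound := fun u : ℝ => B * (2 / σ) * (ell u * Real.exp (-(σ / 2) * |u|)))
    (Metric.ball_mem_nhds s hσ0) ?_ (lap_int hm h h0 hs) ?_ ?_ hb ?_
  · exact key.2.differentiableAt
  · apply Filter.Eventually.of_forall
    intro z
    apply AEStronglyMeasurable.mul hmC.aestronglyMeasurable
    apply Continuous.aestronglyMeasurable
    fun_prop
  · apply AEStronglyMeasurable.mul hmC.aestronglyMeasurable
    apply Continuous.aestronglyMeasurable
    fun_prop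
  · apply Filter.Eventually.of_forall
    intro u z hz
    have hzre : σ ≤ z.re := by
      have h1 : |(z - s).re| ≤ ‖z - s‖ := Complex.abs_re_le_norm _
      have h2 : ‖z - s‖ < σ := by simpa [dist_eq_norm] using hz
      rw [Complex.sub_re] at h1
      have h3 := (abs_lt.1 (lt_of_le_of_lt h1 h2)).1
      linarith
    have h1 := lap_bd h h0 z u
    rw [← mul_assoc, norm_mul, norm_neg, Complex.norm_real, Real.norm_eq_abs]
    have hB := h.nonneg
    have hl := ell_nonneg u
    have h2 : Real.exp (-z.re * |u|) * |u| ≤ (2 / σ) * Real.exp (-(σ / 2) * |u|) := by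
      have h3 : Real.exp (-z.re * |u|) ≤ Real.exp (-(σ / 2) * |u|) * Real.exp (-(σ / 2) * |u|) := by
        rw [← Real.exp_add]
        apply Real.exp_le_exp.2
        have := abs_nonneg u
        nlinarith
      have h4 : |u| ≤ (2 / σ) * Real.exp ((σ / 2) * |u|) := by
        have h5 := Real.add_one_le_exp ((σ / 2) * |u|)
        have h6 : |u| = (2 / σ) * ((σ / 2) * |u|) := by field_simp
        calc |u| = (2 / σ) * ((σ / 2) * |u|) := h6
          _ ≤ _ := mul_le_mul_of_nonneg_left (by linarith) (by positivity)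
      calc Real.exp (-z.re * |u|) * |u| ≤ (Real.exp (-(σ / 2) * |u|) * Real.exp (-(σ / 2) * |u|)) *
            ((2 / σ) * Real.exp ((σ / 2) * |u|)) := mul_le_mul h3 h4 (abs_nonneg u) (by positivity)
        _ = (2 / σ) * Real.exp (-(σ / 2) * |u|) * (Real.exp (-(σ / 2) * |u|) * Real.exp ((σ / 2) * |u|)) := by
            ring
        _ = _ := by
            rw [← Real.exp_add]
            simp
    calc ‖(F u : ℂ) * Complex.exp (-(z * u))‖ * |u| ≤ B * (ell u * Real.exp (-z.re * |u|)) * |u| :=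
          mul_le_mul_of_nonneg_right h1 (abs_nonneg u)
      _ = B * (ell u * (Real.exp (-z.re * |u|) * |u|)) := by ring
      _ ≤ B * (ell u * ((2 / σ) * Real.exp (-(σ / 2) * |u|))) := by
          apply mul_le_mul_of_nonneg_left _ hB
          exact mul_le_mul_of_nonneg_left h2 hl
      _ = _ := by ring
  · apply Filter.Eventually.of_forall
    intro u z _
    have : HasDerivAt (fun z : ℂ => -(z * u)) (-(u:ℂ)) z := by
      have h := ((hasDerivAt_id z).mul_const (u:ℂ)).neg
      rw [one_mul] at h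
      exact h
    exact (this.cexp).const_mul _

theorem ofReal_exp_cpow (u : ℝ) (z : ℂ) : ((Real.exp u : ℝ) : ℂ) ^ z = Complex.exp (z * u) := by
  rw [Complex.cpow_def_of_ne_zero (by
    rw [Ne, Complex.ofReal_eq_zero]; exact (Real.exp_pos u).ne'), ← Complex.ofReal_log (Real.exp_pos u).le,
    Real.log_exp]
  ring_nf

theorem exp_image : Real.exp '' (Set.Ioi 0) = Set.Ioi 1 := by
  ext y
  simp only [Set.mem_image, Set.mem_Ioi]
  constructor
  · rintro ⟨x, hx, rfl⟩
    exact Real.one_lt_exp_iff.2 hx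
  · intro hy
    exact ⟨Real.log y, Real.log_pos hy, Real.exp_log (by linarith)⟩

theorem lap_LSeries {c : ℕ → ℝ} (hc : ∀ n, |c n| ≤ 1) {w : ℂ} (hw : 1 < w.re) :
    w * Lp (fun u => (ff c u : ℂ)) (w - 1/2) = LSeries (fun n => (c n : ℂ)) w := by
  have hO : (fun n ↦ ∑ k ∈ Finset.Icc 1 n, ‖(c k : ℂ)‖) =O[atTop] fun n : ℕ ↦ (n : ℝ) ^ (1:ℝ) := by
    apply Asymptotics.IsBigO.of_bound 1
    apply Filter.Eventually.of_forall
    intro n
    rw [Real.norm_of_nonneg (Finset.sum_nonneg (fun _ _ => norm_nonneg _)), Real.rpow_one, one_mul,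
      Real.norm_of_nonneg (Nat.cast_nonneg n)]
    calc ∑ k ∈ Finset.Icc 1 n, ‖(c k : ℂ)‖ ≤ ∑ k ∈ Finset.Icc 1 n, (1:ℝ) := by
          apply Finset.sum_le_sum
          intro k _
          rw [Complex.norm_real]
          exact hc k
      _ = n := by simp
  rw [LSeries_eq_mul_integral' (fun n => (c n : ℂ)) zero_le_one hw hO]
  congr 1
  have h1 := integral_image_eq_integral_abs_deriv_smul (s := Set.Ioi (0:ℝ)) (f := Real.exp)
    (f' := Real.exp) measurableSet_Ioi (fun x _ => (Real.hasDerivAt_exp x).hasDerivWithinAt)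
    Real.exp_injective.injOn (fun t : ℝ => (∑ k ∈ Finset.Icc 1 ⌊t⌋₊, (c k : ℂ)) * (t : ℂ) ^ (-(w + 1)))
  rw [exp_image] at h1
  rw [h1]
  unfold Lp
  rw [← setIntegral_eq_integral_of_forall_compl_eq_zero (s := Set.Ici (0:ℝ)), integral_Ici_eq_integral_Ioi]
  · apply setIntegral_congr_fun measurableSet_Ioi
    intro u _
    simp only
    rw [abs_of_pos (Real.exp_pos u), ofReal_exp_cpow, Complex.real_smul]
    unfold ff Asum
    push_cast
    have e1 : Complex.exp (-((w - 1/2) * u)) = Complex.exp (-(w * u)) * Complex.exp (u / 2) := by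
      rw [← Complex.exp_add]; congr 1; ring
    have e2 : Complex.exp (-(w + 1) * u) = Complex.exp (-(w * u)) * Complex.exp (-u) := by
      rw [← Complex.exp_add]; congr 1; ring
    rw [e1, e2]
    have e3 : Complex.exp (-(u / 2)) * Complex.exp (u / 2) = 1 := by
      rw [← Complex.exp_add]; simp
    have e4 : Complex.exp (u:ℂ) * Complex.exp (-u) = 1 := by
      rw [← Complex.exp_add]; simp
    calc _ = (∑ x ∈ Finset.Icc 1 ⌊Real.exp u⌋₊, (c x : ℂ)) * Complex.exp (-(w * u)) *
          (Complex.exp (-(u / 2)) * Complex.exp (u / 2)) := by ring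
      _ = (∑ x ∈ Finset.Icc 1 ⌊Real.exp u⌋₊, (c x : ℂ)) * Complex.exp (-(w * u)) *
          (Complex.exp (u:ℂ) * Complex.exp (-u)) := by rw [e3, e4]
      _ = _ := by ring
  · intro u hu
    have h2 : u < 0 := lt_of_not_ge hu
    simp only [ff_neg h2]
    simp

end Pool.Agent.Helper99.MS
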