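import Pool.Agent.Helper99.MS.Trig

/-!
# Tail estimates for the Fejer kernel and two abstract smoothing bounds
-/

namespace Pool.Agent.Helper99.MS

open Finset MeasureTheory Set Filter Topology

theorem tail_gen {f : ℝ → ℝ} (hf : Integrable f) {C s ρ : ℝ} (hs : 1 < s) (hρ : 0 < ρ)
    (hb : ∀ v, ρ < |v| → f v ≤ C * |v| ^ (-s)) :
    ∫ v in (Set.Icc (-ρ) ρ)ᶜ, f v ≤ 2 * C * (ρ ^ (1 - s) / (s - 1)) := by
  have hset : (Set.Icc (-ρ) ρ)ᶜ = Set.Iio (-ρ) ∪ Set.Ioi ρ := by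
    ext v
    simp only [Set.mem_compl_iff, Set.mem_Icc, not_and_or, not_le, Set.mem_union, Set.mem_Iio, Set.mem_Ioi]
  have hdisj : Disjoint (Set.Iio (-ρ)) (Set.Ioi ρ) := by
    rw [Set.disjoint_left]
    intro v h1 h2
    have h1' : v < -ρ := h1
    have h2' : ρ < v := h2
    linarith
  have hint : IntegrableOn (fun t : ℝ => C * t ^ (-s)) (Set.Ioi ρ) :=
    (integrableOn_Ioi_rpow_of_lt (by linarith) hρ).const_mul C
  have hval : ∫ t in Set.Ioi ρ, C * t ^ (-s) = C * (ρ ^ (1 - s) / (s - 1)) := by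
    rw [integral_const_mul, integral_Ioi_rpow_of_lt (by linarith) hρ]
    rw [show -s + 1 = 1 - s by ring, neg_div, show (1 - s) = -(s - 1) by ring, div_neg, neg_neg]
  rw [hset, setIntegral_union hdisj measurableSet_Ioi hf.integrableOn hf.integrableOn]
  have h1 : ∫ v in Set.Ioi ρ, f v ≤ C * (ρ ^ (1 - s) / (s - 1)) := by
    rw [← hval]
    apply setIntegral_mono_on hf.integrableOn hint measurableSet_Ioi
    intro v hv
    have hv' : ρ < v := hv
    have hv0 : 0 < v := by linarith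
    have := hb v (by rw [abs_of_pos hv0]; exact hv')
    rwa [abs_of_pos hv0] at this
  have h2 : ∫ v in Set.Iio (-ρ), f v ≤ C * (ρ ^ (1 - s) / (s - 1)) := by
    rw [← hval, ← integral_Iic_eq_integral_Iio]
    have e := integral_comp_neg_Ioi ρ (fun v => f v)
    rw [← e]
    apply setIntegral_mono_on hf.comp_neg.integrableOn hint measurableSet_Ioi
    intro v hv
    have hv' : ρ < v := hv
    have hv0 : 0 < v := by linarith
    have := hb (-v) (by rw [abs_neg, abs_of_pos hv0]; exact hv')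
    rwa [abs_neg, abs_of_pos hv0] at this
  linarith

theorem KL_tail {L θ : ℝ} (hL : 0 < L) (hθ : 0 < θ) :
    ∫ v in (Set.Icc (-θ) θ)ᶜ, KL L v ≤ 16 / (L * θ) := by
  have h := tail_gen (KL_int hL) (C := 8 / L) (s := 2) (ρ := θ) (by norm_num) hθ (by
    intro v hv
    have hv0 : 0 < |v| := by linarith
    have hv1 : v ≠ 0 := abs_pos.1 hv0
    refine (KL_le2 hL hv1).trans (le_of_eq ?_)
    rw [show (-2:ℝ) = ((-2:ℤ):ℝ) by norm_num, Real.rpow_intCast]
    rw [zpow_neg]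
    have : |v| ^ (2:ℤ) = v ^ 2 := by
      rw [show (2:ℤ) = ((2:ℕ):ℤ) by norm_num, zpow_natCast, sq_abs]
    rw [this]
    field_simp)
  refine h.trans (le_of_eq ?_)
  rw [show (1:ℝ) - 2 = -1 by norm_num, Real.rpow_neg_one]
  field_simp
  norm_num

theorem ell_KL_tail {L ρ : ℝ} (hL : 0 < L) (hρ : 1 ≤ ρ) :
    ∫ v in (Set.Icc (-ρ) ρ)ᶜ, ell v * KL L v ≤ 96 / (L * √ρ) := by
  have hρ0 : 0 < ρ := by linarith
  have h := tail_gen (ell_KL_int hL) (C := 24 / L) (s := 3/2) (ρ := ρ) (by norm_num) hρ0 (by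
    intro v hv
    have hv0 : 0 < |v| := by linarith
    have hv1 : v ≠ 0 := abs_pos.1 hv0
    have h1 := KL_le2 hL hv1
    have h2 := ell_le_sqrt v
    have h3 : √(1 + |v|) ≤ 3/2 * √|v| := by
      rw [show (3/2:ℝ) = √(9/4) by
        rw [show (9/4:ℝ) = (3/2)^2 by norm_num]; exact (Real.sqrt_sq (by norm_num)).symm, ← Real.sqrt_mul (by norm_num)]
      apply Real.sqrt_le_sqrt
      linarith
    have h4 : ell v ≤ 3 * √|v| := by linarith
    calc ell v * KL L v ≤ (3 * √|v|) * (8 / (L * v ^ 2)) :=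
          mul_le_mul h4 h1 (KL_nonneg hL v) (by positivity)
      _ = 24 / L * |v| ^ (-(3/2) : ℝ) := by
          rw [show -(3/2:ℝ) = 1/2 + (-2) by norm_num, Real.rpow_add hv0, ← Real.sqrt_eq_rpow,
            show (-2:ℝ) = ((-2:ℤ):ℝ) by norm_num, Real.rpow_intCast, zpow_neg]
          have : |v| ^ (2:ℤ) = v ^ 2 := by
            rw [show (2:ℤ) = ((2:ℕ):ℤ) by norm_num, zpow_natCast, sq_abs]
          rw [this]
          field_simp
          norm_num)
  refine h.trans (le_of_eq ?_)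
  rw [show (1:ℝ) - 3/2 = -(1/2) by norm_num, Real.rpow_neg hρ0.le, ← Real.sqrt_eq_rpow]
  have : √ρ ≠ 0 := (Real.sqrt_pos.2 hρ0).ne'
  field_simp
  norm_num

section
variable {g : ℝ → ℂ} {C₁ C₂ ε₁ L θ : ℝ}

theorem re_int (hg : Continuous g) (hC0 : 0 ≤ C₂) (hC : ∀ v, ‖g v‖ ≤ C₂ * ell v) (hL : 0 < L) (u : ℝ) :
    (∫ v, g (v + u) * (KL L v : ℂ)).re = ∫ v, (g (v + u)).re * KL L v ∧
      Integrable (fun v => (g (v + u)).re * KL L v) := by
  have hi := gKL_int hg hC0 hC hL u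
  have e : ∀ v, (g (v + u) * (KL L v : ℂ)).re = (g (v + u)).re * KL L v := by
    intro v
    rw [Complex.re_mul_ofReal]
  constructor
  · have h1 := integral_re hi
    simp only [RCLike.re_to_complex, e] at h1
    exact h1.symm
  · have h2 := hi.re
    simp only [RCLike.re_to_complex, e] at h2
    exact h2

/-- lower bound at the origin -/
theorem low_zero (hg : Continuous g) (hC : ∀ v, ‖g v‖ ≤ C₂ * ell v) (hC₂ : 0 ≤ C₂)
    (hC₁ : 0 ≤ C₁) (h1 : ∀ v, |v| ≤ 1 → ‖g v‖ ≤ C₁) (hθ : 0 < θ) (hε : 0 ≤ ε₁)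
    (h2 : ∀ v, |v| ≤ θ → 1 - ε₁ ≤ (g v).re) (hL : 0 < L) :
    2 * Real.pi * (1 - ε₁) - (C₁ + 1) * (16 / (L * θ)) - C₂ * (96 / L) ≤
      (∫ v, g (v + 0) * (KL L v : ℂ)).re := by
  obtain ⟨e, hi⟩ := re_int hg hC₂ hC hL 0
  rw [e]
  have i1 := (KL_int hL).const_mul (1 - ε₁)
  have i2 := ((KL_int hL).indicator (measurableSet_Icc (a := -θ) (b := θ)).compl).const_mul (C₁ + 1)
  have i3 := ((ell_KL_int hL).indicator (measurableSet_Icc (a := -(1:ℝ)) (b := 1)).compl).const_mul C₂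
  have i12 : Integrable (fun v => (1 - ε₁) * KL L v - (C₁ + 1) * ((Set.Icc (-θ) θ)ᶜ.indicator (KL L) v)) :=
    i1.sub i2
  have i123 : Integrable (fun v => (1 - ε₁) * KL L v - (C₁ + 1) * ((Set.Icc (-θ) θ)ᶜ.indicator (KL L) v) -
      C₂ * ((Set.Icc (-(1:ℝ)) 1)ᶜ.indicator (fun v => ell v * KL L v) v)) := i12.sub i3
  have hlow : ∫ v, ((1 - ε₁) * KL L v - (C₁ + 1) * ((Set.Icc (-θ) θ)ᶜ.indicator (KL L) v) -
      C₂ * ((Set.Icc (-(1:ℝ)) 1)ᶜ.indicator (fun v => ell v * KL L v) v)) ≤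
      ∫ v, (g (v + 0)).re * KL L v := by
    apply integral_mono i123 hi
    intro v
    simp only [add_zero]
    have hK := KL_nonneg hL v
    have hl := one_le_ell v
    have hre := (abs_le.1 (Complex.abs_re_le_norm (g v))).1
    by_cases hv : v ∈ Set.Icc (-θ) θ
    · rw [Set.indicator_of_notMem (show v ∉ (Set.Icc (-θ) θ)ᶜ from fun h => h hv)]
      have h3 := h2 v (abs_le.2 hv)
      have h4 : 0 ≤ C₂ * ((Set.Icc (-(1:ℝ)) 1)ᶜ.indicator (fun v => ell v * KL L v) v) := by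
        apply mul_nonneg hC₂
        apply Set.indicator_nonneg
        intro x _
        exact mul_nonneg (ell_nonneg x) (KL_nonneg hL x)
      have h5 := mul_le_mul_of_nonneg_right h3 hK
      linarith
    · rw [Set.indicator_of_mem (show v ∈ (Set.Icc (-θ) θ)ᶜ from hv)]
      by_cases hv1 : v ∈ Set.Icc (-(1:ℝ)) 1
      · rw [Set.indicator_of_notMem (show v ∉ (Set.Icc (-(1:ℝ)) 1)ᶜ from fun h => h hv1)]
        have h3 := h1 v (abs_le.2 hv1)
        have h4 : (1 - ε₁) - (C₁ + 1) ≤ (g v).re := by linarith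
        have h5 := mul_le_mul_of_nonneg_right h4 hK
        linarith
      · rw [Set.indicator_of_mem (show v ∈ (Set.Icc (-(1:ℝ)) 1)ᶜ from hv1)]
        have h3 := hC v
        have h4 : (1 - ε₁) - (C₁ + 1) - C₂ * ell v ≤ (g v).re := by linarith
        have h5 := mul_le_mul_of_nonneg_right h4 hK
        linarith
  refine le_trans ?_ hlow
  rw [integral_sub i12 i3, integral_sub i1 i2, integral_const_mul, integral_const_mul,
    integral_const_mul, KL_tot hL, integral_indicator (measurableSet_Icc).compl,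
    integral_indicator (measurableSet_Icc).compl]
  have t1 := mul_le_mul_of_nonneg_left (KL_tail hL hθ) (show 0 ≤ C₁ + 1 by linarith)
  have t2 := ell_KL_tail hL (le_refl (1:ℝ))
  rw [Real.sqrt_one, mul_one] at t2
  have t3 := mul_le_mul_of_nonneg_left t2 hC₂
  linarith

/-- upper bound at a far point -/
theorem up_far (hg : Continuous g) (hC : ∀ v, ‖g v‖ ≤ C₂ * ell v) (hC₂ : 0 ≤ C₂)
    {u ρ c : ℝ} (hρ : 1 ≤ ρ) (hc : 0 ≤ c)
    (h1 : ∀ v, |v| ≤ ρ → (g (v + u)).re ≤ c) (hL : 0 < L) :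
    (∫ v, g (v + u) * (KL L v : ℂ)).re ≤ 2 * Real.pi * c + C₂ * ell u * (96 / (L * √ρ)) := by
  obtain ⟨e, hi⟩ := re_int hg hC₂ hC hL u
  rw [e]
  have hu := ell_nonneg u
  have i1 := (KL_int hL).const_mul c
  have i3 := ((ell_KL_int hL).indicator (measurableSet_Icc (a := -ρ) (b := ρ)).compl).const_mul (C₂ * ell u)
  have i13 : Integrable (fun v => c * KL L v +
      (C₂ * ell u) * ((Set.Icc (-ρ) ρ)ᶜ.indicator (fun v => ell v * KL L v) v)) := i1.add i3
  have hup : ∫ v, (g (v + u)).re * KL L v ≤ ∫ v, (c * KL L v +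
      (C₂ * ell u) * ((Set.Icc (-ρ) ρ)ᶜ.indicator (fun v => ell v * KL L v) v)) := by
    apply integral_mono hi i13
    intro v
    simp only
    have hK := KL_nonneg hL v
    have hre := (abs_le.1 (Complex.abs_re_le_norm (g (v + u)))).2
    by_cases hv : v ∈ Set.Icc (-ρ) ρ
    · rw [Set.indicator_of_notMem (show v ∉ (Set.Icc (-ρ) ρ)ᶜ from fun h => h hv)]
      have h3 := mul_le_mul_of_nonneg_right (h1 v (abs_le.2 hv)) hK
      linarith
    · rw [Set.indicator_of_mem (show v ∈ (Set.Icc (-ρ) ρ)ᶜ from hv)]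
      have h3 := hC (v + u)
      have h4 := mul_le_mul_of_nonneg_left (ell_add v u) hC₂
      have h5 : (g (v + u)).re ≤ c + C₂ * ell u * ell v := by
        have : C₂ * (ell v * ell u) = C₂ * ell u * ell v := by ring
        linarith
      have h6 := mul_le_mul_of_nonneg_right h5 hK
      calc _ ≤ _ := h6
        _ = _ := by ring
  refine hup.trans ?_
  rw [integral_add i1 i3, integral_const_mul, integral_const_mul, KL_tot hL,
    integral_indicator (measurableSet_Icc).compl]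
  have t3 := mul_le_mul_of_nonneg_left (ell_KL_tail hL hρ) (mul_nonneg hC₂ hu)
  linarith

/-- sup bound -/
theorem sup_P (hC : ∀ v, ‖g v‖ ≤ C₂ * ell v) (hC₂ : 0 ≤ C₂) (hL : 0 < L) (u : ℝ) :
    ‖∫ v, g (v + u) * (KL L v : ℂ)‖ ≤ C₂ * ell u * ∫ v, ell v * KL L v := by
  rw [← integral_const_mul]
  refine norm_integral_le_of_norm_le ((ell_KL_int hL).const_mul _) ?_
  apply Filter.Eventually.of_forall
  intro v
  rw [norm_mul, Complex.norm_real, Real.norm_of_nonneg (KL_nonneg hL v)]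
  calc ‖g (v + u)‖ * KL L v ≤ (C₂ * (ell v * ell u)) * KL L v := by
        apply mul_le_mul_of_nonneg_right _ (KL_nonneg hL v)
        exact (hC _).trans (mul_le_mul_of_nonneg_left (ell_add v u) hC₂)
    _ = _ := by ring

end

end Pool.Agent.Helper99.MS
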