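import Pool.Agent.Helper99.MS.Spec
import Pool.Agent.Helper99.MS.Est1

/-!
# Pointwise bounds for the smoothed function
-/

namespace Pool.Agent.Helper99.MS

open Finset MeasureTheory Set Filter Topology

noncomputable def g1 (m v : ℝ) : ℝ := ∫ t : ℝ, ff mr (v - t) * al m t

theorem cv_al (m : ℕ) (v : ℝ) : cv (ff mr) (alC m) v = (g1 m v : ℂ) := by
  rw [cv_comm]
  unfold g1 alC
  rw [← integral_complex_ofReal]
  congr 1
  ext t
  push_cast
  rfl

section
variable {B : ℝ}

theorem g1_bd (h : GB (ff mr) B) (m v t : ℝ) :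
    |ff mr (v - t) * al m t| ≤ (B * ell v) * (ell t * |al m t|) := by
  rw [abs_mul]
  have h1 : ell (v - t) ≤ ell v * ell t := by
    have := ell_add v (-t)
    rw [ell_neg] at this
    exact this
  calc |ff mr (v - t)| * |al m t| ≤ (B * ell (v - t)) * |al m t| :=
        mul_le_mul_of_nonneg_right (h _) (abs_nonneg _)
    _ ≤ (B * (ell v * ell t)) * |al m t| := by
        apply mul_le_mul_of_nonneg_right _ (abs_nonneg _)
        exact mul_le_mul_of_nonneg_left h1 h.nonneg
    _ = _ := by ring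

theorem g1_int (h : GB (ff mr) B) {m : ℝ} (hm : 8 ≤ m) (v : ℝ) :
    Integrable (fun t => ff mr (v - t) * al m t) := by
  refine Integrable.mono' ((ell_al_int hm).const_mul (B * ell v)) ?_ ?_
  · apply AEStronglyMeasurable.mul
    · exact ((ff_meas mr).comp (by fun_prop : Measurable (fun t : ℝ => v - t))).aestronglyMeasurable
    · exact (al_cont m).aestronglyMeasurable
  · apply Filter.Eventually.of_forall
    intro t
    exact g1_bd h m v t

theorem g1_tail (h : GB (ff mr) B) {m : ℝ} (hm : 8 ≤ m) (v : ℝ) (S : Set ℝ) :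
    |∫ t in S, ff mr (v - t) * al m t| ≤ B * ell v * ∫ t in S, ell t * |al m t| := by
  rw [← integral_const_mul, ← Real.norm_eq_abs]
  refine norm_integral_le_of_norm_le ((ell_al_int hm).integrableOn.const_mul _) ?_
  apply Filter.Eventually.of_forall
  intro t
  exact g1_bd h m v t

theorem g2_bd (h : GB (ff mr) B) {k : ℕ} (hk : 1 ≤ k) {v : ℝ} (hv : -1 ≤ v) :
    ‖cv (ff mr) (be (4 * k)) (-v)‖ ≤ 228 * B * CE / √((4 * k : ℕ) : ℝ) := by
  have hB := h.nonneg
  have hpi := Real.pi_pos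
  have hpi2 := Real.pi_lt_d2
  have he := Real.exp_one_lt_d9
  have e0 : 228 * B * CE / √((4 * k : ℕ) : ℝ) = (228 * B / √((4 * k : ℕ) : ℝ)) * CE := by ring
  rw [e0]
  unfold CE cv
  rw [← integral_const_mul]
  refine norm_integral_le_of_norm_le ((ell_exp_int (show (0:ℝ) < 1/2 by norm_num)).const_mul _) ?_
  apply Filter.Eventually.of_forall
  intro u
  rcases lt_or_ge u 0 with hu | hu
  · rw [ff_zero u hu]
    simp only [Complex.ofReal_zero, zero_mul, norm_zero]
    have := ell_nonneg u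
    positivity
  · rw [norm_mul, Complex.norm_real, Real.norm_eq_abs, abs_of_nonneg hu]
    have ht : -v - u ≤ 1 := by linarith
    have hs : (0:ℝ) < √((4 * k : ℕ) : ℝ) := by
      apply Real.sqrt_pos.2
      have : (1:ℝ) ≤ k := by exact_mod_cast hk
      push_cast; linarith
    have h1 : ‖be (4 * k) (-v - u)‖ ≤ 114 / √((4 * k : ℕ) : ℝ) * Real.exp ((-v - u) / 2) := by
      refine (be_bd1 hk _).trans ?_
      apply mul_le_mul_of_nonneg_right _ (Real.exp_pos _).le
      have h2 : Real.exp (-v - u) ≤ Real.exp 1 := Real.exp_le_exp.2 ht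
      have h3 : 6 * (1 + 2 * Real.pi * Real.exp (-v - u)) ≤ 114 := by nlinarith
      calc 6 / √((4 * k : ℕ) : ℝ) * (1 + 2 * Real.pi * Real.exp (-v - u))
          = (6 * (1 + 2 * Real.pi * Real.exp (-v - u))) / √((4 * k : ℕ) : ℝ) := by ring
        _ ≤ _ := div_le_div_of_nonneg_right h3 hs.le
    have h4 : Real.exp ((-v - u) / 2) ≤ 2 * Real.exp (-(1/2) * u) := by
      have h5 : Real.exp (-v / 2) ≤ 2 := by
        have h6 : Real.exp (-v / 2) ≤ Real.exp (1/2) := Real.exp_le_exp.2 (by linarith)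
        have h7 : Real.exp (1/2) ≤ 2 := by
          have h8 : Real.exp (1/2) ^ 2 = Real.exp 1 := by
            rw [← Real.exp_nat_mul]; norm_num
          nlinarith [Real.exp_pos (1/2 : ℝ)]
        linarith
      rw [show (-v - u) / 2 = -v / 2 + -(1/2) * u by ring, Real.exp_add]
      exact mul_le_mul_of_nonneg_right h5 (Real.exp_pos _).le
    calc |ff mr u| * ‖be (4 * k) (-v - u)‖
        ≤ (B * ell u) * (114 / √((4 * k : ℕ) : ℝ) * (2 * Real.exp (-(1/2) * u))) := by
          apply mul_le_mul (h u) _ (norm_nonneg _) (mul_nonneg hB (ell_nonneg u))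
          exact h1.trans (mul_le_mul_of_nonneg_left h4 (by positivity))
      _ = _ := by ring

theorem ff_small {y : ℝ} (h0 : 0 ≤ y) (h1 : y < Real.log 2) : ff mr y = Real.exp (-(y / 2)) := by
  unfold ff Asum
  have hx : ⌊Real.exp y⌋₊ = 1 := by
    rw [Nat.floor_eq_iff (Real.exp_pos y).le]
    constructor
    · rw [Nat.cast_one]
      exact Real.one_le_exp h0
    · push_cast
      have := Real.exp_lt_exp.2 h1
      rw [Real.exp_log (by norm_num)] at this
      linarith
  rw [hx]
  simp [mr]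

/-- lower bound near the origin -/
theorem g1_low (h : GB (ff mr) B) {m : ℝ} (hm : 8 ≤ m) {θ : ℝ} (hθ : θ ≤ 1/10)
    (hθm : m * θ ^ 2 + Real.exp (-(m / 16)) ≤ 1) {v : ℝ} (hv : |v| ≤ θ) :
    1 - (θ + m * θ ^ 2 + Real.exp (-(m / 16)) + 16 * B * Real.exp (-((m - 4) / 16))) ≤ g1 m v := by
  have hB := h.nonneg
  have hθ0 : 0 ≤ θ := (abs_nonneg v).trans hv
  have hv1 := abs_le.1 hv
  have hl2a := Real.log_two_gt_d9
  have hl2b := Real.log_two_lt_d9
  set a := v - Real.log 2 with ha
  have ha1 : a ≤ -(1/2) := by rw [ha]; linarith [hv1.2]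
  have ha2 : -1 ≤ a := by rw [ha]; linarith [hv1.1]
  have hi := g1_int h hm v
  -- tail exponentials
  have hXa : XX a ≤ -(1/16) := by
    have h1 := XX_le_sq (t := a) (abs_le.2 ⟨ha2, by linarith⟩)
    nlinarith
  have hE1 : EE m a ≤ Real.exp (-(m / 16)) := by
    unfold EE
    apply Real.exp_le_exp.2
    nlinarith
  have hE2 : EE (m - 4) a ≤ Real.exp (-((m - 4) / 16)) := by
    unfold EE
    apply Real.exp_le_exp.2
    nlinarith
  -- split
  have hs1 : g1 m v = (∫ t in Set.Iic v, ff mr (v - t) * al m t) + ∫ t in Set.Ioi v, ff mr (v - t) * al m t := by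
    unfold g1
    exact (intervalIntegral.integral_Iic_add_Ioi hi.integrableOn hi.integrableOn).symm
  have hs2 : ∫ t in Set.Ioi v, ff mr (v - t) * al m t = 0 := by
    rw [← integral_zero ℝ ℝ (μ := volume.restrict (Set.Ioi v))]
    apply setIntegral_congr_fun measurableSet_Ioi
    intro t ht
    have ht' : v < t := ht
    simp only
    rw [ff_zero _ (by linarith), zero_mul]
  have hs3 : ∫ t in Set.Iic v, ff mr (v - t) * al m t =
      (∫ t in Set.Iic a, ff mr (v - t) * al m t) + ∫ t in Set.Ioc a v, ff mr (v - t) * al m t := by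
    rw [← setIntegral_union (Set.Iic_disjoint_Ioc le_rfl) measurableSet_Ioc hi.integrableOn hi.integrableOn,
      Set.Iic_union_Ioc_eq_Iic (by rw [ha]; linarith)]
  have hs4 : ∫ t in Set.Ioc a v, ff mr (v - t) * al m t = Real.exp (-(v / 2)) * (EE m v - EE m a) := by
    have h5 : ∀ t ∈ Set.Ioc a v, ff mr (v - t) * al m t = Real.exp (-(v / 2)) * ww m t := by
      intro t ht
      rw [ff_small (by linarith [ht.2]) (by rw [ha] at ht; linarith [ht.1])]
      unfold al
      rw [← mul_assoc, ← Real.exp_add]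
      congr 2
      ring
    rw [setIntegral_congr_fun measurableSet_Ioc h5, integral_const_mul]
    congr 1
    have h6 : ∫ t in Set.Iic v, ww m t = (∫ t in Set.Iic a, ww m t) + ∫ t in Set.Ioc a v, ww m t := by
      have hw := ww_int (p := m) (by linarith)
      rw [← setIntegral_union (Set.Iic_disjoint_Ioc le_rfl) measurableSet_Ioc hw.integrableOn hw.integrableOn,
        Set.Iic_union_Ioc_eq_Iic (by rw [ha]; linarith)]
    rw [ww_Iic (by linarith), ww_Iic (by linarith)] at h6
    linarith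
  have hs5 : |∫ t in Set.Iic a, ff mr (v - t) * al m t| ≤ 16 * B * Real.exp (-((m - 4) / 16)) := by
    refine (g1_tail h hm v _).trans ?_
    have h7 := tail_Iic hm (a := a) (by linarith)
    have h8 : ell v ≤ 2 := by
      have := ell_le_linear v
      linarith
    calc B * ell v * ∫ t in Set.Iic a, ell t * |al m t|
        ≤ (B * 2) * (8 * Real.exp (-((m - 4) / 16))) := by
          apply mul_le_mul _ (h7.trans (by linarith)) _ (by positivity)
          · exact mul_le_mul_of_nonneg_left h8 hB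
          · apply integral_nonneg
            intro t
            exact mul_nonneg (ell_nonneg t) (abs_nonneg _)
      _ = _ := by ring
  have hs6 := (abs_le.1 hs5).1
  have hE3 : 1 - m * θ ^ 2 ≤ EE m v := by
    unfold EE
    have h9 := XX_ge_sq (t := v) (by linarith)
    have h10 : v ^ 2 ≤ θ ^ 2 := by
      rw [← sq_abs]
      exact pow_le_pow_left₀ (abs_nonneg v) hv 2
    have h11 := Real.add_one_le_exp (m * XX v)
    nlinarith
  have hE4 : 1 - θ ≤ Real.exp (-(v / 2)) := by
    have := Real.add_one_le_exp (-(v / 2))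
    linarith [hv1.2]
  have hE5 : (1 - θ) * (1 - m * θ ^ 2 - Real.exp (-(m / 16))) ≤ Real.exp (-(v / 2)) * (EE m v - EE m a) := by
    apply mul_le_mul hE4 (by linarith) (by linarith) (Real.exp_pos _).le
  have hE6 : 1 - (θ + m * θ ^ 2 + Real.exp (-(m / 16))) ≤ (1 - θ) * (1 - m * θ ^ 2 - Real.exp (-(m / 16))) := by
    have h12 : 0 ≤ θ * (m * θ ^ 2 + Real.exp (-(m / 16))) := by positivity
    nlinarith
  rw [hs1, hs2, hs3, hs4]
  linarith

/-- the sup trick -/
theorem sup_trick {φ ψ : ℝ → ℝ} {η D : ℝ} (hη : 0 ≤ η)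
    (h : ∀ s ∈ Set.Icc (-η) 0, ∀ t ∈ Set.Icc 0 η, φ s + ψ t ≤ D) (hφ : φ 0 = 0) (hψ : ψ 0 = 0) :
    ∃ A : ℝ, 0 ≤ A ∧ 0 ≤ D - A ∧ (∀ s ∈ Set.Icc (-η) 0, φ s ≤ A) ∧ (∀ t ∈ Set.Icc 0 η, ψ t ≤ D - A) := by
  have hm1 : (0:ℝ) ∈ Set.Icc (-η) 0 := ⟨by linarith, le_rfl⟩
  have hm2 : (0:ℝ) ∈ Set.Icc 0 η := ⟨le_rfl, hη⟩
  have hne : (φ '' Set.Icc (-η) 0).Nonempty := ⟨φ 0, 0, hm1, rfl⟩
  have hbdd : BddAbove (φ '' Set.Icc (-η) 0) := by
    refine ⟨D, ?_⟩
    rintro _ ⟨s, hs, rfl⟩
    have := h s hs 0 hm2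
    rw [hψ] at this
    linarith
  have hA : ∀ s ∈ Set.Icc (-η) 0, φ s ≤ sSup (φ '' Set.Icc (-η) 0) := by
    intro s hs
    exact le_csSup hbdd ⟨s, hs, rfl⟩
  have hB : ∀ t ∈ Set.Icc 0 η, ψ t ≤ D - sSup (φ '' Set.Icc (-η) 0) := by
    intro t ht
    have : sSup (φ '' Set.Icc (-η) 0) ≤ D - ψ t := by
      apply csSup_le hne
      rintro _ ⟨s, hs, rfl⟩
      have := h s hs t ht
      linarith
    linarith
  refine ⟨sSup (φ '' Set.Icc (-η) 0), ?_, ?_, hA, hB⟩
  · have := hA 0 hm1
    rwa [hφ] at this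
  · have := hB 0 hm2
    rwa [hψ] at this

/-- upper bound -/
theorem g1_up (h : GB (ff mr) B) {m : ℝ} (hm : 8 ≤ m) {η D v : ℝ} (hη : 0 ≤ η) (hη1 : η ≤ 1)
    (hD : ∀ s ∈ Set.Icc (-η) 0, ∀ t ∈ Set.Icc 0 η,
      Asum mr (Real.exp (v - s)) - Asum mr (Real.exp (v - t)) ≤ D) :
    g1 m v ≤ Real.exp (-(v / 2)) * D + 18 * B * ell v * Real.exp (-((m - 4) * η ^ 2 / 4)) := by
  have hB := h.nonneg
  have hi := g1_int h hm v
  have hw := ww_int (p := m) (by linarith)
  have hv := ell_nonneg v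
  set c₀ := Asum mr (Real.exp v) with hc₀
  have hEb : ∀ p : ℝ, m - 4 ≤ p → ∀ x : ℝ, |x| = η → EE p x ≤ Real.exp (-((m - 4) * η ^ 2 / 4)) := by
    intro p hp x hx
    unfold EE
    apply Real.exp_le_exp.2
    have h1 := XX_le_sq (t := x) (by linarith)
    rw [← sq_abs, hx] at h1
    nlinarith [sq_nonneg η]
  set E := Real.exp (-((m - 4) * η ^ 2 / 4)) with hE
  have hE0 : 0 < E := Real.exp_pos _
  have hs1 : g1 m v = (∫ t in Set.Iic 0, ff mr (v - t) * al m t) + ∫ t in Set.Ioi 0, ff mr (v - t) * al m t := by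
    unfold g1
    exact (intervalIntegral.integral_Iic_add_Ioi hi.integrableOn hi.integrableOn).symm
  have hs2 : ∫ t in Set.Iic 0, ff mr (v - t) * al m t =
      (∫ t in Set.Iic (-η), ff mr (v - t) * al m t) + ∫ t in Set.Ioc (-η) 0, ff mr (v - t) * al m t := by
    rw [← setIntegral_union (Set.Iic_disjoint_Ioc le_rfl) measurableSet_Ioc hi.integrableOn hi.integrableOn,
      Set.Iic_union_Ioc_eq_Iic (by linarith)]
  have hs3 : ∫ t in Set.Ioi 0, ff mr (v - t) * al m t =
      (∫ t in Set.Ioc 0 η, ff mr (v - t) * al m t) + ∫ t in Set.Ioi η, ff mr (v - t) * al m t := by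
    rw [← setIntegral_union (Set.Ioc_disjoint_Ioi_same) measurableSet_Ioi hi.integrableOn hi.integrableOn,
      Set.Ioc_union_Ioi_eq_Ioi hη]
  have ht1 : |∫ t in Set.Iic (-η), ff mr (v - t) * al m t| ≤ 8 * B * ell v * E := by
    refine (g1_tail h hm v _).trans ?_
    have h7 := tail_Iic hm (a := -η) (by linarith)
    have h8 := hEb (m - 4) le_rfl (-η) (by rw [abs_neg, abs_of_nonneg hη])
    calc B * ell v * ∫ t in Set.Iic (-η), ell t * |al m t| ≤ B * ell v * (8 * E) := by
          apply mul_le_mul_of_nonneg_left _ (mul_nonneg hB hv)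
          linarith
      _ = _ := by ring
  have ht2 : |∫ t in Set.Ioi η, ff mr (v - t) * al m t| ≤ 8 * B * ell v * E := by
    refine (g1_tail h hm v _).trans ?_
    have h7 := tail_Ioi hm (a := η) hη
    have h8 := hEb (m - 4) le_rfl η (abs_of_nonneg hη)
    calc B * ell v * ∫ t in Set.Ioi η, ell t * |al m t| ≤ B * ell v * (8 * E) := by
          apply mul_le_mul_of_nonneg_left _ (mul_nonneg hB hv)
          linarith
      _ = _ := by ring
  -- the near parts
  have hfac : ∀ t : ℝ, ff mr (v - t) * al m t = Real.exp (-(v / 2)) * (Asum mr (Real.exp (v - t)) * ww m t) := by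
    intro t
    unfold ff al
    calc Asum mr (Real.exp (v - t)) * Real.exp (-((v - t) / 2)) * (Real.exp (-(t / 2)) * ww m t)
        = (Real.exp (-((v - t) / 2)) * Real.exp (-(t / 2))) * (Asum mr (Real.exp (v - t)) * ww m t) := by ring
      _ = _ := by rw [← Real.exp_add]; congr 2; ring
  have hmi : Integrable (fun t => Asum mr (Real.exp (v - t)) * ww m t) := by
    have h9 := hi.const_mul (Real.exp (v / 2))
    refine h9.congr ?_
    apply Filter.Eventually.of_forall
    intro t
    simp only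
    rw [hfac, ← mul_assoc, ← Real.exp_add]
    simp
  obtain ⟨A, hA0, hDA, hA, hDA2⟩ := sup_trick (φ := fun s => Asum mr (Real.exp (v - s)) - c₀)
    (ψ := fun t => c₀ - Asum mr (Real.exp (v - t))) (D := D) hη (by
      intro s hs t ht
      have := hD s hs t ht
      linarith) (by simp [hc₀]) (by simp [hc₀])
  have hwm : ∫ t in Set.Ioc (-η) 0, ww m t = 1 - EE m (-η) := by
    have h6 : ∫ t in Set.Iic 0, ww m t = (∫ t in Set.Iic (-η), ww m t) + ∫ t in Set.Ioc (-η) 0, ww m t := by
      rw [← setIntegral_union (Set.Iic_disjoint_Ioc le_rfl) measurableSet_Ioc hw.integrableOn hw.integrableOn,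
        Set.Iic_union_Ioc_eq_Iic (by linarith)]
    rw [ww_Iic (by linarith), ww_Iic (by linarith), EE_zero] at h6
    linarith
  have hwp : ∫ t in Set.Ioc 0 η, ww m t = EE m η - 1 := by
    have h6 : ∫ t in Set.Ioi 0, ww m t = (∫ t in Set.Ioc 0 η, ww m t) + ∫ t in Set.Ioi η, ww m t := by
      rw [← setIntegral_union (Set.Ioc_disjoint_Ioi_same) measurableSet_Ioi hw.integrableOn hw.integrableOn,
        Set.Ioc_union_Ioi_eq_Ioi hη]
    rw [ww_Ioi (by linarith), ww_Ioi (by linarith), EE_zero] at h6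
    linarith
  have hn1 : ∫ t in Set.Ioc (-η) 0, Asum mr (Real.exp (v - t)) * ww m t ≤ (c₀ + A) * (1 - EE m (-η)) := by
    rw [← hwm, ← integral_const_mul]
    apply setIntegral_mono_on hmi.integrableOn (hw.integrableOn.const_mul _) measurableSet_Ioc
    intro t ht
    apply mul_le_mul_of_nonneg_right _ (ww_nonneg (by linarith) ht.2)
    have := hA t ⟨ht.1.le, ht.2⟩
    linarith
  have hn2 : ∫ t in Set.Ioc 0 η, Asum mr (Real.exp (v - t)) * ww m t ≤ (c₀ - (D - A)) * (EE m η - 1) := by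
    rw [← hwp, ← integral_const_mul]
    apply setIntegral_mono_on hmi.integrableOn (hw.integrableOn.const_mul _) measurableSet_Ioc
    intro t ht
    apply mul_le_mul_of_nonpos_right _ (ww_nonpos (by linarith) ht.1.le)
    have := hDA2 t ⟨ht.1.le, ht.2⟩
    linarith
  have hEm1 := EE_pos m (-η)
  have hEm2 := EE_pos m η
  have hEm3 := EE_le_one (p := m) (by linarith) (-η)
  have hEm4 := EE_le_one (p := m) (by linarith) η
  have hEm5 := hEb m (by linarith) (-η) (by rw [abs_neg, abs_of_nonneg hη])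
  have hEm6 := hEb m (by linarith) η (abs_of_nonneg hη)
  have hnear : (∫ t in Set.Ioc (-η) 0, Asum mr (Real.exp (v - t)) * ww m t) +
      ∫ t in Set.Ioc 0 η, Asum mr (Real.exp (v - t)) * ww m t ≤ D + |c₀| * (2 * E) := by
    have h10 : A * (1 - EE m (-η)) ≤ A := by
      have : 0 ≤ A * EE m (-η) := by positivity
      nlinarith
    have h11 : (D - A) * (1 - EE m η) ≤ D - A := by
      have : 0 ≤ (D - A) * EE m η := by positivity
      nlinarith
    have h12 : c₀ * (EE m η - EE m (-η)) ≤ |c₀| * (2 * E) := by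
      calc c₀ * (EE m η - EE m (-η)) ≤ |c₀ * (EE m η - EE m (-η))| := le_abs_self _
        _ = |c₀| * |EE m η - EE m (-η)| := abs_mul _ _
        _ ≤ _ := by
          apply mul_le_mul_of_nonneg_left _ (abs_nonneg _)
          rw [abs_le]
          constructor <;> linarith
    calc _ ≤ (c₀ + A) * (1 - EE m (-η)) + (c₀ - (D - A)) * (EE m η - 1) := add_le_add hn1 hn2
      _ = A * (1 - EE m (-η)) + (D - A) * (1 - EE m η) + c₀ * (EE m η - EE m (-η)) := by ring
      _ ≤ A + (D - A) + |c₀| * (2 * E) := by linarith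
      _ = _ := by ring
  have hnn : (∫ t in Set.Ioc (-η) 0, ff mr (v - t) * al m t) + ∫ t in Set.Ioc 0 η, ff mr (v - t) * al m t ≤
      Real.exp (-(v / 2)) * D + 2 * B * ell v * E := by
    have e1 : ∫ t in Set.Ioc (-η) 0, ff mr (v - t) * al m t =
        Real.exp (-(v / 2)) * ∫ t in Set.Ioc (-η) 0, Asum mr (Real.exp (v - t)) * ww m t := by
      rw [← integral_const_mul]
      congr 1
      ext t
      exact hfac t
    have e2 : ∫ t in Set.Ioc 0 η, ff mr (v - t) * al m t =
        Real.exp (-(v / 2)) * ∫ t in Set.Ioc 0 η, Asum mr (Real.exp (v - t)) * ww m t := by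
      rw [← integral_const_mul]
      congr 1
      ext t
      exact hfac t
    rw [e1, e2, ← mul_add]
    have h13 : Real.exp (-(v / 2)) * |c₀| ≤ B * ell v := by
      have := h v
      unfold ff at this
      rw [abs_mul, abs_of_pos (Real.exp_pos _)] at this
      linarith
    calc _ ≤ Real.exp (-(v / 2)) * (D + |c₀| * (2 * E)) := mul_le_mul_of_nonneg_left hnear (Real.exp_pos _).le
      _ = Real.exp (-(v / 2)) * D + (Real.exp (-(v / 2)) * |c₀|) * (2 * E) := by ring
      _ ≤ Real.exp (-(v / 2)) * D + (B * ell v) * (2 * E) := by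
        have := mul_le_mul_of_nonneg_right h13 (show 0 ≤ 2 * E by positivity)
        linarith
      _ = _ := by ring
  have h14 := (abs_le.1 ht1).2
  have h15 := (abs_le.1 ht2).2
  rw [hs1, hs2, hs3]
  linarith

end

end Pool.Agent.Helper99.MS
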