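import Pool.Agent.Helper99.MS.Kern2

/-!
# Transform of the primal kernel and the functional equation
-/

namespace Pool.Agent.Helper99.MS

open Finset MeasureTheory Set Filter Topology
open Pool.Agent.Helper13.Mob (mellin_eq_laplace int_cpow_exp)

noncomputable def khat (m : ℕ) (w : ℂ) : ℂ :=
  Complex.exp m * (1 / (m : ℂ)) ^ ((m : ℂ) - w) * Complex.Gamma (m - w)

/-- transform of `al` -/
theorem al_tr {m : ℕ} (hm : 1 ≤ m) {s : ℂ} (hs' : s.re < 1/2) :
    ∫ t : ℝ, (al m t : ℂ) * Complex.exp (-(s * t)) = (s + 1/2) * khat m (s + 1/2) := by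
  have hre : (s + 1/2).re = s.re + 1/2 := by simp
  have hm1 : (1:ℝ) ≤ m := by exact_mod_cast hm
  have hmR : (0:ℝ) < m := by linarith
  have hmC : (m : ℂ) ≠ 0 := by exact_mod_cast hmR.ne'
  set w : ℂ := s + 1/2 with hw
  let F : ℝ → ℂ := fun y => (m : ℂ) * Complex.exp m * ((1 - y) * ((y : ℂ) ^ m * Complex.exp (-(m * y))))
  have h1 : mellin F (-w) = ∫ t : ℝ, (al m t : ℂ) * Complex.exp (-(s * t)) := by
    rw [mellin_eq_laplace, ← integral_neg_eq_self]
    congr 1
    ext u
    simp only [F, al, ww, EE, XX, neg_neg]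
    push_cast
    have e1 : Complex.exp u ^ m = Complex.exp (m * u) := by rw [← Complex.exp_nat_mul]
    rw [e1]
    have e2 : Complex.exp (-(-w * -(u:ℂ))) * (Complex.exp m * (Complex.exp (m * u) *
        Complex.exp (-(m * Complex.exp u)))) = Complex.exp (-(u / 2)) *
        Complex.exp (m * (1 + u - Complex.exp u)) * Complex.exp (-(s * u)) := by
      rw [← Complex.exp_add, ← Complex.exp_add, ← Complex.exp_add, ← Complex.exp_add, ← Complex.exp_add]
      congr 1
      rw [hw]
      ring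
    calc Complex.exp (-(-w * -(u:ℂ))) * ((m : ℂ) * Complex.exp m * ((1 - Complex.exp u) *
          (Complex.exp (m * u) * Complex.exp (-(m * Complex.exp u)))))
        = (m : ℂ) * (1 - Complex.exp u) * (Complex.exp (-(-w * -(u:ℂ))) * (Complex.exp m *
          (Complex.exp (m * u) * Complex.exp (-(m * Complex.exp u))))) := by ring
      _ = _ := by rw [e2]; ring
  rw [← h1]
  have ha : 0 < ((m : ℂ) - w).re := by
    simp only [Complex.sub_re, Complex.natCast_re]
    rw [hre]; linarith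
  have ha' : 0 < ((m : ℂ) - w + 1).re := by
    simp only [Complex.add_re, Complex.one_re]; linarith
  have hmre : 0 < ((m : ℝ) : ℂ).re := by simpa using hmR
  have i1 := int_cpow_exp ha hmre
  have i2 := int_cpow_exp ha' hmre
  have v1 := Complex.integral_cpow_mul_exp_neg_mul_Ioi ha hmR
  have v2 := Complex.integral_cpow_mul_exp_neg_mul_Ioi ha' hmR
  have h2 : mellin F (-w) = (m : ℂ) * Complex.exp m *
      ((∫ t in Set.Ioi (0:ℝ), (t : ℂ) ^ ((m : ℂ) - w - 1) * Complex.exp (-(((m : ℝ) : ℂ) * t))) -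
       ∫ t in Set.Ioi (0:ℝ), (t : ℂ) ^ ((m : ℂ) - w + 1 - 1) * Complex.exp (-(((m : ℝ) : ℂ) * t))) := by
    rw [← integral_sub i1 i2, ← integral_const_mul]
    unfold mellin
    apply setIntegral_congr_fun measurableSet_Ioi
    intro y hy
    have hy' : (0:ℝ) < y := hy
    have hyC : (y : ℂ) ≠ 0 := by exact_mod_cast hy'.ne'
    simp only [F, smul_eq_mul]
    have e1 : (y : ℂ) ^ ((m : ℂ) - w - 1) = (y : ℂ) ^ (-w - 1) * (y : ℂ) ^ m := by
      rw [show (m : ℂ) - w - 1 = (-w - 1) + m by ring, Complex.cpow_add _ _ hyC, Complex.cpow_natCast]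
    have e2 : (y : ℂ) ^ ((m : ℂ) - w + 1 - 1) = (y : ℂ) ^ (-w - 1) * (y : ℂ) ^ m * y := by
      rw [show (m : ℂ) - w + 1 - 1 = ((-w - 1) + m) + 1 by ring, Complex.cpow_add _ _ hyC,
        Complex.cpow_add _ _ hyC, Complex.cpow_natCast, Complex.cpow_one]
    rw [e1, e2, Complex.ofReal_natCast]
    ring
  rw [h2, v1, v2]
  have hmw : (m : ℂ) - w ≠ 0 := by
    intro h
    rw [h] at ha
    simp at ha
  rw [Complex.Gamma_add_one _ hmw, Complex.ofReal_natCast, Complex.cpow_add _ _ (by simpa using hmC),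
    Complex.cpow_one]
  unfold khat
  field_simp
  ring

/-- the functional equation between the kernels -/
theorem fe_kern {m : ℕ} (hm : 1 ≤ m) {s : ℂ} (hs : -(1/2) < s.re) (hs' : s.re < 1/2) :
    (s + 1/2) * khat m (s + 1/2) * ((1 - (s + 1/2)) * riemannZeta (1 - (s + 1/2))) =
    (∫ t : ℝ, be m t * Complex.exp (s * t)) * ((s + 1/2) * riemannZeta (s + 1/2)) := by
  have hre : (s + 1/2).re = s.re + 1/2 := by simp
  set w : ℂ := s + 1/2 with hw
  have hwn : ∀ n : ℕ, w ≠ -n := by
    intro n hn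
    have h0 : 0 < w.re := by rw [hre]; linarith
    rw [hn] at h0
    simp only [Complex.neg_re, Complex.natCast_re] at h0
    have hm0 : (0:ℝ) ≤ n := Nat.cast_nonneg n
    linarith
  have hw1 : w ≠ 1 := by
    intro h
    rw [h] at hre
    simp at hre
    linarith
  rw [be_tr hm hs hs', riemannZeta_one_sub hwn hw1]
  unfold khat
  ring

end Pool.Agent.Helper99.MS
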