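import Pool.Agent.Helper13.MobB

/-!
# Mellin transforms of negative powers of linear functions
-/

namespace Pool.Agent.Helper99.MS

open Finset MeasureTheory Set Filter Topology
open Pool.Agent.Helper13.Mob (int_cpow_exp cgamma int_rpow_exp)

theorem cpow_contOn (a : ℂ) : ContinuousOn (fun t : ℝ => (t : ℂ) ^ a) (Set.Ioi 0) := by
  intro t ht
  apply ContinuousAt.continuousWithinAt
  apply ContinuousAt.comp (f := fun t : ℝ => (t : ℂ)) (g := fun z : ℂ => z ^ a)
  · apply continuousAt_cpow_const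
    left
    simpa using ht
  · exact Complex.continuous_ofReal.continuousAt

theorem real_cpow_mul {s : ℝ} (hs : 0 < s) {l : ℂ} (hl : l ≠ 0) (w : ℂ) :
    (l * s) ^ w = l ^ w * (s : ℂ) ^ w := by
  have hs' : (s : ℂ) ≠ 0 := by exact_mod_cast hs.ne'
  rw [Complex.cpow_def_of_ne_zero (mul_ne_zero hl hs'), Complex.log_mul_ofReal s hs l hl,
    Complex.cpow_def_of_ne_zero hl, Complex.cpow_def_of_ne_zero hs', ← Complex.exp_add,
    Complex.ofReal_log hs.le]
  congr 1
  ring

theorem beta_pos {p : ℕ} (hp : 1 ≤ p) {M : ℝ} (hM : 0 < M) {l w : ℂ} (hl : 0 < l.re)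
    (hw0 : 0 < w.re) (hwp : w.re < p) :
    ∫ z in Set.Ioi (0:ℝ), (z : ℂ) ^ (w - 1) * ((M + l * z) ^ p)⁻¹ =
      l ^ (-w) * (1 / (M : ℂ)) ^ ((p : ℂ) - w) * (Complex.Gamma w * Complex.Gamma (p - w) / Complex.Gamma p) := by
  have hl0 : l ≠ 0 := by
    intro h; rw [h] at hl; simp at hl
  have hpre : 0 < ((p : ℕ) : ℂ).re := by
    rw [Complex.natCast_re]; exact_mod_cast hp
  have hGp : Complex.Gamma p ≠ 0 := by
    apply Complex.Gamma_ne_zero_of_re_pos hpre
  let F : ℝ × ℝ → ℂ := fun x => (x.1 : ℂ) ^ (w - 1) * ((x.2 : ℂ) ^ ((p : ℂ) - 1) *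
    Complex.exp (-((M + l * x.1) * x.2)))
  have hstep1 : ∀ z : ℝ, 0 < z → (z : ℂ) ^ (w - 1) * ((M + l * z) ^ p)⁻¹ * Complex.Gamma p =
      ∫ s in Set.Ioi (0:ℝ), F (z, s) := by
    intro z hz
    have hr : 0 < ((M : ℂ) + l * z).re := by
      simp only [Complex.add_re, Complex.ofReal_re, Complex.mul_re, Complex.ofReal_im, mul_zero, sub_zero]
      positivity
    have h1 := cgamma (a := (p : ℂ)) (r := (M : ℂ) + l * z) hpre hr
    simp only [F]
    rw [integral_const_mul, h1, Complex.cpow_neg, Complex.cpow_natCast]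
    ring
  have hFfac : ∀ z s : ℝ, F (z, s) = ((s : ℂ) ^ ((p : ℂ) - 1) * Complex.exp (-(M * s))) *
      ((z : ℂ) ^ (w - 1) * Complex.exp (-((l * s) * z))) := by
    intro z s
    simp only [F]
    have : Complex.exp (-((M + l * z) * s)) = Complex.exp (-(M * s)) * Complex.exp (-((l * s) * z)) := by
      rw [← Complex.exp_add]; congr 1; ring
    rw [this]
    ring
  have hsec : ∀ s : ℝ, 0 < s → IntegrableOn (fun z : ℝ => F (z, s)) (Set.Ioi 0) := by
    intro s hs
    have hr : 0 < (l * s).re := by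
      simp only [Complex.mul_re, Complex.ofReal_re, Complex.ofReal_im, mul_zero, sub_zero]
      positivity
    have h1 := (int_cpow_exp (a := w) (r := l * s) hw0 hr).const_mul
      ((s : ℂ) ^ ((p : ℂ) - 1) * Complex.exp (-(M * s)))
    refine h1.congr ?_
    apply Filter.Eventually.of_forall
    intro z
    exact (hFfac z s).symm
  have hnorm : ∀ s : ℝ, 0 < s → ∫ z in Set.Ioi (0:ℝ), ‖F (z, s)‖ =
      (Real.Gamma w.re * (1 / l.re) ^ w.re) * (s ^ ((p : ℝ) - 1 - w.re) * Real.exp (-M * s)) := by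
    intro s hs
    have h1 : ∀ z ∈ Set.Ioi (0:ℝ), ‖F (z, s)‖ = (s ^ ((p : ℝ) - 1) * Real.exp (-M * s)) *
        (z ^ (w.re - 1) * Real.exp (-((l.re * s) * z))) := by
      intro z hz
      have hz' : (0:ℝ) < z := hz
      rw [hFfac, norm_mul, norm_mul, norm_mul, Complex.norm_cpow_eq_rpow_re_of_pos hs,
        Complex.norm_cpow_eq_rpow_re_of_pos hz', Complex.norm_exp, Complex.norm_exp]
      simp only [Complex.sub_re, Complex.natCast_re, Complex.one_re, Complex.neg_re, Complex.mul_re,
        Complex.ofReal_re, Complex.ofReal_im, mul_zero, sub_zero]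
      ring_nf
    rw [setIntegral_congr_fun measurableSet_Ioi h1, integral_const_mul,
      Real.integral_rpow_mul_exp_neg_mul_Ioi hw0 (by positivity)]
    rw [show (1 / (l.re * s)) = (1 / l.re) * s⁻¹ by field_simp, Real.mul_rpow (by positivity) (by positivity),
      Real.inv_rpow hs.le, ← Real.rpow_neg hs.le, show (p : ℝ) - 1 - w.re = ((p : ℝ) - 1) + (-w.re) by ring,
      Real.rpow_add hs]
    ring
  have hmeas : AEStronglyMeasurable F ((volume.restrict (Set.Ioi (0:ℝ))).prod (volume.restrict (Set.Ioi (0:ℝ)))) := by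
    rw [Measure.prod_restrict]
    apply ContinuousOn.aestronglyMeasurable _ (measurableSet_Ioi.prod measurableSet_Ioi)
    apply ContinuousOn.mul
    · exact (cpow_contOn (w - 1)).comp continuousOn_fst (fun x hx => hx.1)
    · apply ContinuousOn.mul
      · exact (cpow_contOn ((p : ℂ) - 1)).comp continuousOn_snd (fun x hx => hx.2)
      · fun_prop
  have hint : Integrable F ((volume.restrict (Set.Ioi (0:ℝ))).prod (volume.restrict (Set.Ioi (0:ℝ)))) := by
    rw [integrable_prod_iff' hmeas]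
    constructor
    · rw [ae_restrict_iff' measurableSet_Ioi]
      exact Filter.Eventually.of_forall (fun s hs => hsec s hs)
    · have h1 : IntegrableOn (fun s : ℝ => (Real.Gamma w.re * (1 / l.re) ^ w.re) *
          (s ^ ((p : ℝ) - 1 - w.re) * Real.exp (-M * s))) (Set.Ioi 0) :=
        (int_rpow_exp (by linarith) hM).const_mul _
      refine IntegrableOn.congr_fun h1 ?_ measurableSet_Ioi
      intro s hs
      exact (hnorm s hs).symm
  have hswap := integral_integral_swap (f := fun z s => F (z, s)) hint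
  have hleft : ∫ z in Set.Ioi (0:ℝ), ∫ s in Set.Ioi (0:ℝ), F (z, s) =
      (∫ z in Set.Ioi (0:ℝ), (z : ℂ) ^ (w - 1) * ((M + l * z) ^ p)⁻¹) * Complex.Gamma p := by
    rw [← integral_mul_const]
    apply setIntegral_congr_fun measurableSet_Ioi
    intro z hz
    exact (hstep1 z hz).symm
  have hright : ∫ s in Set.Ioi (0:ℝ), ∫ z in Set.Ioi (0:ℝ), F (z, s) =
      l ^ (-w) * Complex.Gamma w * ((1 / (M : ℂ)) ^ ((p : ℂ) - w) * Complex.Gamma (p - w)) := by
    have h1 : ∀ s ∈ Set.Ioi (0:ℝ), ∫ z in Set.Ioi (0:ℝ), F (z, s) =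
        (l ^ (-w) * Complex.Gamma w) * ((s : ℂ) ^ (((p : ℂ) - w) - 1) * Complex.exp (-(M * s))) := by
      intro s hs
      have hs' : (0:ℝ) < s := hs
      have hsC : (s : ℂ) ≠ 0 := by exact_mod_cast hs'.ne'
      have hr : 0 < (l * s).re := by
        simp only [Complex.mul_re, Complex.ofReal_re, Complex.ofReal_im, mul_zero, sub_zero]
        positivity
      simp only [hFfac]
      rw [integral_const_mul, cgamma hw0 hr, real_cpow_mul hs' hl0,
        show ((p : ℂ) - w) - 1 = ((p : ℂ) - 1) + (-w) by ring, Complex.cpow_add _ _ hsC]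
      ring
    rw [setIntegral_congr_fun measurableSet_Ioi h1, integral_const_mul,
      Complex.integral_cpow_mul_exp_neg_mul_Ioi (a := (p : ℂ) - w) (r := M) (by
        simp only [Complex.sub_re, Complex.natCast_re]; linarith) hM]
  rw [hleft, hright] at hswap
  apply mul_right_cancel₀ hGp
  rw [hswap]
  field_simp

theorem norm_lin_ge {M : ℝ} (hM : 0 < M) {ε y z : ℝ} (hε : 0 ≤ ε) (hz : 0 < z) :
    (M + |y| * z) / 2 ≤ ‖(M : ℂ) + (ε + y * Complex.I) * z‖ := by
  have h1 : M ≤ ‖(M : ℂ) + (ε + y * Complex.I) * z‖ := by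
    have h := Complex.abs_re_le_norm ((M : ℂ) + (ε + y * Complex.I) * z)
    have e : ((M : ℂ) + (ε + y * Complex.I) * z).re = M + ε * z := by simp
    rw [e] at h
    have h2 : M ≤ |M + ε * z| := by
      rw [abs_of_nonneg (by positivity)]
      nlinarith
    linarith
  have h2 : |y| * z ≤ ‖(M : ℂ) + (ε + y * Complex.I) * z‖ := by
    have h := Complex.abs_im_le_norm ((M : ℂ) + (ε + y * Complex.I) * z)
    have e : ((M : ℂ) + (ε + y * Complex.I) * z).im = y * z := by simp
    rw [e, abs_mul, abs_of_pos hz] at h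
    exact h
  linarith

theorem lin_conv {p : ℕ} {M : ℝ} (hM : 0 < M) {y : ℝ} (hy : y ≠ 0) {ε : ℝ} (hε : 0 ≤ ε) {w : ℂ}
    (hw0 : 0 < w.re) (hwp : w.re < p) :
    MellinConvergent (fun z : ℝ => (((M : ℂ) + (ε + y * Complex.I) * z) ^ p)⁻¹) w := by
  have hy' : 0 < |y| := abs_pos.2 hy
  apply mellinConvergent_of_isBigO_rpow (a := p) (b := 0)
  · apply ContinuousOn.locallyIntegrableOn _ measurableSet_Ioi
    apply ContinuousOn.inv₀ (by fun_prop)
    intro z hz
    apply pow_ne_zero
    intro h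
    have := norm_lin_ge hM (y := y) hε hz
    rw [h, norm_zero] at this
    have hz' : (0:ℝ) < z := hz
    have : 0 < |y| * z := by positivity
    linarith
  · apply Asymptotics.IsBigO.of_bound ((2 / |y|) ^ p)
    filter_upwards [eventually_gt_atTop (0:ℝ)] with z hz
    have h1 := norm_lin_ge hM (y := y) hε hz
    have h2 : |y| * z / 2 ≤ ‖(M : ℂ) + (ε + y * Complex.I) * z‖ := by linarith
    rw [norm_inv, norm_pow, Real.norm_of_nonneg (by positivity), Real.rpow_neg hz.le, Real.rpow_natCast]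
    rw [← inv_pow, ← inv_pow, ← mul_pow]
    apply pow_le_pow_left₀ (by positivity)
    have h3 : 0 < |y| * z / 2 := by positivity
    calc (‖(M : ℂ) + (ε + y * Complex.I) * z‖)⁻¹ ≤ (|y| * z / 2)⁻¹ := inv_anti₀ h3 h2
      _ = _ := by field_simp
  · exact hwp
  · apply Asymptotics.IsBigO.of_bound ((2 / M) ^ p)
    filter_upwards [self_mem_nhdsWithin] with z hz
    have hz' : (0:ℝ) < z := hz
    have h1 := norm_lin_ge hM (y := y) hε hz'
    have h2 : M / 2 ≤ ‖(M : ℂ) + (ε + y * Complex.I) * z‖ := by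
      have : 0 < |y| * z := by positivity
      linarith
    rw [norm_inv, norm_pow, neg_zero, Real.rpow_zero, norm_one, mul_one, ← inv_pow]
    apply pow_le_pow_left₀ (by positivity)
    have h3 : 0 < M / 2 := by positivity
    calc (‖(M : ℂ) + (ε + y * Complex.I) * z‖)⁻¹ ≤ (M / 2)⁻¹ := inv_anti₀ h3 h2
      _ = _ := by field_simp
  · exact hw0

theorem beta_im {p : ℕ} (hp : 1 ≤ p) {M : ℝ} (hM : 0 < M) {y : ℝ} (hy : y ≠ 0) {w : ℂ}
    (hw0 : 0 < w.re) (hwp : w.re < p) :
    mellin (fun z : ℝ => (((M : ℂ) + (y * Complex.I) * z) ^ p)⁻¹) w =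
      (y * Complex.I) ^ (-w) * (1 / (M : ℂ)) ^ ((p : ℂ) - w) *
        (Complex.Gamma w * Complex.Gamma (p - w) / Complex.Gamma p) := by
  have hy' : 0 < |y| := abs_pos.2 hy
  have hconv0 : MellinConvergent (fun z : ℝ => ((((M/2 : ℝ) : ℂ) + (((|y|/2 : ℝ)) : ℂ) * z) ^ p)⁻¹) w := by
    apply mellinConvergent_of_isBigO_rpow (a := p) (b := 0)
    · apply ContinuousOn.locallyIntegrableOn _ measurableSet_Ioi
      apply ContinuousOn.inv₀ (by fun_prop)
      intro z hz
      have hz' : (0:ℝ) < z := hz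
      apply pow_ne_zero
      rw [← Complex.ofReal_mul, ← Complex.ofReal_add, Ne, Complex.ofReal_eq_zero]
      positivity
    · apply Asymptotics.IsBigO.of_bound ((2 / |y|) ^ p)
      filter_upwards [eventually_gt_atTop (0:ℝ)] with z hz
      rw [← Complex.ofReal_mul, ← Complex.ofReal_add, norm_inv, norm_pow, Complex.norm_real,
        Real.norm_of_nonneg (by positivity), Real.norm_of_nonneg (by positivity), Real.rpow_neg hz.le,
        Real.rpow_natCast]
      rw [← inv_pow, ← inv_pow, ← mul_pow]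
      apply pow_le_pow_left₀ (by positivity)
      have h3 : 0 < |y| / 2 * z := by positivity
      calc (M / 2 + |y| / 2 * z)⁻¹ ≤ (|y| / 2 * z)⁻¹ := inv_anti₀ h3 (by linarith)
        _ = _ := by field_simp
    · exact hwp
    · apply Asymptotics.IsBigO.of_bound ((2 / M) ^ p)
      filter_upwards [self_mem_nhdsWithin] with z hz
      have hz' : (0:ℝ) < z := hz
      rw [← Complex.ofReal_mul, ← Complex.ofReal_add, norm_inv, norm_pow, Complex.norm_real,
        Real.norm_of_nonneg (by positivity), neg_zero, Real.rpow_zero, norm_one, mul_one, ← inv_pow]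
      apply pow_le_pow_left₀ (by positivity)
      have h3 : 0 < M / 2 := by positivity
      have h4 : 0 < |y| / 2 * z := by positivity
      calc (M / 2 + |y| / 2 * z)⁻¹ ≤ (M / 2)⁻¹ := inv_anti₀ h3 (by linarith)
        _ = _ := by field_simp
    · exact hw0
  have hL : Tendsto (fun ε : ℝ => ∫ z in Set.Ioi (0:ℝ), (z : ℂ) ^ (w - 1) *
      (((M : ℂ) + (ε + y * Complex.I) * z) ^ p)⁻¹) (𝓝[>] 0)
      (𝓝 (∫ z in Set.Ioi (0:ℝ), (z : ℂ) ^ (w - 1) * (((M : ℂ) + (y * Complex.I) * z) ^ p)⁻¹)) := by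
    apply tendsto_integral_filter_of_dominated_convergence (bound := fun z : ℝ =>
      ‖(z : ℂ) ^ (w - 1) • ((((M/2 : ℝ) : ℂ) + (((|y|/2 : ℝ)) : ℂ) * z) ^ p)⁻¹‖)
    · filter_upwards [self_mem_nhdsWithin] with ε hε
      have := (lin_conv (p := p) hM hy (le_of_lt hε) hw0 hwp)
      exact this.aestronglyMeasurable
    · filter_upwards [self_mem_nhdsWithin] with ε hε
      rw [ae_restrict_iff' measurableSet_Ioi]
      apply Filter.Eventually.of_forall
      intro z hz
      have hz' : (0:ℝ) < z := hz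
      rw [norm_smul, norm_mul]
      apply mul_le_mul_of_nonneg_left _ (norm_nonneg _)
      have h1 := norm_lin_ge hM (y := y) (le_of_lt hε) hz'
      rw [← Complex.ofReal_mul, ← Complex.ofReal_add, norm_inv, norm_inv, norm_pow, norm_pow,
        Complex.norm_real, Real.norm_of_nonneg (by positivity)]
      apply inv_anti₀ (by positivity)
      apply pow_le_pow_left₀ (by positivity)
      linarith
    · exact hconv0.norm
    · rw [ae_restrict_iff' measurableSet_Ioi]
      apply Filter.Eventually.of_forall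
      intro z hz
      have hz' : (0:ℝ) < z := hz
      have hne : ((M : ℂ) + (((0:ℝ) : ℂ) + y * Complex.I) * z) ^ p ≠ 0 := by
        apply pow_ne_zero
        intro h
        have := norm_lin_ge hM (y := y) le_rfl hz'
        rw [h, norm_zero] at this
        have : 0 < |y| * z := by positivity
        linarith
      have hc : ContinuousAt (fun ε : ℝ => (z : ℂ) ^ (w - 1) *
          (((M : ℂ) + (ε + y * Complex.I) * z) ^ p)⁻¹) 0 := by
        have hc1 : ContinuousAt (fun ε : ℝ => ((M : ℂ) + (ε + y * Complex.I) * z) ^ p) 0 := by fun_prop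
        exact ContinuousAt.mul continuousAt_const (hc1.inv₀ hne)
      have := hc.tendsto
      rw [Complex.ofReal_zero, zero_add] at this
      exact this.mono_left nhdsWithin_le_nhds
  have hR : Tendsto (fun ε : ℝ => ((ε : ℂ) + y * Complex.I) ^ (-w) * (1 / (M : ℂ)) ^ ((p : ℂ) - w) *
      (Complex.Gamma w * Complex.Gamma (p - w) / Complex.Gamma p)) (𝓝[>] 0)
      (𝓝 ((y * Complex.I) ^ (-w) * (1 / (M : ℂ)) ^ ((p : ℂ) - w) *
        (Complex.Gamma w * Complex.Gamma (p - w) / Complex.Gamma p))) := by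
    apply Tendsto.mul_const
    apply Tendsto.mul_const
    have hc : ContinuousAt (fun ε : ℝ => ((ε : ℂ) + y * Complex.I) ^ (-w)) 0 := by
      apply ContinuousAt.comp (g := fun z : ℂ => z ^ (-w)) (f := fun ε : ℝ => (ε : ℂ) + y * Complex.I)
      · apply continuousAt_cpow_const
        right
        simpa using hy
      · fun_prop
    have := hc.tendsto
    rw [Complex.ofReal_zero, zero_add] at this
    exact this.mono_left nhdsWithin_le_nhds
  have heq : (fun ε : ℝ => ∫ z in Set.Ioi (0:ℝ), (z : ℂ) ^ (w - 1) *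
      (((M : ℂ) + (ε + y * Complex.I) * z) ^ p)⁻¹) =ᶠ[𝓝[>] 0]
      (fun ε : ℝ => ((ε : ℂ) + y * Complex.I) ^ (-w) * (1 / (M : ℂ)) ^ ((p : ℂ) - w) *
      (Complex.Gamma w * Complex.Gamma (p - w) / Complex.Gamma p)) := by
    filter_upwards [self_mem_nhdsWithin] with ε hε
    exact beta_pos hp hM (by simpa using hε) hw0 hwp
  have := tendsto_nhds_unique (hL.congr' heq) hR
  unfold mellin
  simp only [smul_eq_mul]
  exact this

end Pool.Agent.Helper99.MS
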