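import Pool.Agent.Helper99.MS.Ell

/-!
# Carleman orthogonality for slowly growing functions
(adapted from helper13's bounded version)
-/

namespace Pool.Agent.Helper99.MS

open Finset MeasureTheory Set Filter Topology
open Pool.Agent.Helper13.Mob

/-- Growth version of Carleman orthogonality (after helper13, MobL): a function of slow growth whose
Carleman transform extends continuously across a segment of the imaginary axis is orthogonal to
kernels with spectrum in that segment. -/
theorem carleman2 {g : ℝ → ℂ} (hg : Continuous g) {C : ℝ} (hC0 : 0 ≤ C) (hC : ∀ v, ‖g v‖ ≤ C * ell v) {G : ℂ → ℂ}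
    {r : ℝ} (hr : 0 < r)
    (hp : ∀ s : ℂ, 0 < s.re → s.re < r →
      ∫ v in Set.Ioi (0:ℝ), g v * Complex.exp (-(s * v)) = G s)
    (hm : ∀ s : ℂ, -r < s.re → s.re < 0 →
      ∫ v in Set.Iic (0:ℝ), g v * Complex.exp (-(s * v)) = -G s)
    {T : ℝ}
    (hlim : ∀ t ∈ Set.Icc (-T) T, ∃ ℓ, Tendsto G (𝓝[{s : ℂ | s.re ≠ 0}] (t * Complex.I)) (𝓝 ℓ))
    {κ : ℝ → ℂ} (hκ : Integrable κ) (hκT : ∀ t, t ∉ Set.Icc (-T) T → κ t = 0)
    {K : ℝ → ℂ} (hK : ∀ v : ℝ, K v = ∫ t : ℝ, κ t * Complex.exp (-(t * v * Complex.I)))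
    (hKm : AEStronglyMeasurable K volume) (hKi : Integrable (fun v => ell v * ‖K v‖)) :
    ∫ v, g v * K v = 0 := by
  -- Step A
  have stepA : ∀ σ : ℝ, 0 < σ → σ < r →
      ∫ v : ℝ, g v * (Real.exp (-σ * |v|) : ℂ) * K v =
      ∫ t : ℝ, κ t * (G (σ + t * Complex.I) - G (-σ + t * Complex.I)) := by
    intro σ hσ hσr
    have hgi : Integrable (fun v : ℝ => g v * (Real.exp (-σ * |v|) : ℂ)) := by
      refine Integrable.mono' ((ell_exp_int hσ).const_mul C) ?_ ?_
      · apply Continuous.aestronglyMeasurable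
        fun_prop
      · apply Filter.Eventually.of_forall
        intro v
        rw [norm_mul, Complex.norm_real, Real.norm_of_nonneg (Real.exp_pos _).le, ← mul_assoc]
        exact mul_le_mul_of_nonneg_right (hC v) (Real.exp_pos _).le
    have hprod : Integrable (Function.uncurry fun (v t : ℝ) =>
        (g v * (Real.exp (-σ * |v|) : ℂ)) * κ t * Complex.exp (-(t * v * Complex.I)))
        (volume.prod volume) := by
      have h1 := hgi.mul_prod hκ
      have h2 := h1.mul_bdd (c := 1)
        (g := fun z : ℝ × ℝ => Complex.exp (-((z.2 : ℂ) * z.1 * Complex.I))) ?_ ?_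
      · exact h2
      · apply Continuous.aestronglyMeasurable
        fun_prop
      · apply Filter.Eventually.of_forall
        intro z
        rw [Complex.norm_exp]
        simp
    have e1 : ∫ v : ℝ, g v * (Real.exp (-σ * |v|) : ℂ) * K v =
        ∫ v : ℝ, ∫ t : ℝ, (g v * (Real.exp (-σ * |v|) : ℂ)) * κ t * Complex.exp (-(t * v * Complex.I)) := by
      congr 1
      ext v
      rw [hK v, ← integral_const_mul]
      congr 1
      ext t
      ring
    rw [e1, integral_integral_swap hprod]
    congr 1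
    ext t
    have e2 : ∫ v : ℝ, (g v * (Real.exp (-σ * |v|) : ℂ)) * κ t * Complex.exp (-(t * v * Complex.I)) =
        κ t * ∫ v : ℝ, (g v * (Real.exp (-σ * |v|) : ℂ)) * Complex.exp (-(t * v * Complex.I)) := by
      rw [← integral_const_mul]
      congr 1
      ext v
      ring
    rw [e2]
    congr 1
    have hi : Integrable (fun v : ℝ => (g v * (Real.exp (-σ * |v|) : ℂ)) *
        Complex.exp (-(t * v * Complex.I))) := by
      apply hgi.mul_bdd (c := 1)
      · apply Continuous.aestronglyMeasurable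
        fun_prop
      · apply Filter.Eventually.of_forall
        intro z
        rw [Complex.norm_exp]
        simp
    rw [← integral_add_compl (measurableSet_Ioi (a := (0:ℝ))) hi, Set.compl_Ioi]
    have h1 := hp (σ + t * Complex.I) (by simpa using hσ) (by simpa using hσr)
    have h2 := hm (-σ + t * Complex.I) (by simpa using hσr) (by simpa using hσ)
    have e3 : ∫ v in Set.Ioi (0:ℝ), (g v * (Real.exp (-σ * |v|) : ℂ)) *
        Complex.exp (-(t * v * Complex.I)) = G (σ + t * Complex.I) := by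
      rw [← h1]
      apply setIntegral_congr_fun measurableSet_Ioi
      intro v hv
      have hv' : (0:ℝ) < v := hv
      simp only
      rw [mul_assoc, abs_of_pos hv', Complex.ofReal_exp, ← Complex.exp_add]
      congr 2
      push_cast
      ring
    have e4 : ∫ v in Set.Iic (0:ℝ), (g v * (Real.exp (-σ * |v|) : ℂ)) *
        Complex.exp (-(t * v * Complex.I)) = -G (-σ + t * Complex.I) := by
      rw [← h2]
      apply setIntegral_congr_fun measurableSet_Iic
      intro v hv
      have hv' : v ≤ 0 := hv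
      simp only
      rw [mul_assoc, abs_of_nonpos hv', Complex.ofReal_exp, ← Complex.exp_add]
      congr 2
      push_cast
      ring
    rw [e3, e4]
    ring
  -- Step B
  have stepB : Tendsto (fun σ : ℝ => ∫ v : ℝ, g v * (Real.exp (-σ * |v|) : ℂ) * K v) (𝓝[>] 0)
      (𝓝 (∫ v, g v * K v)) := by
    apply tendsto_integral_filter_of_dominated_convergence (bound := fun v => C * (ell v * ‖K v‖))
    · apply Filter.Eventually.of_forall
      intro σ
      apply AEStronglyMeasurable.mul _ hKm
      apply Continuous.aestronglyMeasurable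
      fun_prop
    · filter_upwards [self_mem_nhdsWithin] with σ hσ
      have hσ' : (0:ℝ) < σ := hσ
      apply Filter.Eventually.of_forall
      intro v
      rw [norm_mul, norm_mul, Complex.norm_real, Real.norm_of_nonneg (Real.exp_pos _).le]
      have h1 : Real.exp (-σ * |v|) ≤ 1 := by
        apply Real.exp_le_one_iff.2
        have := abs_nonneg v
        nlinarith
      rw [← mul_assoc]
      apply mul_le_mul_of_nonneg_right _ (norm_nonneg _)
      calc ‖g v‖ * Real.exp (-σ * |v|) ≤ (C * ell v) * 1 :=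
            mul_le_mul (hC v) h1 (Real.exp_pos _).le (mul_nonneg hC0 (ell_nonneg v))
        _ = C * ell v := mul_one _
    · exact hKi.const_mul C
    · apply Filter.Eventually.of_forall
      intro v
      have h1 : Tendsto (fun σ : ℝ => g v * (Real.exp (-σ * |v|) : ℂ) * K v) (𝓝 0)
          (𝓝 (g v * (Real.exp (-(0:ℝ) * |v|) : ℂ) * K v)) := by
        apply Continuous.tendsto
        fun_prop
      simp only [neg_zero, zero_mul, Real.exp_zero, Complex.ofReal_one, mul_one] at h1
      exact h1.mono_left nhdsWithin_le_nhds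
  -- Step C
  have stepC : Tendsto (fun σ : ℝ => ∫ t : ℝ, κ t * (G (σ + t * Complex.I) - G (-σ + t * Complex.I)))
      (𝓝[>] 0) (𝓝 0) := by
    rw [Metric.tendsto_nhds]
    intro ε hε
    set η := ε / (2 * (∫ t, ‖κ t‖) + 1) with hη
    have hI : 0 ≤ ∫ t, ‖κ t‖ := integral_nonneg (fun _ => norm_nonneg _)
    have hη0 : 0 < η := by positivity
    have hP : ∀ t₀ ∈ Set.Icc (-T) T, ∀ᶠ z : ℝ × ℝ in 𝓝 ((0:ℝ), t₀), 0 < z.1 →
        ‖G (z.1 + z.2 * Complex.I) - G (-z.1 + z.2 * Complex.I)‖ ≤ 2 * η := by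
      intro t₀ ht₀
      obtain ⟨ℓ, hℓ⟩ := hlim t₀ ht₀
      have h1 : ∀ᶠ s in 𝓝 (t₀ * Complex.I : ℂ), s.re ≠ 0 → dist (G s) ℓ < η := by
        have := Metric.tendsto_nhds.1 hℓ η hη0
        rw [eventually_nhdsWithin_iff] at this
        exact this
      have c1 : Tendsto (fun z : ℝ × ℝ => (z.1 + z.2 * Complex.I : ℂ)) (𝓝 ((0:ℝ), t₀))
          (𝓝 (t₀ * Complex.I)) := by
        have : Continuous (fun z : ℝ × ℝ => (z.1 + z.2 * Complex.I : ℂ)) := by fun_prop
        have h := this.tendsto ((0:ℝ), t₀)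
        simpa using h
      have c2 : Tendsto (fun z : ℝ × ℝ => (-z.1 + z.2 * Complex.I : ℂ)) (𝓝 ((0:ℝ), t₀))
          (𝓝 (t₀ * Complex.I)) := by
        have : Continuous (fun z : ℝ × ℝ => (-z.1 + z.2 * Complex.I : ℂ)) := by fun_prop
        have h := this.tendsto ((0:ℝ), t₀)
        simpa using h
      filter_upwards [c1.eventually h1, c2.eventually h1] with z hz1 hz2 hz
      have a1 := hz1 (by simpa using hz.ne')
      have a2 := hz2 (by simpa using hz.ne')
      rw [dist_eq_norm] at a1 a2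
      calc ‖G (z.1 + z.2 * Complex.I) - G (-z.1 + z.2 * Complex.I)‖
          = ‖(G (z.1 + z.2 * Complex.I) - ℓ) - (G (-z.1 + z.2 * Complex.I) - ℓ)‖ := by
            congr 1; ring
        _ ≤ ‖G (z.1 + z.2 * Complex.I) - ℓ‖ + ‖G (-z.1 + z.2 * Complex.I) - ℓ‖ := norm_sub_le _ _
        _ ≤ 2 * η := by linarith
    have hev := isCompact_Icc.eventually_forall_of_forall_eventually
      (P := fun σ t : ℝ => 0 < σ → ‖G (σ + t * Complex.I) - G (-σ + t * Complex.I)‖ ≤ 2 * η) hP
    filter_upwards [hev.filter_mono nhdsWithin_le_nhds, self_mem_nhdsWithin] with σ hσ hσ0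
    have hσ' : (0:ℝ) < σ := hσ0
    rw [dist_zero_right]
    have hb : ‖∫ t : ℝ, κ t * (G (σ + t * Complex.I) - G (-σ + t * Complex.I))‖ ≤
        ∫ t : ℝ, (2 * η) * ‖κ t‖ := by
      apply norm_integral_le_of_norm_le (hκ.norm.const_mul _)
      apply Filter.Eventually.of_forall
      intro t
      by_cases ht : t ∈ Set.Icc (-T) T
      · rw [norm_mul, mul_comm]
        exact mul_le_mul_of_nonneg_right (hσ t ht hσ') (norm_nonneg _)
      · rw [hκT t ht]
        simp
    rw [integral_const_mul] at hb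
    refine lt_of_le_of_lt hb ?_
    rw [hη]
    have : 2 * (ε / (2 * (∫ t, ‖κ t‖) + 1)) * ∫ t, ‖κ t‖ = ε * (2 * (∫ t, ‖κ t‖)) / (2 * (∫ t, ‖κ t‖) + 1) := by
      field_simp
    rw [this, div_lt_iff₀ (by positivity)]
    nlinarith
  have hA' : Tendsto (fun σ : ℝ => ∫ v : ℝ, g v * (Real.exp (-σ * |v|) : ℂ) * K v) (𝓝[>] 0) (𝓝 0) := by
    apply stepC.congr'
    filter_upwards [Ioo_mem_nhdsGT hr] with σ hσ
    exact (stepA σ hσ.1 hσ.2).symm
  exact tendsto_nhds_unique stepB hA'

end Pool.Agent.Helper99.MS
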