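import Pool.Agent.Helper13.MobN

/-!
# A slowly growing majorant
-/

namespace Pool.Agent.Helper99.MS

open Finset MeasureTheory Set Filter Topology

/-- slowly growing weight -/
noncomputable def ell (v : ℝ) : ℝ := 1 + Real.log (1 + |v|)

theorem one_le_ell (v : ℝ) : 1 ≤ ell v := by
  unfold ell
  have := Real.log_nonneg (show (1:ℝ) ≤ 1 + |v| by linarith [abs_nonneg v])
  linarith

theorem ell_pos (v : ℝ) : 0 < ell v := lt_of_lt_of_le one_pos (one_le_ell v)

theorem ell_nonneg (v : ℝ) : 0 ≤ ell v := (ell_pos v).le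

theorem ell_neg (v : ℝ) : ell (-v) = ell v := by simp [ell]

theorem ell_mono {u v : ℝ} (h : |u| ≤ |v|) : ell u ≤ ell v := by
  unfold ell
  have := Real.log_le_log (by linarith [abs_nonneg u] : (0:ℝ) < 1 + |u|) (by linarith : 1 + |u| ≤ 1 + |v|)
  linarith

theorem ell_add (u v : ℝ) : ell (u + v) ≤ ell u * ell v := by
  have h0 : 1 + |u + v| ≤ (1 + |u|) * (1 + |v|) := by
    have := abs_add_le u v
    nlinarith [abs_nonneg u, abs_nonneg v, mul_nonneg (abs_nonneg u) (abs_nonneg v)]
  have h1 : Real.log (1 + |u + v|) ≤ Real.log (1 + |u|) + Real.log (1 + |v|) := by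
    rw [← Real.log_mul (by linarith [abs_nonneg u]) (by linarith [abs_nonneg v])]
    exact Real.log_le_log (by linarith [abs_nonneg (u + v)]) h0
  have hu := Real.log_nonneg (show (1:ℝ) ≤ 1 + |u| by linarith [abs_nonneg u])
  have hv := Real.log_nonneg (show (1:ℝ) ≤ 1 + |v| by linarith [abs_nonneg v])
  unfold ell
  nlinarith [mul_nonneg hu hv]

theorem ell_le_sqrt (v : ℝ) : ell v ≤ 2 * √(1 + |v|) := by
  have h0 : (0:ℝ) < 1 + |v| := by linarith [abs_nonneg v]
  have h1 := Real.log_le_sub_one_of_pos (Real.sqrt_pos.2 h0)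
  rw [Real.log_sqrt h0.le] at h1
  unfold ell
  linarith

theorem ell_le_linear (v : ℝ) : ell v ≤ 1 + |v| := by
  have h0 : (0:ℝ) < 1 + |v| := by linarith [abs_nonneg v]
  have := Real.log_le_sub_one_of_pos h0
  unfold ell
  linarith

theorem ell_cont : Continuous ell := by
  unfold ell
  apply continuous_const.add
  apply Continuous.log (by fun_prop)
  intro v
  have := abs_nonneg v
  positivity

theorem ell_exp_int {c : ℝ} (hc : 0 < c) : Integrable (fun v => ell v * Real.exp (-c * |v|)) := by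
  have h1 : Integrable (fun v : ℝ => (1 + 2 / c) * Real.exp (-(c / 2) * |v|)) :=
    (Pool.Agent.Helper13.Mob.integrable_exp_abs (by positivity)).const_mul _
  refine Integrable.mono' h1 ?_ ?_
  · apply Continuous.aestronglyMeasurable
    exact ell_cont.mul (by fun_prop)
  · apply Filter.Eventually.of_forall
    intro v
    rw [norm_mul, Real.norm_of_nonneg (ell_nonneg v), Real.norm_of_nonneg (Real.exp_pos _).le]
    have h2 : Real.exp (-c * |v|) = Real.exp (-(c/2) * |v|) * Real.exp (-(c/2) * |v|) := by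
      rw [← Real.exp_add]; congr 1; ring
    rw [h2, ← mul_assoc]
    apply mul_le_mul_of_nonneg_right _ (Real.exp_pos _).le
    have h3 : ell v ≤ 1 + |v| := ell_le_linear v
    have h4 : 1 + |v| ≤ (1 + 2 / c) * Real.exp ((c/2) * |v|) := by
      have h5 := Real.add_one_le_exp ((c/2) * |v|)
      have h6 : (0:ℝ) ≤ |v| := abs_nonneg v
      have h7 : |v| = (2 / c) * ((c/2) * |v|) := by field_simp
      have h8 : (1:ℝ) ≤ Real.exp ((c/2) * |v|) := Real.one_le_exp (by positivity)
      have h9 : (c/2) * |v| ≤ Real.exp ((c/2) * |v|) := by linarith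
      calc 1 + |v| = 1 + (2 / c) * ((c/2) * |v|) := by rw [← h7]
        _ ≤ Real.exp ((c/2) * |v|) + (2 / c) * Real.exp ((c/2) * |v|) := by
            apply add_le_add h8
            exact mul_le_mul_of_nonneg_left h9 (by positivity)
        _ = _ := by ring
    calc ell v * Real.exp (-(c/2) * |v|) ≤ ((1 + 2 / c) * Real.exp ((c/2) * |v|)) * Real.exp (-(c/2) * |v|) :=
          mul_le_mul_of_nonneg_right (h3.trans h4) (Real.exp_pos _).le
      _ = (1 + 2 / c) * (Real.exp ((c/2) * |v|) * Real.exp (-(c/2) * |v|)) := by ring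
      _ = 1 + 2 / c := by
          rw [← Real.exp_add]
          simp

theorem rpow_bd (v : ℝ) : ell v * (1 + v ^ 2)⁻¹ ≤ 4 * (1 + |v|) ^ (-(3/2) : ℝ) := by
  have h0 : (0:ℝ) < 1 + |v| := by linarith [abs_nonneg v]
  have h1 : (1 + |v|) ^ 2 ≤ 2 * (1 + v ^ 2) := by
    rw [← sq_abs v]
    nlinarith [sq_nonneg (1 - |v|)]
  have h2 : (1 + v ^ 2)⁻¹ ≤ 2 * ((1 + |v|) ^ 2)⁻¹ := by
    rw [← div_eq_mul_inv, le_div_iff₀ (by positivity), inv_mul_le_iff₀ (by positivity)]
    linarith
  have h3 := ell_le_sqrt v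
  have h4 : (1 + |v|) ^ (-(3/2) : ℝ) = √(1 + |v|) * ((1 + |v|) ^ 2)⁻¹ := by
    rw [Real.sqrt_eq_rpow, ← Real.rpow_natCast, ← Real.rpow_neg h0.le, ← Real.rpow_add h0]
    congr 1
    norm_num
  rw [h4]
  calc ell v * (1 + v ^ 2)⁻¹ ≤ (2 * √(1 + |v|)) * (2 * ((1 + |v|) ^ 2)⁻¹) :=
        mul_le_mul h3 h2 (by positivity) (by positivity)
    _ = _ := by ring

theorem int_one_add_abs : Integrable (fun v : ℝ => (1 + |v|) ^ (-(3/2) : ℝ)) := by
  have := integrable_one_add_norm (E := ℝ) (μ := volume) (r := 3/2) (by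
    simp only [Module.finrank_self]; norm_num)
  simpa using this

theorem ell_sq_int : Integrable (fun v => ell v * (1 + v ^ 2)⁻¹) := by
  refine Integrable.mono' (int_one_add_abs.const_mul 4) ?_ ?_
  · apply Continuous.aestronglyMeasurable
    apply ell_cont.mul
    apply Continuous.inv₀ (by fun_prop)
    intro v; positivity
  · apply Filter.Eventually.of_forall
    intro v
    have := ell_nonneg v
    rw [Real.norm_of_nonneg (by positivity)]
    exact rpow_bd v

end Pool.Agent.Helper99.MS
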