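import Pool.Agent.Helper99.MS.Lap

/-!
# The bump kernel
-/

namespace Pool.Agent.Helper99.MS

open Finset MeasureTheory Set Filter Topology

noncomputable def XX (t : ℝ) : ℝ := 1 + t - Real.exp t

noncomputable def EE (p t : ℝ) : ℝ := Real.exp (p * XX t)

/-- derivative of `EE p` -/
noncomputable def ww (p t : ℝ) : ℝ := p * (1 - Real.exp t) * EE p t

noncomputable def al (m t : ℝ) : ℝ := Real.exp (-(t / 2)) * ww m t

theorem XX_nonpos (t : ℝ) : XX t ≤ 0 := by
  unfold XX
  linarith [Real.add_one_le_exp t]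

theorem XX_le (t : ℝ) : XX t ≤ 1 + t := by
  unfold XX
  linarith [Real.exp_pos t]

theorem XX_le_sq_pos {t : ℝ} (ht : 0 ≤ t) : XX t ≤ -(t ^ 2 / 2) := by
  unfold XX
  have := Real.quadratic_le_exp_of_nonneg ht
  linarith

theorem XX_le_sq {t : ℝ} (ht : |t| ≤ 1) : XX t ≤ -(t ^ 2 / 4) := by
  have h := Real.exp_bound ht (n := 3) (by norm_num)
  simp only [Finset.sum_range_succ, Finset.sum_range_zero, Nat.factorial] at h
  norm_num at h
  have h1 := (abs_le.1 h).1
  have h2 : |t| ^ 3 ≤ t ^ 2 := by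
    rw [← sq_abs t]
    have := abs_nonneg t
    nlinarith [sq_nonneg |t|]
  unfold XX
  nlinarith

theorem XX_ge_sq {t : ℝ} (ht : |t| ≤ 1) : -(t ^ 2) ≤ XX t := by
  have h := Real.abs_exp_sub_one_sub_id_le ht
  have h1 := (abs_le.1 h).2
  unfold XX
  linarith

theorem EE_pos (p t : ℝ) : 0 < EE p t := Real.exp_pos _

theorem EE_zero (p : ℝ) : EE p 0 = 1 := by simp [EE, XX]

theorem EE_le_one {p : ℝ} (hp : 0 ≤ p) (t : ℝ) : EE p t ≤ 1 := by
  unfold EE
  apply Real.exp_le_one_iff.2
  exact mul_nonpos_of_nonneg_of_nonpos hp (XX_nonpos t)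

theorem EE_add (p q t : ℝ) : EE (p + q) t = EE p t * EE q t := by
  unfold EE
  rw [← Real.exp_add]
  congr 1
  ring

theorem EE_anti {p q : ℝ} (h : p ≤ q) (t : ℝ) : EE q t ≤ EE p t := by
  unfold EE
  apply Real.exp_le_exp.2
  nlinarith [XX_nonpos t]

theorem EE_deriv (p t : ℝ) : HasDerivAt (EE p) (ww p t) t := by
  have h1 : HasDerivAt (fun t => p * XX t) (p * (1 - Real.exp t)) t := by
    have h2 : HasDerivAt XX (1 - Real.exp t) t := by
      have := ((hasDerivAt_id t).const_add 1).sub (Real.hasDerivAt_exp t)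
      exact this
    exact h2.const_mul p
  have := h1.exp
  unfold ww EE
  rw [mul_comm]
  exact this

theorem EE_cont (p : ℝ) : Continuous (EE p) := by
  unfold EE XX
  fun_prop

theorem ww_cont (p : ℝ) : Continuous (ww p) := by
  unfold ww EE XX
  fun_prop

theorem al_cont (m : ℝ) : Continuous (al m) := by
  unfold al
  exact (by fun_prop : Continuous fun t : ℝ => Real.exp (-(t / 2))).mul (ww_cont m)

theorem ww_bd {p : ℝ} (hp : 4 ≤ p) (t : ℝ) : |ww p t| ≤ p * (Real.exp 4 * Real.exp (-|t|)) := by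
  unfold ww
  rw [abs_mul, abs_mul, abs_of_nonneg (by linarith : 0 ≤ p), abs_of_pos (EE_pos p t), mul_assoc]
  apply mul_le_mul_of_nonneg_left _ (by linarith)
  have h1 : EE p t ≤ EE 4 t := EE_anti hp t
  rcases le_total 0 t with ht | ht
  · rw [abs_of_nonneg ht, abs_of_nonpos (by linarith [Real.one_le_exp ht])]
    have h2 : EE 4 t ≤ Real.exp (-(2 * t ^ 2)) := by
      unfold EE
      apply Real.exp_le_exp.2
      have := XX_le_sq_pos ht
      linarith
    calc -(1 - Real.exp t) * EE p t ≤ Real.exp t * Real.exp (-(2 * t ^ 2)) := by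
          apply mul_le_mul _ (h1.trans h2) (EE_pos p t).le (Real.exp_pos _).le
          linarith
      _ ≤ Real.exp 4 * Real.exp (-t) := by
          rw [← Real.exp_add, ← Real.exp_add]
          apply Real.exp_le_exp.2
          nlinarith [sq_nonneg (t - 1)]
  · rw [abs_of_nonpos ht, neg_neg, abs_of_nonneg (by linarith [Real.exp_le_one_iff.2 ht])]
    have h2 : EE 4 t ≤ Real.exp (4 * (1 + t)) := by
      unfold EE
      apply Real.exp_le_exp.2
      have := XX_le t
      linarith
    calc (1 - Real.exp t) * EE p t ≤ 1 * Real.exp (4 * (1 + t)) := by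
          apply mul_le_mul _ (h1.trans h2) (EE_pos p t).le zero_le_one
          linarith [Real.exp_pos t]
      _ ≤ Real.exp 4 * Real.exp t := by
          rw [one_mul, ← Real.exp_add]
          apply Real.exp_le_exp.2
          linarith

theorem al_bd {m : ℝ} (hm : 4 ≤ m) (t : ℝ) : |al m t| ≤ m * (Real.exp 4 * Real.exp (-|t|)) := by
  unfold al
  rw [abs_mul, abs_of_pos (Real.exp_pos _)]
  rcases le_total 0 t with ht | ht
  · have h1 : Real.exp (-(t/2)) ≤ 1 := Real.exp_le_one_iff.2 (by linarith)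
    calc _ ≤ 1 * |ww m t| := mul_le_mul_of_nonneg_right h1 (abs_nonneg _)
      _ ≤ _ := by rw [one_mul]; exact ww_bd hm t
  · unfold ww
    rw [abs_mul, abs_mul, abs_of_nonneg (by linarith : 0 ≤ m), abs_of_pos (EE_pos m t),
      abs_of_nonpos ht, neg_neg, abs_of_nonneg (by linarith [Real.exp_le_one_iff.2 ht])]
    have h1 : EE m t ≤ EE 4 t := EE_anti hm t
    have h2 : EE 4 t ≤ Real.exp (4 * (1 + t)) := by
      unfold EE
      apply Real.exp_le_exp.2
      have := XX_le t
      linarith
    have h3 : (1 - Real.exp t) * EE m t ≤ 1 * Real.exp (4 * (1 + t)) := by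
      apply mul_le_mul _ (h1.trans h2) (EE_pos m t).le zero_le_one
      linarith [Real.exp_pos t]
    calc Real.exp (-(t/2)) * (m * (1 - Real.exp t) * EE m t) =
          m * (Real.exp (-(t/2)) * ((1 - Real.exp t) * EE m t)) := by ring
      _ ≤ m * (Real.exp (-(t/2)) * (1 * Real.exp (4 * (1 + t)))) := by
          apply mul_le_mul_of_nonneg_left _ (by linarith)
          exact mul_le_mul_of_nonneg_left h3 (Real.exp_pos _).le
      _ ≤ m * (Real.exp 4 * Real.exp t) := by
          apply mul_le_mul_of_nonneg_left _ (by linarith)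
          rw [one_mul, ← Real.exp_add, ← Real.exp_add]
          apply Real.exp_le_exp.2
          linarith

theorem exp_abs_int : Integrable (fun t : ℝ => Real.exp (-|t|)) := by
  have := Pool.Agent.Helper13.Mob.integrable_exp_abs (σ := 1) one_pos
  simpa using this

theorem ww_int {p : ℝ} (hp : 4 ≤ p) : Integrable (ww p) := by
  refine Integrable.mono' ((exp_abs_int.const_mul (Real.exp 4)).const_mul p)
    (ww_cont p).aestronglyMeasurable ?_
  exact Filter.Eventually.of_forall (fun t => ww_bd hp t)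

theorem al_int {m : ℝ} (hm : 4 ≤ m) : Integrable (al m) := by
  refine Integrable.mono' ((exp_abs_int.const_mul (Real.exp 4)).const_mul m)
    (al_cont m).aestronglyMeasurable ?_
  exact Filter.Eventually.of_forall (fun t => al_bd hm t)

theorem EE_atTop {p : ℝ} (hp : 0 < p) : Tendsto (EE p) atTop (𝓝 0) := by
  unfold EE
  apply Real.tendsto_exp_atBot.comp
  apply Tendsto.const_mul_atBot hp
  have h1 : Tendsto (fun t : ℝ => -(t ^ 2 / 2)) atTop atBot := by
    apply tendsto_neg_atTop_atBot.comp
    apply Tendsto.atTop_div_const (by norm_num)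
    exact tendsto_pow_atTop (by norm_num)
  apply tendsto_atBot_mono' _ _ h1
  filter_upwards [eventually_ge_atTop (0:ℝ)] with t ht
  exact XX_le_sq_pos ht

theorem EE_atBot {p : ℝ} (hp : 0 < p) : Tendsto (EE p) atBot (𝓝 0) := by
  unfold EE
  apply Real.tendsto_exp_atBot.comp
  apply Tendsto.const_mul_atBot hp
  apply tendsto_atBot_mono (XX_le)
  exact tendsto_atBot_add_const_left _ _ tendsto_id

theorem ww_Iic {p : ℝ} (hp : 4 ≤ p) (a : ℝ) : ∫ t in Set.Iic a, ww p t = EE p a := by
  rw [integral_Iic_of_hasDerivAt_of_tendsto' (fun t _ => EE_deriv p t) (ww_int hp).integrableOn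
    (EE_atBot (by linarith)), sub_zero]

theorem ww_Ioi {p : ℝ} (hp : 4 ≤ p) (a : ℝ) : ∫ t in Set.Ioi a, ww p t = -EE p a := by
  rw [integral_Ioi_of_hasDerivAt_of_tendsto' (fun t _ => EE_deriv p t) (ww_int hp).integrableOn
    (EE_atTop (by linarith)), zero_sub]

theorem ww_tot {p : ℝ} (hp : 4 ≤ p) : ∫ t, ww p t = 0 := by
  rw [integral_of_hasDerivAt_of_tendsto (fun t => EE_deriv p t) (ww_int hp)
    (EE_atBot (by linarith)) (EE_atTop (by linarith)), sub_zero]

theorem ww_nonneg {p : ℝ} (hp : 0 ≤ p) {t : ℝ} (ht : t ≤ 0) : 0 ≤ ww p t := by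
  unfold ww
  have := Real.exp_le_one_iff.2 ht
  have := (EE_pos p t).le
  apply mul_nonneg _ this
  apply mul_nonneg hp
  linarith

theorem ww_nonpos {p : ℝ} (hp : 0 ≤ p) {t : ℝ} (ht : 0 ≤ t) : ww p t ≤ 0 := by
  unfold ww
  have := Real.one_le_exp ht
  have := (EE_pos p t).le
  apply mul_nonpos_of_nonpos_of_nonneg _ this
  apply mul_nonpos_of_nonneg_of_nonpos hp
  linarith

theorem key1 (t : ℝ) : Real.exp (-(t/2)) * ell t * EE 4 t ≤ 4 := by
  have hE1 : EE 4 t ≤ 1 := EE_le_one (by norm_num) t
  have hl : ell t ≤ 1 + |t| := ell_le_linear t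
  have e12 : Real.exp (1/2) ≤ 2 := by
    have h := Real.exp_bound_div_one_sub_of_interval (x := 1/2) (by norm_num) (by norm_num)
    linarith
  rcases le_total 0 t with ht | ht
  · rw [abs_of_nonneg ht] at hl
    have h1 : ell t ≤ 2 * Real.exp (t/2) := by
      have := Real.add_one_le_exp (t/2)
      linarith
    calc Real.exp (-(t/2)) * ell t * EE 4 t ≤ Real.exp (-(t/2)) * (2 * Real.exp (t/2)) * 1 := by
          apply mul_le_mul _ hE1 (EE_pos 4 t).le (by positivity)
          exact mul_le_mul_of_nonneg_left h1 (Real.exp_pos _).le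
      _ = 2 * (Real.exp (-(t/2)) * Real.exp (t/2)) := by ring
      _ = 2 := by rw [← Real.exp_add]; simp
      _ ≤ 4 := by norm_num
  · rw [abs_of_nonpos ht] at hl
    rcases le_total (-1) t with h1 | h1
    · have h2 : Real.exp (-(t/2)) ≤ Real.exp (1/2) := Real.exp_le_exp.2 (by linarith)
      calc Real.exp (-(t/2)) * ell t * EE 4 t ≤ (2 * 2) * 1 := by
            apply mul_le_mul _ hE1 (EE_pos 4 t).le (by norm_num)
            apply mul_le_mul (h2.trans e12) _ (ell_nonneg t) (by norm_num)
            linarith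
        _ = 4 := by norm_num
    · have h2 : ell t ≤ 2 * Real.exp (-t - 1) := by
        have := Real.add_one_le_exp (-t - 1)
        linarith
      have h3 : EE 4 t ≤ Real.exp (4 * (1 + t)) := by
        unfold EE
        apply Real.exp_le_exp.2
        have := XX_le t
        linarith
      calc Real.exp (-(t/2)) * ell t * EE 4 t ≤ Real.exp (-(t/2)) * (2 * Real.exp (-t - 1)) *
            Real.exp (4 * (1 + t)) := by
            apply mul_le_mul _ h3 (EE_pos 4 t).le (by positivity)
            exact mul_le_mul_of_nonneg_left h2 (Real.exp_pos _).le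
        _ = 2 * (Real.exp (-(t/2)) * Real.exp (-t - 1) * Real.exp (4 * (1 + t))) := by ring
        _ = 2 * Real.exp (3 + 5/2 * t) := by
            rw [← Real.exp_add, ← Real.exp_add]
            congr 2
            ring
        _ ≤ 2 * Real.exp (1/2) := by
            apply mul_le_mul_of_nonneg_left _ (by norm_num)
            apply Real.exp_le_exp.2
            linarith
        _ ≤ 4 := by linarith

/-- pointwise domination of the weighted kernel by the derivative of another bump -/
theorem ell_al_le {m : ℝ} (hm : 8 ≤ m) (t : ℝ) : ell t * |al m t| ≤ 8 * |ww (m - 4) t| := by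
  have h0 : EE m t = EE 4 t * EE (m - 4) t := by
    rw [← EE_add]; congr 1; ring
  unfold al ww
  rw [h0, abs_mul, abs_mul, abs_mul, abs_mul, abs_mul, abs_mul, abs_of_pos (Real.exp_pos _),
    abs_of_nonneg (by linarith : 0 ≤ m), abs_of_nonneg (by linarith : 0 ≤ m - 4),
    abs_of_pos (EE_pos _ t), abs_of_pos (EE_pos _ t)]
  have h1 := key1 t
  have h2 : m ≤ 2 * (m - 4) := by linarith
  have h3 := abs_nonneg (1 - Real.exp t)
  have h4 := (EE_pos (m-4) t).le
  calc ell t * (Real.exp (-(t / 2)) * (m * |1 - Real.exp t| * (EE 4 t * EE (m - 4) t)))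
      = (Real.exp (-(t/2)) * ell t * EE 4 t) * (m * (|1 - Real.exp t| * EE (m - 4) t)) := by ring
    _ ≤ 4 * ((2 * (m - 4)) * (|1 - Real.exp t| * EE (m - 4) t)) := by
        apply mul_le_mul h1 _ (by positivity) (by norm_num)
        exact mul_le_mul_of_nonneg_right h2 (by positivity)
    _ = _ := by ring

theorem ell_al_int {m : ℝ} (hm : 8 ≤ m) : Integrable (fun t => ell t * |al m t|) := by
  refine Integrable.mono' ((ww_int (by linarith : 4 ≤ m - 4)).abs.const_mul 8) ?_ ?_
  · exact (ell_cont.mul (al_cont m).abs).aestronglyMeasurable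
  · apply Filter.Eventually.of_forall
    intro t
    rw [Real.norm_of_nonneg (mul_nonneg (ell_nonneg t) (abs_nonneg _))]
    exact ell_al_le hm t

theorem tail_Iic {m : ℝ} (hm : 8 ≤ m) {a : ℝ} (ha : a ≤ 0) :
    ∫ t in Set.Iic a, ell t * |al m t| ≤ 8 * EE (m - 4) a := by
  have h4 : 4 ≤ m - 4 := by linarith
  calc ∫ t in Set.Iic a, ell t * |al m t| ≤ ∫ t in Set.Iic a, 8 * ww (m - 4) t := by
        apply setIntegral_mono_on (ell_al_int hm).integrableOn ((ww_int h4).integrableOn.const_mul 8)
          measurableSet_Iic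
        intro t ht
        have ht' : t ≤ 0 := le_trans ht ha
        have := ell_al_le hm t
        rwa [abs_of_nonneg (ww_nonneg (by linarith) ht')] at this
    _ = _ := by rw [integral_const_mul, ww_Iic h4]

theorem tail_Ioi {m : ℝ} (hm : 8 ≤ m) {a : ℝ} (ha : 0 ≤ a) :
    ∫ t in Set.Ioi a, ell t * |al m t| ≤ 8 * EE (m - 4) a := by
  have h4 : 4 ≤ m - 4 := by linarith
  calc ∫ t in Set.Ioi a, ell t * |al m t| ≤ ∫ t in Set.Ioi a, 8 * (-ww (m - 4) t) := by
        apply setIntegral_mono_on (ell_al_int hm).integrableOn ((ww_int h4).neg.integrableOn.const_mul 8)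
          measurableSet_Ioi
        intro t ht
        have ht' : 0 ≤ t := le_trans ha (le_of_lt ht)
        have := ell_al_le hm t
        rwa [abs_of_nonpos (ww_nonpos (by linarith) ht')] at this
    _ = _ := by
        rw [integral_const_mul, integral_neg, ww_Ioi h4]
        ring

theorem ell_al_tot {m : ℝ} (hm : 8 ≤ m) : ∫ t, ell t * |al m t| ≤ 16 := by
  have h := integral_add_compl (measurableSet_Iic (a := (0:ℝ))) (ell_al_int hm)
  rw [Set.compl_Iic] at h
  rw [← h]
  have h1 := tail_Iic hm le_rfl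
  have h2 := tail_Ioi hm le_rfl
  rw [EE_zero] at h1 h2
  linarith

end Pool.Agent.Helper99.MS
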