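import Pool.Agent.Helper99.MS.Kern1
import Pool.Agent.Helper99.MS.Beta
import Pool.Agent.Helper13.MobO

/-!
# The dual kernel
-/

namespace Pool.Agent.Helper99.MS

open Finset MeasureTheory Set Filter Topology
open Pool.Agent.Helper13.Mob (mellin_eq_laplace)

/-- one summand -/
noncomputable def r1 (m : ℕ) (y z : ℝ) : ℂ :=
  (Real.exp m : ℂ) * ((Nat.factorial (m - 1) : ℕ) : ℂ) *
    ((1 - (m : ℂ)) * (((m : ℂ) + (y * Complex.I) * z) ^ m)⁻¹ +
      (m : ℂ) ^ 2 * (((m : ℂ) + (y * Complex.I) * z) ^ (m + 1))⁻¹)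

noncomputable def rr (m : ℕ) (z : ℝ) : ℂ := r1 m (2 * Real.pi) z + r1 m (-(2 * Real.pi)) z

noncomputable def be (m : ℕ) (t : ℝ) : ℂ := ((Real.exp (t / 2) : ℝ) : ℂ) * rr m (Real.exp t)

theorem lin_ne {m : ℕ} (hm : 1 ≤ m) (y z : ℝ) : (m : ℂ) + (y * Complex.I) * z ≠ 0 := by
  intro h
  have := congrArg Complex.re h
  simp only [Complex.add_re, Complex.natCast_re, Complex.mul_re, Complex.ofReal_re, Complex.I_re, mul_zero,
    Complex.ofReal_im, Complex.I_im, mul_one, sub_self, zero_mul, Complex.mul_im, add_zero,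
    Complex.zero_re] at this
  have h1 : (1:ℝ) ≤ m := by exact_mod_cast hm
  linarith

theorem r1_cont {m : ℕ} (hm : 1 ≤ m) (y : ℝ) : Continuous (r1 m y) := by
  unfold r1
  have h1 : Continuous (fun z : ℝ => (((m : ℂ) + (y * Complex.I) * z) ^ m)⁻¹) := by
    apply Continuous.inv₀ (by fun_prop)
    intro z
    exact pow_ne_zero _ (lin_ne hm y z)
  have h2 : Continuous (fun z : ℝ => (((m : ℂ) + (y * Complex.I) * z) ^ (m+1))⁻¹) := by
    apply Continuous.inv₀ (by fun_prop)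
    intro z
    exact pow_ne_zero _ (lin_ne hm y z)
  fun_prop

theorem rr_cont {m : ℕ} (hm : 1 ≤ m) : Continuous (rr m) := by
  unfold rr
  exact (r1_cont hm _).add (r1_cont hm _)

theorem be_cont {m : ℕ} (hm : 1 ≤ m) : Continuous (be m) := by
  unfold be
  apply Continuous.mul (by fun_prop)
  exact (rr_cont hm).comp Real.continuous_exp

theorem r1_mellin {m : ℕ} (hm : 1 ≤ m) {y : ℝ} (hy : y ≠ 0) {w : ℂ} (hw0 : 0 < w.re) (hwm : w.re < m) :
    HasMellin (r1 m y) w (Complex.exp m * (1 - w) * (1 / (m : ℂ)) ^ ((m : ℂ) - w) * Complex.Gamma w *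
      Complex.Gamma (m - w) * (y * Complex.I) ^ (-w)) := by
  have hmR : (0:ℝ) < m := by exact_mod_cast hm
  have hmC : (m : ℂ) ≠ 0 := by exact_mod_cast hmR.ne'
  have c1 := lin_conv (p := m) hmR hy (le_refl (0:ℝ)) hw0 hwm
  have hwm' : w.re < ((m + 1 : ℕ) : ℝ) := by push_cast; linarith
  have c2 := lin_conv (p := m + 1) hmR hy (le_refl (0:ℝ)) hw0 hwm'
  have b1 := beta_im (p := m) hm hmR hy hw0 hwm
  have b2 := beta_im (p := m + 1) (by omega) hmR hy hw0 hwm'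
  simp only [Complex.ofReal_zero, zero_add, Complex.ofReal_natCast] at c1 c2 b1 b2
  have hG1 : Complex.Gamma (m : ℂ) = ((Nat.factorial (m - 1) : ℕ) : ℂ) := by
    obtain ⟨k, rfl⟩ : ∃ k, m = k + 1 := ⟨m - 1, by omega⟩
    rw [Nat.add_sub_cancel, ← Complex.Gamma_nat_eq_factorial]
    push_cast
    rfl
  have hG2 : Complex.Gamma ((m + 1 : ℕ) : ℂ) = (m : ℂ) * Complex.Gamma (m : ℂ) := by
    push_cast
    exact Complex.Gamma_add_one _ hmC
  have hGne : Complex.Gamma (m : ℂ) ≠ 0 := by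
    rw [hG1]
    exact_mod_cast Nat.factorial_ne_zero _
  have hmw : (m : ℂ) - w ≠ 0 := by
    intro h
    have := congrArg Complex.re h
    simp only [Complex.sub_re, Complex.natCast_re, Complex.zero_re] at this
    linarith
  have hG3 : Complex.Gamma (((m + 1 : ℕ) : ℂ) - w) = ((m : ℂ) - w) * Complex.Gamma ((m : ℂ) - w) := by
    rw [← Complex.Gamma_add_one _ hmw]
    congr 1
    push_cast
    ring
  have hpow : (1 / (m : ℂ)) ^ (((m + 1 : ℕ) : ℂ) - w) = (1 / (m : ℂ)) ^ ((m : ℂ) - w) * (1 / (m : ℂ)) := by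
    rw [show ((m + 1 : ℕ) : ℂ) - w = ((m : ℂ) - w) + 1 by push_cast; ring,
      Complex.cpow_add _ _ (by simpa using hmC), Complex.cpow_one]
  rw [hG2, hG3, hpow] at b2
  unfold HasMellin
  have hconv : MellinConvergent (r1 m y) w := by
    unfold MellinConvergent at c1 c2 ⊢
    have h := ((c1.const_mul (1 - (m : ℂ))).add (c2.const_mul ((m : ℂ) ^ 2))).const_mul
      ((Real.exp m : ℂ) * ((Nat.factorial (m - 1) : ℕ) : ℂ))
    refine h.congr ?_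
    apply Filter.Eventually.of_forall
    intro z
    simp only [r1, smul_eq_mul, Pi.add_apply]
    ring
  refine ⟨hconv, ?_⟩
  have hlin : mellin (r1 m y) w = ((Real.exp m : ℂ) * ((Nat.factorial (m - 1) : ℕ) : ℂ)) *
      ((1 - (m : ℂ)) * mellin (fun z : ℝ => (((m : ℂ) + (y * Complex.I) * z) ^ m)⁻¹) w +
        (m : ℂ) ^ 2 * mellin (fun z : ℝ => (((m : ℂ) + (y * Complex.I) * z) ^ (m + 1))⁻¹) w) := by
    unfold mellin
    unfold MellinConvergent at c1 c2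
    rw [← integral_const_mul, ← integral_const_mul, ← integral_add (c1.const_mul _) (c2.const_mul _),
      ← integral_const_mul]
    congr 1
    ext z
    simp only [r1, smul_eq_mul]
    ring
  rw [hlin, b1, b2, ← hG1, Complex.ofReal_exp, Complex.ofReal_natCast]
  field_simp
  ring

theorem two_cpow (w : ℂ) : ((2 * Real.pi : ℝ) * Complex.I) ^ (-w) + ((-(2 * Real.pi) : ℝ) * Complex.I) ^ (-w) =
    2 * (2 * Real.pi : ℂ) ^ (-w) * Complex.cos (Real.pi * w / 2) := by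
  have h2pi : (0:ℝ) < 2 * Real.pi := by positivity
  have e1 : ((2 * Real.pi : ℝ) : ℂ) * Complex.I = Complex.I * ((2 * Real.pi : ℝ) : ℂ) := by ring
  have e2 : ((-(2 * Real.pi) : ℝ) : ℂ) * Complex.I = (-Complex.I) * ((2 * Real.pi : ℝ) : ℂ) := by
    push_cast; ring
  rw [e1, e2, real_cpow_mul h2pi Complex.I_ne_zero, real_cpow_mul h2pi (neg_ne_zero.2 Complex.I_ne_zero),
    Complex.cpow_def_of_ne_zero Complex.I_ne_zero, Complex.cpow_def_of_ne_zero (neg_ne_zero.2 Complex.I_ne_zero),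
    Complex.log_I, Complex.log_neg_I, Complex.cos]
  rw [show (Real.pi / 2 * Complex.I) * -w = -(Real.pi * w / 2) * Complex.I by ring,
    show -(Real.pi / 2) * Complex.I * -w = (Real.pi * w / 2) * Complex.I by ring]
  push_cast
  ring

theorem rr_mellin {m : ℕ} (hm : 1 ≤ m) {w : ℂ} (hw0 : 0 < w.re) (hwm : w.re < m) :
    HasMellin (rr m) w (Complex.exp m * (1 - w) * (1 / (m : ℂ)) ^ ((m : ℂ) - w) * Complex.Gamma w *
      Complex.Gamma (m - w) * (2 * (2 * Real.pi : ℂ) ^ (-w) * Complex.cos (Real.pi * w / 2))) := by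
  have h2pi : (2 * Real.pi) ≠ 0 := by positivity
  obtain ⟨a1, a2⟩ := r1_mellin hm h2pi hw0 hwm
  obtain ⟨b1, b2⟩ := r1_mellin hm (neg_ne_zero.2 h2pi) hw0 hwm
  have h := hasMellin_add a1 b1
  unfold rr
  refine ⟨h.1, ?_⟩
  rw [h.2, a2, b2, ← two_cpow]
  ring

/-- transform of `be` -/
theorem be_tr {m : ℕ} (hm : 1 ≤ m) {s : ℂ} (hs : -(1/2) < s.re) (hs' : s.re < 1/2) :
    ∫ t : ℝ, be m t * Complex.exp (s * t) = Complex.exp m * (1 - (s + 1/2)) *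
      (1 / (m : ℂ)) ^ ((m : ℂ) - (s + 1/2)) * Complex.Gamma (s + 1/2) *
      Complex.Gamma (m - (s + 1/2)) *
      (2 * (2 * Real.pi : ℂ) ^ (-(s + 1/2)) * Complex.cos (Real.pi * (s + 1/2) / 2)) := by
  have hre : (s + 1/2).re = s.re + 1/2 := by simp
  have hm1 : (1:ℝ) ≤ m := by exact_mod_cast hm
  have h := rr_mellin hm (w := s + 1/2) (by rw [hre]; linarith) (by rw [hre]; linarith)
  rw [← h.2, mellin_eq_laplace, ← integral_neg_eq_self]
  congr 1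
  ext u
  unfold be
  rw [Complex.ofReal_exp, show -((s + 1/2) * (u : ℂ)) = ((-u / 2 : ℝ) : ℂ) + s * ((-u : ℝ) : ℂ) by
    push_cast; ring, Complex.exp_add]
  ring

/-! ### bounds -/

theorem fact_bd {n : ℕ} (hn : 1 ≤ n) : (Nat.factorial n : ℝ) ≤ Real.exp 1 * √n * (n / Real.exp 1) ^ n := by
  obtain ⟨k, rfl⟩ : ∃ k, n = k + 1 := ⟨n - 1, by omega⟩
  have h := Stirling.stirlingSeq'_antitone (Nat.zero_le k)
  simp only [Function.comp_apply] at h
  unfold Stirling.stirlingSeq at h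
  have hn0 : (0:ℝ) < ((k + 1 : ℕ) : ℝ) := by positivity
  have hd : 0 < √(2 * ((k + 1 : ℕ) : ℝ)) * (((k + 1 : ℕ) : ℝ) / Real.exp 1) ^ (k + 1) := by positivity
  rw [Nat.succ_eq_add_one, Nat.succ_eq_add_one, div_le_iff₀ hd] at h
  refine h.trans (le_of_eq ?_)
  simp only [zero_add, Nat.factorial_one, Nat.cast_one, mul_one, pow_one, one_div]
  rw [Real.sqrt_mul (by norm_num : (0:ℝ) ≤ 2)]
  have h2 : √2 ≠ 0 := by positivity
  field_simp

theorem norm_lin_sq (m : ℕ) (y z : ℝ) : ‖(m : ℂ) + (y * Complex.I) * z‖ ^ 2 = (m : ℝ) ^ 2 + y ^ 2 * z ^ 2 := by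
  rw [← Complex.normSq_eq_norm_sq, Complex.normSq_apply]
  simp
  ring

theorem norm_pow_ge {k : ℕ} (hk : 1 ≤ k) (y z : ℝ) :
    (4 * k : ℝ) * (4 * k : ℝ) ^ (4 * k) * (1 + y ^ 2 * z ^ 2 / (16 * k)) ^ 2 ≤
      ‖(((4 * k : ℕ) : ℂ) + (y * Complex.I) * z)‖ ^ (4 * k + 1) := by
  have hk0 : (0:ℝ) < k := by exact_mod_cast hk
  set N := ‖(((4 * k : ℕ) : ℂ) + (y * Complex.I) * z)‖ with hN
  have hsq : N ^ 2 = (4 * k : ℝ) ^ 2 + y ^ 2 * z ^ 2 := by
    rw [hN, norm_lin_sq]; push_cast; ring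
  have hNk : (4 * k : ℝ) ≤ N := by
    apply le_of_sq_le_sq _ (norm_nonneg _)
    rw [hsq]
    have : 0 ≤ y ^ 2 * z ^ 2 := by positivity
    linarith
  have h1 : N ^ (4 * k) = (4 * k : ℝ) ^ (4 * k) * ((1 + y ^ 2 * z ^ 2 / (4 * k) ^ 2) ^ k) ^ 2 := by
    rw [show 4 * k = 2 * (k * 2) by ring, pow_mul N, hsq]
    rw [← pow_mul, pow_mul (4 * (k:ℝ)) 2 (k * 2), ← mul_pow ((4 * (k:ℝ)) ^ 2)]
    congr 1
    have h0 : (4 * (k:ℝ)) ^ 2 ≠ 0 := by positivity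
    rw [mul_add, mul_div_cancel₀ _ h0, mul_one]
  have h2 : 1 + y ^ 2 * z ^ 2 / (16 * k) ≤ (1 + y ^ 2 * z ^ 2 / (4 * k) ^ 2) ^ k := by
    have h3 := one_add_mul_le_pow (a := y ^ 2 * z ^ 2 / (4 * (k:ℝ)) ^ 2) (by
      have : 0 ≤ y ^ 2 * z ^ 2 / (4 * (k:ℝ)) ^ 2 := by positivity
      linarith) k
    refine le_trans (le_of_eq ?_) h3
    field_simp
    ring
  have h3 : (1 + y ^ 2 * z ^ 2 / (16 * k)) ^ 2 ≤ ((1 + y ^ 2 * z ^ 2 / (4 * k) ^ 2) ^ k) ^ 2 :=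
    pow_le_pow_left₀ (by positivity) h2 2
  rw [pow_succ N, h1]
  calc (4 * k : ℝ) * (4 * k : ℝ) ^ (4 * k) * (1 + y ^ 2 * z ^ 2 / (16 * k)) ^ 2
      = ((4 * k : ℝ) ^ (4 * k) * (1 + y ^ 2 * z ^ 2 / (16 * k)) ^ 2) * (4 * k) := by ring
    _ ≤ _ := by
      apply mul_le_mul _ hNk (by positivity) (by positivity)
      exact mul_le_mul_of_nonneg_left h3 (by positivity)

theorem r1_bd {k : ℕ} (hk : 1 ≤ k) {y : ℝ} (hy : y ^ 2 = (2 * Real.pi) ^ 2) (hy' : |y| = 2 * Real.pi)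
    {z : ℝ} (hz : 0 ≤ z) :
    ‖r1 (4 * k) y z‖ ≤ Real.exp 1 / √((4 * k : ℕ) : ℝ) * (1 + 2 * Real.pi * z) *
      ((1 + Real.pi ^ 2 * z ^ 2 / ((4 * k : ℕ) : ℝ)) ^ 2)⁻¹ := by
  have hk0 : (0:ℝ) < k := by exact_mod_cast hk
  have hpi := Real.pi_pos
  set m : ℕ := 4 * k with hm
  have hm1 : 1 ≤ m := by omega
  have hmR : (1:ℝ) ≤ m := by exact_mod_cast hm1
  have hmk : (m : ℝ) = 4 * k := by rw [hm]; push_cast; ring
  have hne := lin_ne hm1 y z
  have e1 : r1 m y z = (Real.exp m : ℂ) * ((Nat.factorial (m - 1) : ℕ) : ℂ) *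
      (((m : ℂ) + (1 - m) * ((y * Complex.I) * z)) * (((m : ℂ) + (y * Complex.I) * z) ^ (m + 1))⁻¹) := by
    unfold r1
    rw [pow_succ]
    field_simp
    ring
  rw [e1, norm_mul, norm_mul, norm_mul, norm_inv, norm_pow, Complex.norm_real,
    Real.norm_of_nonneg (Real.exp_pos _).le, Complex.norm_natCast]
  have hnum : ‖(m : ℂ) + (1 - m) * ((y * Complex.I) * z)‖ ≤ m * (1 + 2 * Real.pi * z) := by
    refine (norm_add_le _ _).trans ?_
    rw [Complex.norm_natCast, norm_mul, norm_mul, norm_mul, Complex.norm_I, Complex.norm_real, Complex.norm_real,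
      Real.norm_of_nonneg hz, Real.norm_eq_abs, hy', mul_one]
    have : ‖(1 - (m:ℂ))‖ ≤ m := by
      have e : (1 - (m:ℂ)) = ((1 - (m:ℝ) : ℝ) : ℂ) := by push_cast; ring
      rw [e, Complex.norm_real, Real.norm_eq_abs, abs_of_nonpos (by linarith)]
      linarith
    have h2 := mul_le_mul_of_nonneg_right this (show 0 ≤ 2 * Real.pi * z by positivity)
    nlinarith
  have hden := norm_pow_ge hk y z
  rw [hy] at hden
  have hden' : (m : ℝ) * (m : ℝ) ^ m * (1 + Real.pi ^ 2 * z ^ 2 / m) ^ 2 ≤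
      ‖(m : ℂ) + (y * Complex.I) * z‖ ^ (m + 1) := by
    refine le_trans (le_of_eq ?_) hden
    rw [hmk]
    congr 2
    field_simp
    ring
  have hfact := fact_bd hm1
  have hfm : (Nat.factorial m : ℝ) = m * (Nat.factorial (m - 1) : ℝ) := by
    have : m = (m - 1) + 1 := by omega
    rw [this, Nat.factorial_succ]
    push_cast
    simp
  have hpos : (0:ℝ) < (m : ℝ) * (m : ℝ) ^ m * (1 + Real.pi ^ 2 * z ^ 2 / m) ^ 2 := by positivity
  have hfinal : Real.exp m * (Nat.factorial (m - 1) : ℝ) ≤ Real.exp 1 / √(m:ℝ) * (m : ℝ) ^ m := by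
    have h1 : (m : ℝ) * (Nat.factorial (m - 1) : ℝ) ≤ Real.exp 1 * √m * (m / Real.exp 1) ^ m := by
      rw [← hfm]; exact hfact
    have h2 : (m / Real.exp 1) ^ m = (m : ℝ) ^ m / Real.exp m := by
      rw [div_pow, ← Real.exp_nat_mul, mul_one]
    rw [h2] at h1
    have hs : √(m:ℝ) * √(m:ℝ) = m := Real.mul_self_sqrt (by positivity)
    have hs0 : 0 < √(m:ℝ) := Real.sqrt_pos.2 (by positivity)
    have he := Real.exp_pos (m:ℝ)
    have h3 : Real.exp m * ((m : ℝ) * (Nat.factorial (m - 1) : ℝ)) ≤ Real.exp 1 * √m * (m : ℝ) ^ m := by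
      calc Real.exp m * ((m : ℝ) * (Nat.factorial (m - 1) : ℝ))
          ≤ Real.exp m * (Real.exp 1 * √m * ((m : ℝ) ^ m / Real.exp m)) :=
            mul_le_mul_of_nonneg_left h1 he.le
        _ = _ := by field_simp
    rw [div_mul_eq_mul_div, le_div_iff₀ hs0]
    have h4 : Real.exp m * (Nat.factorial (m - 1) : ℝ) * √m * √m ≤ (Real.exp 1 * (m : ℝ) ^ m) * √m := by
      calc Real.exp m * (Nat.factorial (m - 1) : ℝ) * √m * √m
          = Real.exp m * ((√m * √m) * (Nat.factorial (m - 1) : ℝ)) := by ring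
        _ = Real.exp m * ((m : ℝ) * (Nat.factorial (m - 1) : ℝ)) := by rw [hs]
        _ ≤ _ := h3
        _ = _ := by ring
    exact le_of_mul_le_mul_right h4 hs0
  calc Real.exp m * (Nat.factorial (m - 1) : ℝ) * (‖(m : ℂ) + (1 - m) * ((y * Complex.I) * z)‖ *
        (‖(m : ℂ) + (y * Complex.I) * z‖ ^ (m + 1))⁻¹)
      ≤ (Real.exp 1 / √(m:ℝ) * (m : ℝ) ^ m) * ((m * (1 + 2 * Real.pi * z)) *
        ((m : ℝ) * (m : ℝ) ^ m * (1 + Real.pi ^ 2 * z ^ 2 / m) ^ 2)⁻¹) := by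
        apply mul_le_mul hfinal _ (by positivity) (by positivity)
        apply mul_le_mul hnum _ (by positivity) (by positivity)
        exact inv_anti₀ hpos hden'
    _ = _ := by
        field_simp

theorem rr_bd {k : ℕ} (hk : 1 ≤ k) {z : ℝ} (hz : 0 ≤ z) :
    ‖rr (4 * k) z‖ ≤ 6 / √((4 * k : ℕ) : ℝ) * (1 + 2 * Real.pi * z) *
      ((1 + Real.pi ^ 2 * z ^ 2 / ((4 * k : ℕ) : ℝ)) ^ 2)⁻¹ := by
  have hpi := Real.pi_pos
  unfold rr
  have h1 := r1_bd hk (y := 2 * Real.pi) rfl (abs_of_pos (by positivity)) hz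
  have h2 := r1_bd hk (y := -(2 * Real.pi)) (by ring) (by rw [abs_neg]; exact abs_of_pos (by positivity)) hz
  refine (norm_add_le _ _).trans ?_
  have he : Real.exp 1 ≤ 3 := by
    have := Real.exp_one_lt_d9; linarith
  have h3 : Real.exp 1 / √((4 * k : ℕ) : ℝ) * (1 + 2 * Real.pi * z) *
      ((1 + Real.pi ^ 2 * z ^ 2 / ((4 * k : ℕ) : ℝ)) ^ 2)⁻¹ ≤
      3 / √((4 * k : ℕ) : ℝ) * (1 + 2 * Real.pi * z) *
      ((1 + Real.pi ^ 2 * z ^ 2 / ((4 * k : ℕ) : ℝ)) ^ 2)⁻¹ := by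
    gcongr
  calc _ ≤ 3 / √((4 * k : ℕ) : ℝ) * (1 + 2 * Real.pi * z) *
      ((1 + Real.pi ^ 2 * z ^ 2 / ((4 * k : ℕ) : ℝ)) ^ 2)⁻¹ +
      3 / √((4 * k : ℕ) : ℝ) * (1 + 2 * Real.pi * z) *
      ((1 + Real.pi ^ 2 * z ^ 2 / ((4 * k : ℕ) : ℝ)) ^ 2)⁻¹ := add_le_add (h1.trans h3) (h2.trans h3)
    _ = _ := by ring

theorem be_norm (m : ℕ) (t : ℝ) : ‖be m t‖ = Real.exp (t / 2) * ‖rr m (Real.exp t)‖ := by
  unfold be
  rw [norm_mul, Complex.norm_real, Real.norm_of_nonneg (Real.exp_pos _).le]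

theorem be_bd1 {k : ℕ} (hk : 1 ≤ k) (t : ℝ) :
    ‖be (4 * k) t‖ ≤ 6 / √((4 * k : ℕ) : ℝ) * (1 + 2 * Real.pi * Real.exp t) * Real.exp (t / 2) := by
  have hpi := Real.pi_pos
  rw [be_norm, mul_comm]
  apply mul_le_mul_of_nonneg_right _ (Real.exp_pos _).le
  refine (rr_bd hk (Real.exp_pos t).le).trans ?_
  apply mul_le_of_le_one_right (by positivity)
  apply inv_le_one_of_one_le₀
  apply one_le_pow₀
  have : 0 ≤ Real.pi ^ 2 * Real.exp t ^ 2 / ((4 * k : ℕ) : ℝ) := by positivity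
  linarith

theorem be_bd_neg {k : ℕ} (hk : 1 ≤ k) {t : ℝ} (ht : t ≤ 0) :
    ‖be (4 * k) t‖ ≤ 44 / √((4 * k : ℕ) : ℝ) * Real.exp (t / 2) := by
  have hpi := Real.pi_pos
  have hpi2 := Real.pi_lt_d2
  refine (be_bd1 hk t).trans ?_
  apply mul_le_mul_of_nonneg_right _ (Real.exp_pos _).le
  have h1 : Real.exp t ≤ 1 := Real.exp_le_one_iff.2 ht
  have h2 : 6 * (1 + 2 * Real.pi * Real.exp t) ≤ 44 := by nlinarith
  calc 6 / √((4 * k : ℕ) : ℝ) * (1 + 2 * Real.pi * Real.exp t)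
      = (6 * (1 + 2 * Real.pi * Real.exp t)) / √((4 * k : ℕ) : ℝ) := by ring
    _ ≤ _ := div_le_div_of_nonneg_right h2 (Real.sqrt_nonneg _)

theorem be_bd_gen {k : ℕ} (hk : 1 ≤ k) {t : ℝ} (ht : 0 ≤ t) {D : ℝ} (hD : 0 < D)
    (h : D ≤ (1 + Real.pi ^ 2 * Real.exp t ^ 2 / ((4 * k : ℕ) : ℝ)) ^ 2) :
    ‖be (4 * k) t‖ ≤ 44 / √((4 * k : ℕ) : ℝ) * Real.exp (3 * t / 2) * D⁻¹ := by
  have hpi := Real.pi_pos
  have hpi2 := Real.pi_lt_d2
  rw [be_norm]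
  have h0 := rr_bd hk (Real.exp_pos t).le
  have h1 : (1:ℝ) ≤ Real.exp t := Real.one_le_exp ht
  have h2 : 6 * (1 + 2 * Real.pi * Real.exp t) ≤ 44 * Real.exp t := by nlinarith
  have h3 : ((1 + Real.pi ^ 2 * Real.exp t ^ 2 / ((4 * k : ℕ) : ℝ)) ^ 2)⁻¹ ≤ D⁻¹ := inv_anti₀ hD h
  have hs : (0:ℝ) ≤ √((4 * k : ℕ) : ℝ) := Real.sqrt_nonneg _
  calc Real.exp (t / 2) * ‖rr (4 * k) (Real.exp t)‖
      ≤ Real.exp (t / 2) * (6 / √((4 * k : ℕ) : ℝ) * (1 + 2 * Real.pi * Real.exp t) *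
        ((1 + Real.pi ^ 2 * Real.exp t ^ 2 / ((4 * k : ℕ) : ℝ)) ^ 2)⁻¹) :=
        mul_le_mul_of_nonneg_left h0 (Real.exp_pos _).le
    _ = (6 * (1 + 2 * Real.pi * Real.exp t)) * ((Real.exp (t/2) / √((4 * k : ℕ) : ℝ)) *
        ((1 + Real.pi ^ 2 * Real.exp t ^ 2 / ((4 * k : ℕ) : ℝ)) ^ 2)⁻¹) := by ring
    _ ≤ (44 * Real.exp t) * ((Real.exp (t/2) / √((4 * k : ℕ) : ℝ)) * D⁻¹) := by
        apply mul_le_mul h2 _ (by positivity) (by positivity)
        exact mul_le_mul_of_nonneg_left h3 (by positivity)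
    _ = 44 / √((4 * k : ℕ) : ℝ) * (Real.exp t * Real.exp (t/2)) * D⁻¹ := by ring
    _ = _ := by rw [← Real.exp_add]; congr 3; ring

theorem be_bd_pos {k : ℕ} (hk : 1 ≤ k) {t : ℝ} (ht : 0 ≤ t) :
    ‖be (4 * k) t‖ ≤ 44 * ((4 * k : ℕ) : ℝ) ^ (3/8 : ℝ) * Real.exp (-(t / 4)) := by
  have hpi := Real.pi_pos
  have hpi3 := Real.pi_gt_three
  have hk0 : (0:ℝ) < k := by exact_mod_cast hk
  have hm0 : (0:ℝ) < ((4 * k : ℕ) : ℝ) := by push_cast; positivity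
  set m : ℝ := ((4 * k : ℕ) : ℝ) with hm
  set q : ℝ := Real.exp t ^ 2 / m with hq
  have hq0 : 0 < q := by positivity
  have h1 : q ^ (7/8 : ℝ) ≤ (1 + Real.pi ^ 2 * Real.exp t ^ 2 / m) ^ 2 := by
    have h2 : q ^ (7/8 : ℝ) ≤ 1 + q := by
      rcases le_or_gt q 1 with h | h
      · have := Real.rpow_le_one hq0.le h (show (0:ℝ) ≤ 7/8 by norm_num)
        linarith
      · have := Real.rpow_le_rpow_of_exponent_le h.le (show (7/8:ℝ) ≤ 1 by norm_num)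
        rw [Real.rpow_one] at this
        linarith
    have h3 : q ≤ Real.pi ^ 2 * Real.exp t ^ 2 / m := by
      rw [hq]
      apply div_le_div_of_nonneg_right _ hm0.le
      have : (1:ℝ) ≤ Real.pi ^ 2 := by nlinarith
      nlinarith [sq_nonneg (Real.exp t)]
    have h4 : 1 + q ≤ (1 + q) ^ 2 := by nlinarith
    have h5 : (1 + q) ^ 2 ≤ (1 + Real.pi ^ 2 * Real.exp t ^ 2 / m) ^ 2 :=
      pow_le_pow_left₀ (by positivity) (by linarith) 2
    linarith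
  refine (be_bd_gen hk ht (by positivity) h1).trans (le_of_eq ?_)
  have e1 : q ^ (7/8 : ℝ) = Real.exp (7 * t / 4) / m ^ (7/8 : ℝ) := by
    rw [hq, Real.div_rpow (by positivity) hm0.le, ← Real.exp_nat_mul, ← Real.exp_mul]
    congr 2
    push_cast
    ring
  have e2 : m ^ (3/8 : ℝ) = m ^ (7/8 : ℝ) / √m := by
    rw [Real.sqrt_eq_rpow, ← Real.rpow_sub hm0]
    norm_num
  rw [e1, e2, show -(t / 4) = 3 * t / 2 - 7 * t / 4 by ring, Real.exp_sub, ← hm]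
  field_simp

theorem be_bd_all {k : ℕ} (hk : 1 ≤ k) (t : ℝ) :
    ‖be (4 * k) t‖ ≤ 44 * ((4 * k : ℕ) : ℝ) ^ (3/8 : ℝ) * Real.exp (-(1/4) * |t|) := by
  have hk1 : (1:ℝ) ≤ k := by exact_mod_cast hk
  have hm1 : (1:ℝ) ≤ ((4 * k : ℕ) : ℝ) := by push_cast; linarith
  rcases le_total 0 t with ht | ht
  · refine (be_bd_pos hk ht).trans (le_of_eq ?_)
    rw [abs_of_nonneg ht]
    ring_nf
  · refine (be_bd_neg hk ht).trans ?_
    rw [abs_of_nonpos ht]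
    apply mul_le_mul _ _ (by positivity) (by positivity)
    · have h1 : (1:ℝ) ≤ √((4 * k : ℕ) : ℝ) := Real.one_le_sqrt.2 hm1
      have h2 : (1:ℝ) ≤ ((4 * k : ℕ) : ℝ) ^ (3/8 : ℝ) := Real.one_le_rpow hm1 (by norm_num)
      calc 44 / √((4 * k : ℕ) : ℝ) ≤ 44 := div_le_self (by norm_num) h1
        _ ≤ _ := by linarith
    · apply Real.exp_le_exp.2
      linarith

theorem be_bd_dec {k : ℕ} (hk : 1 ≤ k) (t : ℝ) :
    ‖be (4 * k) t‖ ≤ 44 * ((4 * k : ℕ) : ℝ) ^ 2 * Real.exp (-(1/2) * |t|) := by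
  have hk1 : (1:ℝ) ≤ k := by exact_mod_cast hk
  have hpi := Real.pi_pos
  have hpi3 := Real.pi_gt_three
  have hm1 : (1:ℝ) ≤ ((4 * k : ℕ) : ℝ) := by push_cast; linarith
  have h1 : (1:ℝ) ≤ √((4 * k : ℕ) : ℝ) := Real.one_le_sqrt.2 hm1
  have h3 : 44 / √((4 * k : ℕ) : ℝ) ≤ 44 := div_le_self (by norm_num) h1
  set m : ℝ := ((4 * k : ℕ) : ℝ) with hm
  have hm0 : 0 < m := by linarith
  rcases le_total 0 t with ht | ht
  · have h2 : (Real.exp t ^ 2 / m) ^ 2 ≤ (1 + Real.pi ^ 2 * Real.exp t ^ 2 / m) ^ 2 := by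
      apply pow_le_pow_left₀ (by positivity)
      have h3 : Real.exp t ^ 2 / m ≤ Real.pi ^ 2 * Real.exp t ^ 2 / m := by
        apply div_le_div_of_nonneg_right _ hm0.le
        have : (1:ℝ) ≤ Real.pi ^ 2 := by nlinarith
        nlinarith [sq_nonneg (Real.exp t)]
      linarith
    refine (be_bd_gen hk ht (by positivity) h2).trans ?_
    rw [abs_of_nonneg ht]
    have e1 : ((Real.exp t ^ 2 / m) ^ 2)⁻¹ = m ^ 2 * Real.exp (-(4 * t)) := by
      rw [Real.exp_neg, div_pow, ← pow_mul, ← Real.exp_nat_mul]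
      field_simp
      norm_num
      ring_nf
    rw [e1]
    calc 44 / √m * Real.exp (3 * t / 2) * (m ^ 2 * Real.exp (-(4 * t)))
        ≤ 44 * Real.exp (3 * t / 2) * (m ^ 2 * Real.exp (-(4 * t))) := by gcongr
      _ = 44 * m ^ 2 * (Real.exp (3 * t / 2) * Real.exp (-(4 * t))) := by ring
      _ ≤ _ := by
        rw [← Real.exp_add]
        apply mul_le_mul_of_nonneg_left _ (by positivity)
        apply Real.exp_le_exp.2
        linarith
  · refine (be_bd_neg hk ht).trans ?_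
    rw [abs_of_nonpos ht]
    apply mul_le_mul _ _ (by positivity) (by positivity)
    · have h2 : (1:ℝ) ≤ m ^ 2 := one_le_pow₀ hm1
      linarith
    · apply Real.exp_le_exp.2
      linarith

/-- `∫ ell t * exp(-|t|/4)` -/
noncomputable def CI : ℝ := ∫ v : ℝ, ell v * Real.exp (-(1/4) * |v|)

theorem CI_nonneg : 0 ≤ CI := by
  unfold CI
  apply integral_nonneg
  intro v
  exact mul_nonneg (ell_nonneg v) (Real.exp_pos _).le

theorem ell_be_int {k : ℕ} (hk : 1 ≤ k) : Integrable (fun t => ell t * ‖be (4 * k) t‖) := by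
  have h1 := (ell_exp_int (show (0:ℝ) < 1/4 by norm_num)).const_mul (44 * ((4 * k : ℕ) : ℝ) ^ (3/8 : ℝ))
  refine Integrable.mono' h1 ?_ ?_
  · exact (ell_cont.mul (be_cont (by omega : 1 ≤ 4 * k)).norm).aestronglyMeasurable
  · apply Filter.Eventually.of_forall
    intro t
    rw [Real.norm_of_nonneg (mul_nonneg (ell_nonneg t) (norm_nonneg _))]
    calc ell t * ‖be (4 * k) t‖ ≤ ell t * (44 * ((4 * k : ℕ) : ℝ) ^ (3/8 : ℝ) * Real.exp (-(1/4) * |t|)) :=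
          mul_le_mul_of_nonneg_left (be_bd_all hk t) (ell_nonneg t)
      _ = _ := by ring

theorem ell_be_tot {k : ℕ} (hk : 1 ≤ k) :
    ∫ t, ell t * ‖be (4 * k) t‖ ≤ 44 * ((4 * k : ℕ) : ℝ) ^ (3/8 : ℝ) * CI := by
  unfold CI
  rw [← integral_const_mul]
  apply integral_mono (ell_be_int hk) ((ell_exp_int (show (0:ℝ) < 1/4 by norm_num)).const_mul _)
  intro t
  calc ell t * ‖be (4 * k) t‖ ≤ ell t * (44 * ((4 * k : ℕ) : ℝ) ^ (3/8 : ℝ) * Real.exp (-(1/4) * |t|)) :=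
        mul_le_mul_of_nonneg_left (be_bd_all hk t) (ell_nonneg t)
    _ = _ := by ring

end Pool.Agent.Helper99.MS
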