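import Pool.Agent.Helper99.MS.Contra

/-!
# Choice of parameters
-/

namespace Pool.Agent.Helper99.MS

open Finset MeasureTheory Set Filter Topology

theorem t_neg {y : ℝ} (hy : y < 0) : Tendsto (fun m : ℝ => m ^ y) atTop (𝓝 0) := by
  have := tendsto_rpow_neg_atTop (y := -y) (by linarith)
  rwa [neg_neg] at this

theorem t_exp {c : ℝ} (hc : 0 < c) (d : ℝ) : Tendsto (fun m : ℝ => Real.exp (-((m - d) / c))) atTop (𝓝 0) := by
  apply Real.tendsto_exp_neg_atTop_nhds_zero.comp
  apply Tendsto.atTop_div_const hc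
  exact tendsto_atTop_add_const_right _ (-d) tendsto_id

/-- the eighth root of the logarithm -/
noncomputable def lm (m : ℝ) : ℝ := Real.log m ^ (1/8 : ℝ)

theorem lm_tendsto : Tendsto lm atTop atTop :=
  (tendsto_rpow_atTop (by norm_num)).comp Real.tendsto_log_atTop

theorem lm_pow {m : ℝ} (hm : 1 ≤ m) : lm m ^ 8 = Real.log m := by
  unfold lm
  rw [← Real.rpow_natCast, ← Real.rpow_mul (Real.log_nonneg hm)]
  norm_num

theorem lm_nonneg {m : ℝ} (hm : 1 ≤ m) : 0 ≤ lm m := Real.rpow_nonneg (Real.log_nonneg hm) _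

theorem lm_small (j : ℕ) {c : ℝ} (hc : 0 < c) (C : ℝ) (hC : 0 < C) : ∀ᶠ m : ℝ in atTop, C * lm m ^ j ≤ m ^ c := by
  have h1 := (isLittleO_log_rpow_rpow_atTop ((j : ℝ) / 8) hc).def (show 0 < 1 / C by positivity)
  filter_upwards [h1, eventually_ge_atTop (1:ℝ)] with m h hm
  have hl := Real.log_nonneg hm
  have hm0 : (0:ℝ) < m := by linarith
  rw [Real.norm_of_nonneg (Real.rpow_nonneg hl _), Real.norm_of_nonneg (Real.rpow_nonneg hm0.le _)] at h
  have e : lm m ^ j = Real.log m ^ ((j : ℝ) / 8) := by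
    unfold lm
    rw [← Real.rpow_natCast, ← Real.rpow_mul hl]
    congr 1
    ring
  rw [e]
  calc C * Real.log m ^ ((j : ℝ) / 8) ≤ C * (1 / C * m ^ c) := mul_le_mul_of_nonneg_left h hC.le
    _ = _ := by field_simp

noncomputable def pL (m : ℝ) : ℝ := √m * lm m ^ 2
noncomputable def pθ (m : ℝ) : ℝ := 1 / (√m * lm m)
noncomputable def pY (m : ℝ) : ℝ := √m * lm m ^ 19
noncomputable def pη (m : ℝ) : ℝ := 4 * lm m ^ 4 / √m
noncomputable def pψ (m : ℝ) : ℝ := √m / (64 * lm m ^ 4)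

/-- basic size facts -/
theorem basic : ∀ᶠ m : ℝ in atTop, 8 ≤ m ∧ 1024 ≤ lm m ∧ pY m ≤ m ∧ pL m ≤ m ∧ 64 * lm m ^ 4 ≤ √m ∧ 8 ≤ √m := by
  have h1 := lm_small 19 (show (0:ℝ) < 1/2 by norm_num) 1 one_pos
  have h2 := lm_small 2 (show (0:ℝ) < 1/2 by norm_num) 1 one_pos
  have h3 := lm_small 4 (show (0:ℝ) < 1/2 by norm_num) 64 (by norm_num)
  filter_upwards [h1, h2, h3, eventually_ge_atTop (64:ℝ), lm_tendsto.eventually_ge_atTop 1024] with m a1 a2 a3 a4 a5
  rw [← Real.sqrt_eq_rpow] at a1 a2 a3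
  have hs : √m * √m = m := Real.mul_self_sqrt (by linarith)
  have hs0 : 0 ≤ √m := Real.sqrt_nonneg m
  refine ⟨by linarith, a5, ?_, ?_, a3, ?_⟩
  · unfold pY
    calc √m * lm m ^ 19 ≤ √m * √m := mul_le_mul_of_nonneg_left (by linarith) hs0
      _ = m := hs
  · unfold pL
    calc √m * lm m ^ 2 ≤ √m * √m := mul_le_mul_of_nonneg_left (by linarith) hs0
      _ = m := hs
  · apply Real.le_sqrt_of_sq_le
    linarith

theorem t_e1 (B : ℝ) : Tendsto (fun m : ℝ => e1 B m (pθ m)) atTop (𝓝 0) := by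
  unfold e1
  have hsm : Tendsto (fun m : ℝ => √m * lm m) atTop atTop :=
    Real.tendsto_sqrt_atTop.atTop_mul_atTop₀ lm_tendsto
  have h1 : Tendsto (fun m : ℝ => pθ m) atTop (𝓝 0) := by
    unfold pθ
    exact Tendsto.div_atTop tendsto_const_nhds hsm
  have h2 : Tendsto (fun m : ℝ => m * (pθ m) ^ 2) atTop (𝓝 0) := by
    have h : Tendsto (fun m : ℝ => 1 / lm m ^ 2) atTop (𝓝 0) :=
      Tendsto.div_atTop tendsto_const_nhds ((tendsto_pow_atTop (by norm_num)).comp lm_tendsto)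
    refine h.congr' ?_
    filter_upwards [basic] with m hb
    obtain ⟨b1, b2, _, _, _, b6⟩ := hb
    unfold pθ
    have hs : √m ^ 2 = m := Real.sq_sqrt (by linarith)
    have hs0 : √m ≠ 0 := by linarith
    have hl0 : lm m ≠ 0 := by linarith
    field_simp
    rw [hs]
  have h3 : Tendsto (fun m : ℝ => Real.exp (-(m / 16))) atTop (𝓝 0) := by
    have := t_exp (show (0:ℝ) < 16 by norm_num) 0
    simpa using this
  have h4 : Tendsto (fun m : ℝ => 16 * B * Real.exp (-((m - 4) / 16))) atTop (𝓝 0) := by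
    have := (t_exp (show (0:ℝ) < 16 by norm_num) 4).const_mul (16 * B)
    rwa [mul_zero] at this
  have h5 : Tendsto (fun m : ℝ => 228 * B * CE / √m) atTop (𝓝 0) := by
    apply Tendsto.div_atTop tendsto_const_nhds
    exact Real.tendsto_sqrt_atTop
  have := (((h1.add h2).add h3).add h4).add h5
  simpa using this

theorem t_e2 {B : ℝ} (hB : 0 ≤ B) : Tendsto (fun m : ℝ => e2 B m (pY m) (pη m)) atTop (𝓝 0) := by
  unfold e2
  have h5 : Tendsto (fun m : ℝ => 228 * B * CE / √m) atTop (𝓝 0) := by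
    apply Tendsto.div_atTop tendsto_const_nhds
    exact Real.tendsto_sqrt_atTop
  have h6 : Tendsto (fun m : ℝ => (72 * B) * m ^ (-1 : ℝ)) atTop (𝓝 ((72 * B) * 0)) :=
    (t_neg (by norm_num)).const_mul _
  rw [mul_zero] at h6
  have h7 : Tendsto (fun m : ℝ => 18 * B * (pY m + 3) * Real.exp (-((m - 4) * (pη m) ^ 2 / 4))) atTop (𝓝 0) := by
    apply squeeze_zero' _ _ h6
    · filter_upwards [basic] with m hb
      obtain ⟨b1, b2, _, _, _, b6⟩ := hb
      have hlm : 0 ≤ lm m := by linarith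
      unfold pY
      positivity
    · filter_upwards [basic] with m hb
      obtain ⟨b1, b2, b3, _, _, b6⟩ := hb
      have hm1 : (1:ℝ) ≤ m := by linarith
      have hm0 : (0:ℝ) < m := by linarith
      have hlm : 0 ≤ lm m := by linarith
      have hs : √m ^ 2 = m := Real.sq_sqrt (by linarith)
      have hs0 : √m ≠ 0 := by linarith
      have e1 : (m - 4) * (pη m) ^ 2 / 4 = 4 * Real.log m * ((m - 4) / m) := by
        unfold pη
        rw [div_pow, hs, ← lm_pow hm1]
        field_simp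
      have hl : 0 ≤ Real.log m := Real.log_nonneg hm1
      have h8 : 1/2 ≤ (m - 4) / m := by
        rw [div_le_div_iff₀ (by norm_num) hm0]; linarith
      have h9 : Real.exp (-((m - 4) * (pη m) ^ 2 / 4)) ≤ m ^ (-2 : ℝ) := by
        rw [Real.rpow_def_of_pos hm0]
        apply Real.exp_le_exp.2
        rw [e1]
        nlinarith
      have hY0 : 0 ≤ pY m := by unfold pY; positivity
      calc 18 * B * (pY m + 3) * Real.exp (-((m - 4) * (pη m) ^ 2 / 4))
          ≤ 18 * B * (4 * m) * m ^ (-2 : ℝ) := by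
            apply mul_le_mul _ h9 (Real.exp_pos _).le (by positivity)
            apply mul_le_mul_of_nonneg_left _ (by positivity)
            linarith
        _ = (72 * B) * (m ^ (1:ℝ) * m ^ (-2 : ℝ)) := by rw [Real.rpow_one]; ring
        _ = _ := by
            rw [← Real.rpow_add hm0]
            norm_num
  have := h7.add h5
  simpa using this

theorem t_c1 (C : ℝ) : Tendsto (fun m : ℝ => C * (16 / (pL m * pθ m))) atTop (𝓝 0) := by
  have h1 : Tendsto (fun m : ℝ => (16 * C) / lm m) atTop (𝓝 0) :=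
    Tendsto.div_atTop tendsto_const_nhds lm_tendsto
  refine h1.congr' ?_
  filter_upwards [basic] with m hb
  obtain ⟨b1, b2, _, _, _, b6⟩ := hb
  have hs0 : √m ≠ 0 := by linarith
  have hl0 : lm m ≠ 0 := by linarith
  unfold pL pθ
  field_simp

theorem cC2_le {B : ℝ} (hB : 0 ≤ B) {m : ℝ} (hm : 1 ≤ m) : cC2 B m ≤ B * (16 + 44 * CI) * m ^ (3/8 : ℝ) := by
  unfold cC2
  have h1 : 1 ≤ m ^ (3/8 : ℝ) := Real.one_le_rpow hm (by norm_num)
  calc B * (16 + 44 * m ^ (3/8 : ℝ) * CI) ≤ B * (16 * m ^ (3/8 : ℝ) + 44 * m ^ (3/8 : ℝ) * CI) := by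
        apply mul_le_mul_of_nonneg_left _ hB
        linarith
    _ = _ := by ring

theorem cC2_nonneg {B : ℝ} (hB : 0 ≤ B) {m : ℝ} (hm : 0 ≤ m) : 0 ≤ cC2 B m := by
  unfold cC2
  have := CI_nonneg
  positivity

theorem t_c2 {B : ℝ} (hB : 0 ≤ B) : Tendsto (fun m : ℝ => cC2 B m * (96 / pL m)) atTop (𝓝 0) := by
  have h1 : Tendsto (fun m : ℝ => (B * (16 + 44 * CI) * 96) * m ^ (-(1/8) : ℝ)) atTop
      (𝓝 ((B * (16 + 44 * CI) * 96) * 0)) := (t_neg (by norm_num)).const_mul _
  rw [mul_zero] at h1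
  apply squeeze_zero' _ _ h1
  · filter_upwards [basic] with m hb
    obtain ⟨b1, b2, _, _, _, b6⟩ := hb
    have := cC2_nonneg hB (show 0 ≤ m by linarith)
    unfold pL
    positivity
  · filter_upwards [basic] with m hb
    obtain ⟨b1, b2, _, _, _, b6⟩ := hb
    have hm1 : (1:ℝ) ≤ m := by linarith
    have hm0 : (0:ℝ) < m := by linarith
    have hLs : √m ≤ pL m := by
      unfold pL
      have : 1 ≤ lm m ^ 2 := by nlinarith
      nlinarith
    have hs0 : 0 < √m := by linarith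
    calc cC2 B m * (96 / pL m) ≤ (B * (16 + 44 * CI) * m ^ (3/8 : ℝ)) * (96 / √m) := by
          apply mul_le_mul (cC2_le hB hm1) _ (by have : 0 < pL m := by linarith
                                                 positivity) _
          · exact div_le_div_of_nonneg_left (by norm_num) hs0 hLs
          · have := CI_nonneg
            positivity
      _ = (B * (16 + 44 * CI) * 96) * (m ^ (3/8 : ℝ) / √m) := by ring
      _ = _ := by
          rw [Real.sqrt_eq_rpow, ← Real.rpow_sub hm0]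
          norm_num

theorem exp_big {m : ℝ} (b1 : 8 ≤ m) (b2 : 1024 ≤ lm m) (b6 : 8 ≤ √m) : m ^ 4 ≤ Real.exp (pY m / 2) := by
  have hm1 : (1:ℝ) ≤ m := by linarith
  have hm0 : (0:ℝ) < m := by linarith
  rw [← Real.exp_log (pow_pos hm0 4)]
  apply Real.exp_le_exp.2
  rw [Real.log_pow, ← lm_pow hm1]
  unfold pY
  push_cast
  have h1 : (1:ℝ) ≤ lm m ^ 11 := one_le_pow₀ (by linarith)
  have h2 : 0 ≤ lm m ^ 8 := by positivity
  calc 4 * lm m ^ 8 = 8 * (lm m ^ 8 * 1) / 2 := by ring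
    _ ≤ √m * (lm m ^ 8 * lm m ^ 11) / 2 := by gcongr
    _ = _ := by ring

theorem t_c5 {B : ℝ} (hB : 0 ≤ B) :
    Tendsto (fun m : ℝ => cC2 B m * (pY m + 3) * (96 / (pL m * √(Real.exp (pY m / 2) / 2)))) atTop (𝓝 0) := by
  have h1 : Tendsto (fun m : ℝ => (B * (16 + 44 * CI) * 4 * 96 * 2) * m ^ (-(5/8) : ℝ)) atTop
      (𝓝 ((B * (16 + 44 * CI) * 4 * 96 * 2) * 0)) := (t_neg (by norm_num)).const_mul _
  rw [mul_zero] at h1
  apply squeeze_zero' _ _ h1
  · filter_upwards [basic] with m hb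
    obtain ⟨b1, b2, _, _, _, b6⟩ := hb
    have := cC2_nonneg hB (show 0 ≤ m by linarith)
    unfold pL pY
    positivity
  · filter_upwards [basic] with m hb
    obtain ⟨b1, b2, b3, b4, _, b6⟩ := hb
    have hm1 : (1:ℝ) ≤ m := by linarith
    have hm0 : (0:ℝ) < m := by linarith
    have hlm : 0 ≤ lm m := by linarith
    have hL1 : 1 ≤ pL m := by
      unfold pL
      have h2 : 1 ≤ lm m ^ 2 := one_le_pow₀ (by linarith)
      nlinarith
    have hY0 : 0 ≤ pY m := by unfold pY; positivity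
    have hE := exp_big b1 b2 b6
    have hs : m ^ 2 / 2 ≤ √(Real.exp (pY m / 2) / 2) := by
      apply Real.le_sqrt_of_sq_le
      have : 0 < m ^ 4 := by positivity
      nlinarith
    have h2 : 96 / (pL m * √(Real.exp (pY m / 2) / 2)) ≤ 96 * 2 / m ^ 2 := by
      have h3 : m ^ 2 / 2 ≤ pL m * √(Real.exp (pY m / 2) / 2) := by
        have : 0 ≤ √(Real.exp (pY m / 2) / 2) := Real.sqrt_nonneg _
        nlinarith
      calc 96 / (pL m * √(Real.exp (pY m / 2) / 2)) ≤ 96 / (m ^ 2 / 2) := by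
            apply div_le_div_of_nonneg_left (by norm_num) (by positivity) h3
        _ = _ := by field_simp
    have hC := cC2_nonneg hB hm0.le
    have hCI := CI_nonneg
    calc cC2 B m * (pY m + 3) * (96 / (pL m * √(Real.exp (pY m / 2) / 2)))
        ≤ (B * (16 + 44 * CI) * m ^ (3/8 : ℝ)) * (4 * m) * (96 * 2 / m ^ 2) := by
          apply mul_le_mul _ h2 (by positivity) (by positivity)
          apply mul_le_mul (cC2_le hB hm1) (by linarith) (by positivity) (by positivity)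
      _ = (B * (16 + 44 * CI) * 4 * 96 * 2) * (m ^ (3/8 : ℝ) * m / m ^ 2) := by ring
      _ = _ := by
          congr 1
          rw [show (-(5/8) : ℝ) = 3/8 + 1 - 2 by norm_num, Real.rpow_sub hm0, Real.rpow_add hm0, Real.rpow_one,
            Real.rpow_two]

/-- the pigeonhole condition -/
theorem t_pig {B : ℝ} (hB : 0 ≤ B) {ε : ℝ} (hε : 0 < ε) :
    ∀ᶠ m : ℝ in atTop, (1 + 2 * (cC2 B m * (pY m + 3) * (16 * pL m * CS)) / ε) ^ (2 * (ZL (pL m)).card) <
      (⌊Real.exp (pY m / 2)⌋₊ : ℝ) + 1 := by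
  obtain ⟨L₀, hL₀, hcard⟩ := ZL_card
  have hCS := CS_nonneg
  have hCI := CI_nonneg
  -- S-bound
  have hS : ∀ᶠ m : ℝ in atTop, 1 + 2 * (cC2 B m * (pY m + 3) * (16 * pL m * CS)) / ε ≤ m ^ 3 := by
    set C := 2 * (B * (16 + 44 * CI) * 4 * 16 * CS) / ε with hC
    have hC0 : 0 ≤ C := by positivity
    have h1 : Tendsto (fun m : ℝ => m ^ (5/8 : ℝ)) atTop atTop := tendsto_rpow_atTop (by norm_num)
    filter_upwards [h1.eventually_ge_atTop (C + 1), basic] with m hm1 hb
    obtain ⟨b1, b2, b3, b4, _, b6⟩ := hb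
    have hm : (1:ℝ) ≤ m := by linarith
    have hm0 : (0:ℝ) < m := by linarith
    have hlm : 0 ≤ lm m := by linarith
    have hL0 : 0 ≤ pL m := by unfold pL; positivity
    have hY0 : 0 ≤ pY m := by unfold pY; positivity
    have hc2 := cC2_nonneg hB hm0.le
    have h38 : 1 ≤ m ^ (19/8 : ℝ) := Real.one_le_rpow hm (by norm_num)
    have h2 : cC2 B m * (pY m + 3) * (16 * pL m * CS) ≤
        (B * (16 + 44 * CI) * m ^ (3/8 : ℝ)) * (4 * m) * (16 * m * CS) := by
      apply mul_le_mul _ (by gcongr) (by positivity) (by positivity)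
      apply mul_le_mul (cC2_le hB hm) (by linarith) (by positivity) (by positivity)
    calc 1 + 2 * (cC2 B m * (pY m + 3) * (16 * pL m * CS)) / ε
        ≤ 1 + 2 * ((B * (16 + 44 * CI) * m ^ (3/8 : ℝ)) * (4 * m) * (16 * m * CS)) / ε := by gcongr
      _ = 1 + C * (m ^ (3/8 : ℝ) * m ^ 2) := by rw [hC]; ring
      _ = 1 + C * m ^ (19/8 : ℝ) := by
          rw [show (19/8 : ℝ) = 3/8 + 2 by norm_num, Real.rpow_add hm0, Real.rpow_two]
      _ ≤ (C + 1) * m ^ (19/8 : ℝ) := by linarith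
      _ ≤ m ^ (5/8 : ℝ) * m ^ (19/8 : ℝ) := by gcongr
      _ = m ^ 3 := by
          rw [← Real.rpow_add hm0]
          norm_num
  have hLt : Tendsto (fun m : ℝ => pL m) atTop atTop := by
    unfold pL
    exact Real.tendsto_sqrt_atTop.atTop_mul_atTop₀ ((tendsto_pow_atTop (by norm_num)).comp lm_tendsto)
  filter_upwards [hS, hLt.eventually_ge_atTop L₀, basic] with m h1 h3 hb
  obtain ⟨b1, b2, b3, b4, _, b6⟩ := hb
  have hm : (1:ℝ) ≤ m := by linarith
  have hm0 : (0:ℝ) < m := by linarith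
  have hlm : 0 ≤ lm m := by linarith
  have hl : 0 ≤ Real.log m := Real.log_nonneg hm
  have hc := hcard (pL m) h3
  have hL0 : 0 ≤ pL m := by unfold pL; positivity
  have hY0 : 0 ≤ pY m := by unfold pY; positivity
  have hLpos : 0 < pL m := by linarith
  have hlogL : Real.log (pL m) ≤ Real.log m := Real.log_le_log hLpos b4
  set N := (ZL (pL m)).card with hN
  have hc2 := cC2_nonneg hB hm0.le
  have hbase : 0 ≤ 1 + 2 * (cC2 B m * (pY m + 3) * (16 * pL m * CS)) / ε := by positivity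
  have h4 : (1 + 2 * (cC2 B m * (pY m + 3) * (16 * pL m * CS)) / ε) ^ (2 * N) ≤ (m ^ 3) ^ (2 * N) :=
    pow_le_pow_left₀ hbase h1 _
  have h5 : (m ^ 3) ^ (2 * N) = Real.exp (6 * N * Real.log m) := by
    rw [← pow_mul, ← Real.exp_log (pow_pos hm0 _), Real.log_pow]
    congr 1
    push_cast
    ring
  have h6 : (6:ℝ) * N * Real.log m ≤ pY m / 2 := by
    have hc' : (N : ℝ) ≤ pL m * Real.log m := hc.trans (mul_le_mul_of_nonneg_left hlogL hL0)
    calc (6:ℝ) * N * Real.log m ≤ 6 * (pL m * Real.log m) * Real.log m := by gcongr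
      _ = 6 * √m * lm m ^ 18 := by
          unfold pL
          rw [← lm_pow hm]
          ring
      _ = (12 * √m * lm m ^ 18) / 2 := by ring
      _ ≤ (lm m * √m * lm m ^ 18) / 2 := by
          gcongr
          linarith
      _ = _ := by unfold pY; ring
  calc _ ≤ (m ^ 3) ^ (2 * N) := h4
    _ = Real.exp (6 * N * Real.log m) := h5
    _ ≤ Real.exp (pY m / 2) := Real.exp_le_exp.2 h6
    _ < _ := Nat.lt_floor_add_one _

/-- the gauge -/
noncomputable def Psi (n : ℕ) : ℝ := Real.log (Real.log n) / Real.log (Real.log (Real.log n)) ^ 3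

theorem psi_bd {m : ℝ} (hb : 8 ≤ m ∧ 1024 ≤ lm m ∧ pY m ≤ m ∧ pL m ≤ m ∧ 64 * lm m ^ 4 ≤ √m ∧ 8 ≤ √m)
    {n : ℕ} (h1 : Real.exp (Real.exp (pY m / 2) / 2 - 1) - 1 ≤ n) (h2 : (n : ℝ) ≤ Real.exp (2 * Real.exp (pY m))) :
    Psi n ≤ pψ m := by
  obtain ⟨b1, b2, b3, b4, b5, b6⟩ := hb
  have hm1 : (1:ℝ) ≤ m := by linarith
  have hm0 : (0:ℝ) < m := by linarith
  have hlm : 0 ≤ lm m := by linarith
  have hlm1 : 1 ≤ lm m := by linarith
  have hY8 : √m * 32 ≤ pY m := by
    unfold pY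
    have : 32 ≤ lm m ^ 19 := by
      calc (32:ℝ) ≤ lm m := by linarith
        _ = lm m ^ 1 := by ring
        _ ≤ lm m ^ 19 := pow_le_pow_right₀ hlm1 (by norm_num)
    nlinarith
  have hY : 256 ≤ pY m := by linarith
  have hexpY : 1 + pY m / 4 ≤ Real.exp (pY m / 4) := by
    have := Real.add_one_le_exp (pY m / 4)
    linarith
  have hexp2 : Real.exp (pY m / 2) = Real.exp (pY m / 4) * Real.exp (pY m / 4) := by
    rw [← Real.exp_add]; congr 1; ring
  have hE4 : 65 ≤ Real.exp (pY m / 4) := by linarith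
  -- lower bound for n
  have hn1 : Real.exp (Real.exp (pY m / 4)) ≤ n := by
    have h3 : Real.exp (pY m / 4) + 1 ≤ Real.exp (pY m / 2) / 2 - 1 := by
      rw [hexp2]; nlinarith
    have h4 : Real.exp (Real.exp (pY m / 4) + 1) ≤ Real.exp (Real.exp (pY m / 2) / 2 - 1) := Real.exp_le_exp.2 h3
    rw [Real.exp_add] at h4
    have h5 := Real.add_one_le_exp (1:ℝ)
    have h6 := Real.add_one_le_exp (Real.exp (pY m / 4))
    nlinarith
  have hn0 : (0:ℝ) < n := lt_of_lt_of_le (Real.exp_pos _) hn1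
  have hl1 : Real.exp (pY m / 4) ≤ Real.log n := by
    rw [Real.le_log_iff_exp_le hn0]; exact hn1
  have hl1p : 0 < Real.log n := by linarith
  have hl2 : pY m / 4 ≤ Real.log (Real.log n) := by
    rw [Real.le_log_iff_exp_le hl1p]; exact hl1
  have hl2p : 0 < Real.log (Real.log n) := by linarith
  have hsm : √m ≤ Real.log (Real.log n) := by linarith
  have hl3 : lm m ^ 8 / 2 ≤ Real.log (Real.log (Real.log n)) := by
    have h7 := Real.log_le_log (by linarith : 0 < √m) hsm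
    rw [Real.log_sqrt hm0.le, ← lm_pow hm1] at h7
    exact h7
  have hu : Real.log (Real.log n) ≤ 2 * pY m := by
    rw [Real.log_le_iff_le_exp hl1p]
    have h8 : Real.log n ≤ 2 * Real.exp (pY m) := by
      rw [Real.log_le_iff_le_exp hn0]; exact h2
    have h9 : 2 * Real.exp (pY m) ≤ Real.exp (2 * pY m) := by
      have : Real.exp (2 * pY m) = Real.exp (pY m) * Real.exp (pY m) := by rw [← Real.exp_add]; congr 1; ring
      rw [this]
      have h10 := Real.add_one_le_exp (pY m)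
      nlinarith [Real.exp_pos (pY m)]
    linarith
  have hden : lm m ^ 24 / 8 ≤ Real.log (Real.log (Real.log n)) ^ 3 := by
    calc lm m ^ 24 / 8 = (lm m ^ 8 / 2) ^ 3 := by ring
      _ ≤ _ := pow_le_pow_left₀ (by positivity) hl3 3
  have hden0 : 0 < lm m ^ 24 / 8 := by positivity
  unfold Psi pψ
  calc Real.log (Real.log n) / Real.log (Real.log (Real.log n)) ^ 3
      ≤ (2 * pY m) / (lm m ^ 24 / 8) := by
        apply div_le_div₀ (by linarith) hu hden0 hden
    _ = (16 * √m) / lm m ^ 5 := by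
        unfold pY
        have : lm m ≠ 0 := by linarith
        field_simp
        ring
    _ ≤ √m / (64 * lm m ^ 4) := by
        rw [div_le_div_iff₀ (by positivity) (by positivity)]
        have h11 : 1024 * lm m ^ 4 ≤ lm m ^ 5 := by
          calc 1024 * lm m ^ 4 ≤ lm m * lm m ^ 4 := mul_le_mul_of_nonneg_right b2 (by positivity)
            _ = _ := by ring
        have h12 : 0 ≤ √m := Real.sqrt_nonneg m
        nlinarith

end Pool.Agent.Helper99.MS
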